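import Pool.Agent.QTF.Defs

/-!
# [QTF-Up] the local conditions in a quadratic extension

Model: `TU.LD.up`, `TU.U7.up` (TU/Q3.lean). For `P` a prime of `F'`, `v = s2_below P` the prime of `F` below `P` (`TK.s2_below`, `TK.s2_mem_below`; the hypothesis `P.comap = v` holds by `rfl`).
`LD.mul`: `Ur.mul`. `LD.up`: `Ur.up`. `val_up`: `Ur v Q.e`: `QS.split` or `QS.inert` (as in `TU.U7.up`).
`Loc.up`: `la`, `odd`: `1 + i ∈ P` gives `1 + i ∈ v`, hence `2 ∈ v` (`2 = -i (1 + i)²`), `Ur v Q.e` by `he`, so the valuations agree (`val_up`), which gives `∉ P²` (`TU.q3_pow`, as in `TU.U7.up`). `two`: `Bad2`, `Spec` are preserved by the ring homomorphism `𝓞 F → 𝓞 F'` (`map_dvd`).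
-/

set_option autoImplicit false

open NumberField Ideal IsDedekindDomain ArithmeticFunction
open CM27 CMT GE TR TT TK TU
open scoped Classical

namespace QTF

section
variable {F F' : Type} [Field F] [NumberField F] [Field F'] [NumberField F'] [Algebra F F']
  {i D : 𝓞 F}

theorem Bad2.map {R R' : Type} [CommRing R] [CommRing R'] (φ : R →+* R') {i D : R} (h : Bad2 i D) :
    Bad2 (φ i) (φ D) := by
  rcases h with ⟨u, n, hD, h1, h2, h3⟩ | h | h | h | h
  · refine Or.inl ⟨φ u, n, ?_, h1, h2, ?_⟩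
    · rw [hD, map_mul, map_pow, map_add, map_one]
    · have := map_dvd φ h3
      simpa only [map_ofNat, map_sub, map_pow, map_one] using this
  · have := map_dvd φ h
    exact Or.inr (Or.inl (by simpa only [map_ofNat, map_sub] using this))
  · have := map_dvd φ h
    exact Or.inr (Or.inr (Or.inl (by simpa only [map_ofNat, map_sub, map_add, map_mul] using this)))
  · have := map_dvd φ h
    exact Or.inr (Or.inr (Or.inr (Or.inl
      (by simpa only [map_ofNat, map_sub, map_add, map_mul] using this))))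
  · have := map_dvd φ h
    exact Or.inr (Or.inr (Or.inr (Or.inr
      (by simpa only [map_ofNat, map_sub, map_add, map_mul] using this))))

theorem Spec.map {R R' : Type} [CommRing R] [CommRing R'] (φ : R →+* R') {i D m : R} (h : Spec i D m) :
    Spec (φ i) (φ D) (φ m) := by
  rcases h with h | h
  · left
    rw [h]
    simp only [map_ofNat, map_sub, map_add, map_mul, map_one]
  · right
    rw [h]
    simp only [map_ofNat, map_sub, map_add, map_mul, map_one]

theorem LD.mul {d d' : F} (h : LD F D d) (h' : LD F D d') : LD F D (d * d') :=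
  ⟨mul_ne_zero h.ne h'.ne, fun w hw => (h.ur w hw).mul (h'.ur w hw)⟩

theorem LD.one : LD F D (1 : F) :=
  ⟨one_ne_zero, fun _ _ => ur_one⟩

theorem val_up (Q : QS F F') {v : HeightOneSpectrum (𝓞 F)} (h : Ur v Q.e) {P : HeightOneSpectrum (𝓞 F')}
    (hP : P.asIdeal.comap (algebraMap (𝓞 F) (𝓞 F')) = v.asIdeal) (x : F) :
    P.valuation F' (algebraMap F F' x) = v.valuation F x := by
  by_cases hs : Sq v Q.e
  · obtain ⟨P₀, P', hne, hu, h1, h2, h3, h4⟩ := Q.split v hs
    rcases (hu P).1 hP with h5 | h5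
    · rw [h5]
      exact h3 x
    · rw [h5]
      exact h4 x
  · obtain ⟨P₀, hu, h1, h2⟩ := Q.inert v h hs
    rw [(hu P).1 hP]
    exact h2 x

theorem up_ur {d : F} (h : LD F D d) :
    LD F' (algebraMap (𝓞 F) (𝓞 F') D) (algebraMap F F' d) := by
  refine ⟨(map_ne_zero _).2 h.ne, fun P hP => Ur.up (v := s2_below P) rfl (h.ur _ ?_)⟩
  rw [s2_mem_below, s2_mem_below, map_ofNat]
  exact hP

theorem LD.up (Q : QS F F') {d : F} (h : LD F D d) :
    LD F' (algebraMap (𝓞 F) (𝓞 F') D) (algebraMap F F' d) :=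
  up_ur h

theorem up_loc (h : Loc F i D)
    (hv : ∀ (v : HeightOneSpectrum (𝓞 F)) (P : HeightOneSpectrum (𝓞 F')),
      P.asIdeal.comap (algebraMap (𝓞 F) (𝓞 F')) = v.asIdeal → ((2 : 𝓞 F) ∈ v.asIdeal ∨ D ∈ v.asIdeal) →
      ∀ x : F, P.valuation F' (algebraMap F F' x) = v.valuation F x) :
    Loc F' (algebraMap (𝓞 F) (𝓞 F') i) (algebraMap (𝓞 F) (𝓞 F') D) := by
  have hinj : Function.Injective (algebraMap (𝓞 F) (𝓞 F')) := by
    intro a b hab
    apply RingOfIntegers.ext
    apply (algebraMap F F').injective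
    rw [← q3_coe, ← q3_coe, hab]
  have hsq : ∀ (P : HeightOneSpectrum (𝓞 F')) (a : 𝓞 F),
      ((2 : 𝓞 F) ∈ (s2_below (L := F) P).asIdeal ∨ D ∈ (s2_below (L := F) P).asIdeal) →
      a ∉ (s2_below (L := F) P).asIdeal ^ 2 → algebraMap (𝓞 F) (𝓞 F') a ∉ P.asIdeal ^ 2 := by
    intro P a h1 h2 h3
    apply h2
    rw [← q3_pow, q3_coe, hv (s2_below P) P rfl h1] at h3
    rw [← q3_pow]
    exact h3
  refine ⟨?_, ?_, ?_, ?_, ?_⟩
  · rw [← map_pow, h.hi, map_neg, map_one]
  · exact (map_ne_zero_iff _ hinj).2 h.ne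
  · intro w hw
    have e1 : 1 + algebraMap (𝓞 F) (𝓞 F') i = algebraMap (𝓞 F) (𝓞 F') (1 + i) := by
      rw [map_add, map_one]
    rw [e1] at hw ⊢
    have h1 : 1 + i ∈ (s2_below (L := F) w).asIdeal := (s2_mem_below w _).2 hw
    have h2 : (2 : 𝓞 F) ∈ (s2_below (L := F) w).asIdeal := by
      have e2 : (2 : 𝓞 F) = (-i * (1 + i)) * (1 + i) := by
        linear_combination (2 + i) * h.hi
      rw [e2]
      exact Ideal.mul_mem_left _ _ h1
    exact hsq w _ (Or.inl h2) (h.la _ h1)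
  · intro w h2 hD
    have h2' : (2 : 𝓞 F) ∉ (s2_below (L := F) w).asIdeal := by
      rw [s2_mem_below, map_ofNat]
      exact h2
    have hD' : D ∈ (s2_below (L := F) w).asIdeal := (s2_mem_below w _).2 hD
    obtain ⟨p, u, n, e, hp, hp2, hu, h1, h3⟩ := h.odd _ h2' hD'
    refine ⟨algebraMap (𝓞 F) (𝓞 F') p, algebraMap (𝓞 F) (𝓞 F') u, n, ?_, (s2_mem_below w _).1 hp,
      hsq w p (Or.inr hD') hp2, fun h4 => hu ((s2_mem_below w _).2 h4), h1, h3⟩
    rw [e, map_mul, map_pow]
  · rcases h.two with h1 | ⟨m, h1⟩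
    · exact Or.inl (h1.map _)
    · exact Or.inr ⟨_, h1.map _⟩

theorem Loc.up (Q : QS F F') (h : Loc F i D) (he : LD F D Q.e) :
    Loc F' (algebraMap (𝓞 F) (𝓞 F') i) (algebraMap (𝓞 F) (𝓞 F') D) :=
  up_loc h fun v _ hP h1 x => val_up Q (he.ur v h1) hP x

/-- isomorphic fields (`TU.LCW_bij`, TU/Q5.lean: `hmap`, `hval`) -/
theorem Loc.bij (hb : Function.Bijective (algebraMap F F')) (h : Loc F i D) :
    Loc F' (algebraMap (𝓞 F) (𝓞 F') i) (algebraMap (𝓞 F) (𝓞 F') D) := by
  have hb' : Function.Bijective (algebraMap (𝓞 F) (𝓞 F')) := c5_bij hb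
  refine up_loc h fun v P hP _ x => ?_
  have hmap : P.asIdeal = v.asIdeal.map (algebraMap (𝓞 F) (𝓞 F')) := by
    rw [← hP, Ideal.map_comap_of_surjective _ hb'.2]
  refine val_of_unram hP (fun hle => ?_) x
  rw [← hmap] at hle
  have h1 : P.asIdeal ^ 2 < P.asIdeal := by
    have := Ideal.pow_right_strictAnti P.asIdeal P.ne_bot P.isPrime.ne_top (by norm_num : 1 < 2)
    simpa using this
  exact absurd hle (not_le_of_gt h1)

theorem LD.bij (hb : Function.Bijective (algebraMap F F')) {d : F} (h : LD F D d) :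
    LD F' (algebraMap (𝓞 F) (𝓞 F') D) (algebraMap F F' d) :=
  up_ur h

end

end QTF
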