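import Pool.Agent.QTF.Up
import Pool.Agent.QTS.C2
import Pool.Agent.QTS.C3

/-!
# [QTF-M] the local conditions over `ℚ(i)`

`la`: `w = (1 + i)` (`PI.gen_cases`, `PI.mem_iff`), `(1+i)² ∤ 1 + i`. `odd`: `w = (b)`, `b` a primary prime, `b ∣ D`: `b ∈ S` (`QTS.Dd_not`), `QTS.Dd_odd` (QTS/C1.lean): `D = b^(a b) w`, `a b ∈ {1, 2, 3}`.
`two`: `t = 0`: `QTS.class_zero`, or `s = 0` and `8 ∣ re D - 1`: `QTS.class_sp` (QTS/C2.lean); `t ≥ 1`: `QTS.Dd_eq`, `QTS.U_la` (QTS/C1.lean), `2 ∣ U² - 1` (`U = 1 + la z`).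
-/

set_option autoImplicit false

open NumberField Ideal IsDedekindDomain
open scoped Classical

namespace QTF

open PI

/-- membership in the square of a prime -/
theorem m_sq {w : HeightOneSpectrum (𝓞 KI)} {b : Gi} (hw : w.asIdeal = Ideal.span {eG b}) (x : Gi) :
    eG x ∈ w.asIdeal ^ 2 ↔ b ^ 2 ∣ x := by
  rw [hw, Ideal.span_singleton_pow, Ideal.mem_span_singleton, ← map_pow]
  exact s1_dvd

theorem m_la : (1 + ii : Gi) = la := by decide

theorem m_sq_dvd {b x : Gi} (hb : Prime b) (hx : Prime x) : ¬ b ^ 2 ∣ x := by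
  rintro ⟨c, hc⟩
  have h1 : x = b * (b * c) := by rw [hc]; ring
  rcases hx.irreducible.isUnit_or_isUnit h1 with h2 | h2
  · exact hb.not_isUnit h2
  · exact hb.not_isUnit (isUnit_of_mul_isUnit_left h2)

theorem m_la_one {x : Gi} (h : ¬ la ∣ x) : la ∣ x - 1 := by
  rw [la_dvd_iff] at h ⊢
  rw [Zsqrtd.re_sub, Zsqrtd.im_sub, Zsqrtd.re_one, Zsqrtd.im_one]
  omega

/-- the classes at `1 + i` in `ℤ[i]` -/
theorem m_two {s t : ℕ} {S : Finset Gi} {a : Gi → ℕ} (h : QT.Good s t S a) :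
    Bad2 (ii : Gi) (QT.Dd s t S a) ∨ ∃ m, Spec (ii : Gi) (QT.Dd s t S a) m := by
  have hadm : QT.Adm s t S a := QTS.good_adm h
  have h32 : (3 + 2 * ii : Gi) = ⟨3, 2⟩ := by decide
  have h52 : (5 + 2 * ii : Gi) = ⟨5, 2⟩ := by decide
  have h52' : (5 - 2 * ii : Gi) = ⟨5, -2⟩ := by decide
  have h12 : (1 + 2 * ii : Gi) = ⟨1, 2⟩ := by decide
  have h12' : (1 - 2 * ii : Gi) = ⟨1, -2⟩ := by decide
  rcases Nat.eq_zero_or_pos t with rfl | ht
  · by_cases hsp : s = 0 ∧ (8 : ℤ) ∣ (QT.Dd s 0 S a).re - 1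
    · obtain ⟨rfl, h8⟩ := hsp
      right
      rcases QTS.class_sp h h8 with ⟨m, hm⟩ | ⟨m, hm⟩
      · refine ⟨m, Or.inl ?_⟩
        rw [h12]
        linear_combination hm
      · refine ⟨m, Or.inr ?_⟩
        rw [h12']
        linear_combination hm
    · left
      right
      rw [h32, h52, h52']
      exact QTS.class_zero h hsp
  · left
    left
    refine ⟨QTS.U s S a, t, ?_, ht, hadm.2.2.2, ?_⟩
    · rw [m_la]
      exact QTS.Dd_eq
    · have h1 : ¬ la ∣ QTS.U s S a := QTS.U_la hadm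
      obtain ⟨z, hz⟩ : la ∣ QTS.U s S a - 1 := m_la_one h1
      have h2 : QTS.U s S a = 1 + la * z := by linear_combination hz
      have h3 : (la ^ 2 : Gi) = 2 * ii := by decide
      refine ⟨la * z + ii * z ^ 2, ?_⟩
      rw [h2]
      linear_combination z ^ 2 * h3

theorem loc_base {s t : ℕ} {S : Finset Gi} {a : Gi → ℕ} (h : QT.Good s t S a) :
    Loc KI (eG ii : 𝓞 KI) (eG (QT.Dd s t S a) : 𝓞 KI) := by
  have hadm : QT.Adm s t S a := QTS.good_adm h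
  refine ⟨?_, ?_, ?_, ?_, ?_⟩
  · rw [← map_pow, QTS.c2_ii2, map_neg, map_one]
  · exact (map_ne_zero_iff eG eG.injective).2 (QTS.Dd_ne hadm)
  · intro w _ h2
    obtain ⟨b, hb, hw⟩ := gen (v := w)
    have h3 : (1 + eG ii : 𝓞 KI) = eG la := by rw [← m_la, map_add, map_one]
    rw [h3, m_sq hw] at h2
    exact m_sq_dvd hb la_prime h2
  · intro w h2 hD
    rcases gen_cases (v := w) with hw | ⟨b, hb, hp, hw⟩
    · exfalso
      apply h2
      have h3 : (2 : 𝓞 KI) = eG 2 := (map_ofNat eG 2).symm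
      rw [h3, mem_iff hw]
      exact ⟨⟨1, -1⟩, by decide⟩
    · rw [mem_iff hw] at hD
      have hS : b ∈ S := by
        by_contra hS
        exact QTS.Dd_not hadm hb hp hS hD
      obtain ⟨u, hu, hbu⟩ := QTS.Dd_odd hadm hS
      refine ⟨eG b, eG u, a b, ?_, ?_, ?_, ?_, ?_, ?_⟩
      · rw [hu, map_mul, map_pow]
      · rw [mem_iff hw]
      · rw [m_sq hw]
        exact m_sq_dvd hb hb
      · rw [mem_iff hw]
        exact hbu
      · rcases hadm.2.1 b hS with h4 | h4 | h4 <;> omega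
      · rcases hadm.2.1 b hS with h4 | h4 | h4 <;> omega
  · rcases m_two h with h1 | ⟨m, h1⟩
    · exact Or.inl (Bad2.map (eG : Gi →+* 𝓞 KI) h1)
    · exact Or.inr ⟨_, Spec.map (eG : Gi →+* 𝓞 KI) h1⟩

end QTF
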