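import Pool.Agent.QTF.G

/-!
# [QTF-Q] `L(E_d / F', s) = L(E_d / F, s) L(E_{de} / F, s)` for `F' = F(√e)`

Model: TU/Q5.lean (complete): `qbc_local`, `qbc`, `LCW_bij`. `d e` satisfies `LD.mul`; `LD.up`, `Loc.up` (Up.lean). `Bad` at `P` iff `Bad` at `v` (`D ∈ P` iff `D ∈ v`; `2`): at bad places all factors are `1` (`fW_bad`, `c5_loc_one`).
Otherwise `exists_tr` at `v` with trace `a`, `exists_AB`: `A + B = a`, `A B = p^f`; at `P` with the same norm `tr_same` (same `A`, `B`); inert: `tr_quad`: trace `a² - 2 p^f = A² + B²`, norm `p^(2f)`, `A² B² = p^(2f)`, `pE_quad`.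
The cases split / inert / ramified are literally those of `TU.qbc_local` (`q5E σ α β f` replaced by `pE σ A B f`; `Ur ∨ Od` from `ur_or_od` at the places not above `2`, `LD.ur` at the places above `2`; the case ramified is at a place not above `2`).
-/

set_option autoImplicit false

open NumberField Ideal IsDedekindDomain ArithmeticFunction
open CM27 CMT GE TR TT TK TU
open scoped Classical

namespace QTF

/-- above `2` the conditions `Bad2` and `Spec` exclude each other, if `D` is a unit -/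
theorem qq_ns {R : Type} [CommRing R] [IsDomain R] (h20 : (2 : R) ≠ 0) {i D m : R} (hi : i ^ 2 = -1)
    {p : Ideal R} (hp : p.IsPrime) (h2 : (2 : R) ∈ p) (hD : D ∉ p) (hB : Bad2 i D) (hS : Spec i D m) :
    False := by
  have h1p : (1 : R) ∉ p := fun h => hp.ne_top ((Ideal.eq_top_iff_one p).2 h)
  have hip : 1 + i ∈ p := by
    refine hp.mem_of_pow_mem 2 ?_
    rw [show (1 + i) ^ 2 = 2 * i by linear_combination hi]
    exact p.mul_mem_right i h2
  have him : 1 - i ∈ p := by
    rw [show 1 - i = (1 + i) - 2 * i by ring]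
    exact p.sub_mem hip (p.mul_mem_right i h2)
  have n1 : (1 + i) ≠ 0 := by
    intro h
    apply h20
    linear_combination (1 - i) * h + hi
  have n2 : (1 - i) ≠ 0 := by
    intro h
    apply h20
    linear_combination (1 + i) * h + hi
  have h40 : (4 : R) ≠ 0 := by
    rw [show (4 : R) = 2 * 2 by norm_num]
    exact mul_ne_zero h20 h20
  have cC : ∀ s : R, (1 : R) = 2 * s → False := fun s hs => h1p (by
    rw [hs]
    exact p.mul_mem_right s h2)
  have cA : ∀ s : R, 1 - i = 2 * s → False := by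
    intro s hs
    have h3 : (1 - i) * (1 - (1 + i) * s) = 0 := by linear_combination hs + s * hi
    have h4 := (mul_eq_zero.1 h3).resolve_left n2
    refine h1p ?_
    rw [show (1 : R) = (1 + i) * s by linear_combination h4]
    exact p.mul_mem_right s hip
  have cB : ∀ s : R, 1 + i = 2 * s → False := by
    intro s hs
    have h3 : (1 + i) * (1 - (1 - i) * s) = 0 := by linear_combination hs + s * hi
    have h4 := (mul_eq_zero.1 h3).resolve_left n1
    refine h1p ?_
    rw [show (1 : R) = (1 - i) * s by linear_combination h4]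
    exact p.mul_mem_right s him
  rcases hB with ⟨u, n, hDn, hn, -, -⟩ | ⟨t, ht⟩ | ⟨t, ht⟩ | ⟨t, ht⟩ | ⟨t, ht⟩
  · apply hD
    rw [hDn]
    exact p.mul_mem_right u (Ideal.pow_mem_of_mem p hip n (by omega))
  · rcases hS with hS | hS
    · exact cB (t - 4 * m) (by linear_combination ht - hS)
    · exact cA (t + i - 4 * m) (by linear_combination ht - hS)
  · rcases hS with hS | hS
    · exact cC (2 * m - t) (mul_left_cancel₀ h20 (by linear_combination hS - ht))
    · exact cC (-i + 2 * m - t) (mul_left_cancel₀ h20 (by linear_combination hS - ht))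
  · rcases hS with hS | hS
    · exact cC (m - t) (mul_left_cancel₀ h40 (by linear_combination hS - ht))
    · exact cB (m - t) (mul_left_cancel₀ h40 (by linear_combination hS - ht))
  · rcases hS with hS | hS
    · exact cA (m - t) (mul_left_cancel₀ h40 (by linear_combination hS - ht))
    · exact cC (m - t) (mul_left_cancel₀ h40 (by linear_combination hS - ht))

section
variable {F F' : Type} [Field F] [NumberField F] [Field F'] [NumberField F'] [Algebra F F']
  {i D : 𝓞 F}

theorem qq_bad (h : Loc F i D) {v : HeightOneSpectrum (𝓞 F)} {P : HeightOneSpectrum (𝓞 F')}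
    (hP : P.asIdeal.comap (algebraMap (𝓞 F) (𝓞 F')) = v.asIdeal) :
    Bad (algebraMap (𝓞 F) (𝓞 F') i) (algebraMap (𝓞 F) (𝓞 F') D) P ↔ Bad i D v := by
  have e : ∀ x : 𝓞 F, algebraMap (𝓞 F) (𝓞 F') x ∈ P.asIdeal ↔ x ∈ v.asIdeal := fun x => by
    rw [← hP, Ideal.mem_comap]
  have e2 : (2 : 𝓞 F') ∈ P.asIdeal ↔ (2 : 𝓞 F) ∈ v.asIdeal := by
    rw [← e 2, map_ofNat]
  unfold Bad
  constructor
  · rintro (hD | ⟨h2, hB⟩)
    · exact Or.inl ((e D).1 hD)
    · by_cases hD : D ∈ v.asIdeal
      · exact Or.inl hD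
      · rcases h.two with hB' | ⟨m, hm⟩
        · exact Or.inr ⟨e2.1 h2, hB'⟩
        · exact (qq_ns two_ne_zero (by rw [← map_pow, h.hi, map_neg, map_one]) P.isPrime h2
            (fun hh => hD ((e D).1 hh)) hB (hm.map (algebraMap (𝓞 F) (𝓞 F')))).elim
  · rintro (hD | ⟨h2, hB⟩)
    · exact Or.inl ((e D).2 hD)
    · exact Or.inr ⟨e2.2 h2, hB.map _⟩

/-- the cases at a place -/
theorem qq_or {d : F} (hd : LD F D d) (v : HeightOneSpectrum (𝓞 F)) :
    Ur v d ∨ (Od v d ∧ (2 : 𝓞 F) ∉ v.asIdeal) := by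
  by_cases h2 : (2 : 𝓞 F) ∈ v.asIdeal
  · exact Or.inl (hd.ur v (Or.inl h2))
  · exact (ur_or_od h2 hd.ne).imp_right fun h => ⟨h, h2⟩

/-- the local factor -/
theorem qq_loc (h : Loc F i D) (v : HeightOneSpectrum (𝓞 F)) {p f : ℕ} (hp : p.Prime) (hf : 0 < f)
    (hv : absNorm v.asIdeal = p ^ f) (hb : ¬ Bad i D v) {d : F} (hd : LD F D d) {a : ℤ}
    (ha : IsTr i D v a) {A B : ℂ} (hs : A + B = a) (hm : A * B = (p : ℂ) ^ f) {σ : ℤ}
    (hσ : sg v d = σ) :
    PowerSeries.map (Int.castRingHom ℂ) (loc p (fW F (V D d) v)) * pE σ A B f = 1 := by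
  have h1 := loc_V h v hp hf hv hb hd ha hs hm 1
  rw [one_smul, hσ] at h1
  exact h1

theorem qq_one (h : Loc F i D) (v : HeightOneSpectrum (𝓞 F)) {p : ℕ} (hp : p.Prime) (hb : Bad i D v)
    {d : F} (hd : LD F D d) :
    PowerSeries.map (Int.castRingHom ℂ) (loc p (fW F (V D d) v)) = 1 := by
  refine c5_loc_one hp ?_
  have h1 := fW_bad h v hb hd 1
  rwa [one_smul] at h1

end

section
variable {F F' : Type} [Field F] [NumberField F] [Field F'] [NumberField F'] [Algebra F F'] (Q : QS F F')
  {i D : 𝓞 F}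

theorem qbc_local (h : Loc F i D) {d : F} (hd : LD F D d) (he : LD F D Q.e)
    (v : HeightOneSpectrum (𝓞 F)) {p f : ℕ} (hp : p.Prime) (hf : 0 < f)
    (hv : absNorm v.asIdeal = p ^ f) (T : Finset (HeightOneSpectrum (𝓞 F')))
    (hT : ∀ P, P ∈ T ↔ P.asIdeal.comap (algebraMap (𝓞 F) (𝓞 F')) = v.asIdeal) :
    ∏ P ∈ T, PowerSeries.map (Int.castRingHom ℂ)
      (loc p (fW F' (V (algebraMap (𝓞 F) (𝓞 F') D) (algebraMap F F' d)) P)) =
    PowerSeries.map (Int.castRingHom ℂ) (loc p (fW F (V D d) v)) *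
      PowerSeries.map (Int.castRingHom ℂ) (loc p (fW F (V D (d * Q.e)) v)) := by
  classical
  have hm : LD F D (d * Q.e) := hd.mul he
  have hd' := LD.up Q hd
  have h' := Loc.up Q h he
  by_cases hb : Bad i D v
  · rw [qq_one h v hp hb hd, qq_one h v hp hb hm, mul_one]
    refine Finset.prod_eq_one fun P hP => ?_
    exact qq_one h' P hp ((qq_bad h ((hT P).1 hP)).2 hb) hd'
  · obtain ⟨a, ha⟩ := exists_tr h v hb
    obtain ⟨A, B, hAB, hAB2⟩ := exists_AB a (p ^ f)
    have hAB3 : A * B = (p : ℂ) ^ f := by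
      rw [hAB2]
      push_cast
      rfl
    have R1 := fun {σ : ℤ} (hσ : sg v d = σ) => qq_loc h v hp hf hv hb hd ha hAB hAB3 hσ
    have R2 := fun {σ : ℤ} (hσ : sg v (d * Q.e) = σ) => qq_loc h v hp hf hv hb hm ha hAB hAB3 hσ
    have hbP : ∀ P : HeightOneSpectrum (𝓞 F'),
        P.asIdeal.comap (algebraMap (𝓞 F) (𝓞 F')) = v.asIdeal →
        ¬ Bad (algebraMap (𝓞 F) (𝓞 F') i) (algebraMap (𝓞 F) (𝓞 F') D) P :=
      fun P hP hh => hb ((qq_bad h hP).1 hh)
    -- places with the same norm
    have RS : ∀ P : HeightOneSpectrum (𝓞 F'),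
        P.asIdeal.comap (algebraMap (𝓞 F) (𝓞 F')) = v.asIdeal →
        absNorm P.asIdeal = absNorm v.asIdeal → ∀ {σ : ℤ}, sg P (algebraMap F F' d) = σ →
        PowerSeries.map (Int.castRingHom ℂ)
          (loc p (fW F' (V (algebraMap (𝓞 F) (𝓞 F') D) (algebraMap F F' d)) P)) * pE σ A B f = 1 :=
      fun P hP hn σ hσ => qq_loc h' P hp hf (hn.trans hv) (hbP P hP) hd' (tr_same hP hn ha) hAB hAB3 hσ
    have key : ∀ {a b c A B C : PowerSeries ℂ}, a * A = 1 → b * B = 1 → c * C = 1 → A = B * C →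
        a = b * c := by
      intro a b c A B C h1 h2 h3 h4
      refine u6_inv h1 ?_
      rw [h4]
      calc b * c * (B * C) = (b * B) * (c * C) := by ring
        _ = 1 := by rw [h2, h3, one_mul]
    rcases qq_or he v with hur | ⟨hod, h2⟩
    · by_cases hsq : Sq v Q.e
      · -- split
        obtain ⟨P, P', hne, hP, hn, hn', hval, hval'⟩ := Q.split v hsq
        have hTP : T = {P, P'} := by
          ext R
          rw [hT, hP, Finset.mem_insert, Finset.mem_singleton]
        have hPv := (hP P).2 (Or.inl rfl)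
        have hPv' := (hP P').2 (Or.inr rfl)
        have s1 : sg v Q.e = 1 := sg_eq_one_iff.2 hsq
        have s2 : sg v (d * Q.e) = sg v d := by
          rcases qq_or hd v with h | ⟨h, -⟩
          · rw [sg_mul h hur, s1, mul_one]
          · rw [sg_od h, mul_comm, sg_od (hur.mul_od h)]
        have s3 : ∀ R : HeightOneSpectrum (𝓞 F'),
            R.asIdeal.comap (algebraMap (𝓞 F) (𝓞 F')) = v.asIdeal →
            absNorm R.asIdeal = absNorm v.asIdeal →
            (∀ x : F, R.valuation F' (algebraMap F F' x) = v.valuation F x) →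
            sg R (algebraMap F F' d) = sg v d := by
          intro R hR hRn hRv
          rcases qq_or hd v with h | ⟨h, -⟩
          · exact sg_same hR hRn h
          · rw [sg_od h, sg_od (Od.up hR hRv h)]
        rw [hTP, Finset.prod_pair hne]
        have L1 := RS P hPv hn (s3 P hPv hn hval)
        have L2 := RS P' hPv' hn' (s3 P' hPv' hn' hval')
        rw [u6_inv L1 (R1 rfl), u6_inv L2 (R2 s2)]
      · -- inert
        obtain ⟨P, hP, hn, hval⟩ := Q.inert v hur hsq
        have hTP : T = {P} := by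
          ext R
          rw [hT, hP, Finset.mem_singleton]
        have hPv := (hP P).2 rfl
        have hnP : absNorm P.asIdeal = p ^ (2 * f) := by
          rw [hn, hv, ← pow_mul, mul_comm]
        have hAB4 : A ^ 2 + B ^ 2 = ((a ^ 2 - 2 * (absNorm v.asIdeal : ℤ) : ℤ) : ℂ) := by
          rw [hv]
          push_cast
          linear_combination (A + B + a) * hAB - 2 * hAB3
        have hAB5 : A ^ 2 * B ^ 2 = (p : ℂ) ^ (2 * f) := by
          rw [← mul_pow, hAB3, ← pow_mul, mul_comm]
        have RI : ∀ {σ : ℤ}, sg P (algebraMap F F' d) = σ →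
            PowerSeries.map (Int.castRingHom ℂ)
              (loc p (fW F' (V (algebraMap (𝓞 F) (𝓞 F') D) (algebraMap F F' d)) P)) *
                pE σ (A ^ 2) (B ^ 2) (2 * f) = 1 :=
          fun {σ} hσ => qq_loc h' P hp (by omega) hnP (hbP P hPv) hd' (tr_quad hPv hn ha) hAB4 hAB5 hσ
        rw [hTP, Finset.prod_singleton]
        have se : sg v Q.e = -1 :=
          (sg_ur hur).resolve_left fun h => hsq (sg_eq_one_iff.1 h)
        rcases qq_or hd v with h | ⟨h, -⟩
        · have L1 := RI (sg_quad hPv hn h)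
          have s2 : sg v (d * Q.e) = -sg v d := by
            rw [sg_mul h hur, se, mul_neg_one]
          exact key L1 (R1 rfl) (R2 s2) (pE_quad (sg_ur h) A B f).symm
        · have L1 := RI (sg_od (Od.up hPv hval h))
          have s2 : sg v (d * Q.e) = 0 := by
            rw [mul_comm]
            exact sg_od (hur.mul_od h)
          refine key L1 (R1 (sg_od h)) (R2 s2) ?_
          rw [pE_zero, pE_zero, one_mul]
    · -- ramified
      obtain ⟨P, hP, hn, hval⟩ := Q.ram v hod
      have hTP : T = {P} := by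
        ext R
        rw [hT, hP, Finset.mem_singleton]
      have hPv := (hP P).2 rfl
      rw [hTP, Finset.prod_singleton]
      rcases qq_or hd v with h | ⟨h, -⟩
      · have L1 := RS P hPv hn (sg_same hPv hn h)
        refine key L1 (R1 rfl) (R2 (sg_od (h.mul_od hod))) ?_
        rw [pE_zero, mul_one]
      · have hur2 : Ur v (d * Q.e) := Od.mul h2 h hod
        have s3 : sg P (algebraMap F F' d) = sg v (d * Q.e) := by
          rw [← sg_same hPv hn hur2, map_mul, ← Q.hs, mul_comm, sg_sq_mul Q.s_ne]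
        have L1 := RS P hPv hn s3
        refine key L1 (R1 (sg_od h)) (R2 rfl) ?_
        rw [pE_zero, one_mul]

theorem qbc (h : Loc F i D) {d : F} (hd : LD F D d) (he : LD F D Q.e) :
    LCW F' (V (algebraMap (𝓞 F) (𝓞 F') D) (algebraMap F F' d)) =
      LCW F (V D d) * LCW F (V D (d * Q.e)) := by
  classical
  rw [ArithmeticFunction.IsMultiplicative.eq_iff_eq_on_prime_powers _
    (isMultiplicative_LCW F' _) _ ((isMultiplicative_LCW F _).mul (isMultiplicative_LCW F _))]
  intro p i hp
  rw [← coeff_loc, ← coeff_loc]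
  congr 1
  rw [loc_mul hp, loc_LCW, loc_LCW, loc_LCW,
    loc_LFunctionW F' _ hp (u6_S F' hp) (fun v hv => (u6_mem_S F' hp v).2 hv),
    loc_LFunctionW F (V D d) hp (u6_S F hp) (fun v hv => (u6_mem_S F hp v).2 hv),
    loc_LFunctionW F (V D (d * Q.e)) hp (u6_S F hp)
      (fun v hv => (u6_mem_S F hp v).2 hv),
    map_prod, map_prod, map_prod, ← Finset.prod_mul_distrib,
    ← Finset.prod_fiberwise_of_maps_to (c7_maps (F := F) hp)]
  refine Finset.prod_congr rfl fun v hv => ?_
  exact qbc_local Q h hd he v hp (u6_d_pos hp v hv) (u6_d_spec hp v hv) _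
    (c7_filter hp v hv)

end

theorem LCW_bij {F F' : Type} [Field F] [NumberField F] [Field F'] [NumberField F'] [Algebra F F']
    {i D : 𝓞 F} (hb : Function.Bijective (algebraMap F F')) (h : Loc F i D) {d : F} (hd : LD F D d) :
    LCW F' (V (algebraMap (𝓞 F) (𝓞 F') D) (algebraMap F F' d)) = LCW F (V D d) := by
  classical
  have hb' : Function.Bijective (algebraMap (𝓞 F) (𝓞 F')) := c5_bij hb
  let e : 𝓞 F ≃+* 𝓞 F' := RingEquiv.ofBijective (algebraMap (𝓞 F) (𝓞 F')) hb'
  have hmap : ∀ (v : HeightOneSpectrum (𝓞 F)) (P : HeightOneSpectrum (𝓞 F')),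
      P.asIdeal.comap (algebraMap (𝓞 F) (𝓞 F')) = v.asIdeal →
      P.asIdeal = v.asIdeal.map (algebraMap (𝓞 F) (𝓞 F')) := by
    intro v P hP
    rw [← hP, Ideal.map_comap_of_surjective _ hb'.2]
  have hn : ∀ (v : HeightOneSpectrum (𝓞 F)) (P : HeightOneSpectrum (𝓞 F')),
      P.asIdeal.comap (algebraMap (𝓞 F) (𝓞 F')) = v.asIdeal →
      absNorm P.asIdeal = absNorm v.asIdeal := by
    intro v P hP
    rw [Ideal.absNorm_apply, Ideal.absNorm_apply, Submodule.cardQuot_apply,
      Submodule.cardQuot_apply]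
    exact (Nat.card_congr (Ideal.quotientEquiv v.asIdeal P.asIdeal e (hmap v P hP)).toEquiv).symm
  have hval : ∀ (v : HeightOneSpectrum (𝓞 F)) (P : HeightOneSpectrum (𝓞 F')),
      P.asIdeal.comap (algebraMap (𝓞 F) (𝓞 F')) = v.asIdeal →
      ∀ x : F, P.valuation F' (algebraMap F F' x) = v.valuation F x := by
    intro v P hP x
    refine val_of_unram hP (fun hle => ?_) x
    rw [← hmap v P hP] at hle
    have h1 : P.asIdeal ^ 2 < P.asIdeal := by
      have := Ideal.pow_right_strictAnti P.asIdeal P.ne_bot P.isPrime.ne_top (by norm_num : 1 < 2)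
      simpa using this
    exact absurd hle (not_le_of_gt h1)
  have h' := Loc.bij hb h
  have hd' := LD.bij hb hd
  rw [ArithmeticFunction.IsMultiplicative.eq_iff_eq_on_prime_powers _
    (isMultiplicative_LCW F' _) _ (isMultiplicative_LCW F _)]
  intro p j hp
  rw [← coeff_loc, ← coeff_loc]
  congr 1
  rw [loc_LCW, loc_LCW,
    loc_LFunctionW F' _ hp (u6_S F' hp) (fun v hv => (u6_mem_S F' hp v).2 hv),
    loc_LFunctionW F (V D d) hp (u6_S F hp) (fun v hv => (u6_mem_S F hp v).2 hv),
    map_prod, map_prod, ← Finset.prod_fiberwise_of_maps_to (c7_maps (F := F) hp)]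
  refine Finset.prod_congr rfl fun v hv => ?_
  have hf := u6_d_pos hp v hv
  have hvf := u6_d_spec hp v hv
  generalize hT : (u6_S F' hp).filter (fun P => u6_below (L := F) P = v) = T
  have hT' : ∀ P, P ∈ T ↔ P.asIdeal.comap (algebraMap (𝓞 F) (𝓞 F')) = v.asIdeal := by
    intro P
    rw [← hT]
    exact c7_filter hp v hv P
  obtain ⟨P, hPv⟩ := exists_above F F' v
  have hTP : T = {P} := by
    ext R
    rw [hT', Finset.mem_singleton]
    constructor
    · intro hR
      exact HeightOneSpectrum.ext ((hmap v R hR).trans (hmap v P hPv).symm)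
    · rintro rfl
      exact hPv
  rw [hTP, Finset.prod_singleton]
  by_cases hbad : Bad i D v
  · rw [qq_one h v hp hbad hd, qq_one h' P hp ((qq_bad h hPv).2 hbad) hd']
  · obtain ⟨a, ha⟩ := exists_tr h v hbad
    obtain ⟨A, B, hAB, hAB2⟩ := exists_AB a (p ^ u6_d p v)
    have hAB3 : A * B = (p : ℂ) ^ u6_d p v := by
      rw [hAB2]
      push_cast
      rfl
    have hs : sg P (algebraMap F F' d) = sg v d := by
      rcases qq_or hd v with h1 | ⟨h1, -⟩
      · exact sg_same hPv (hn v P hPv) h1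
      · rw [sg_od h1, sg_od (Od.up hPv (hval v P hPv) h1)]
    exact u6_inv (qq_loc h' P hp hf ((hn v P hPv).trans hvf) (fun hh => hbad ((qq_bad h hPv).1 hh)) hd'
      (tr_same hPv (hn v P hPv) ha) hAB hAB3 hs) (qq_loc h v hp hf hvf hbad hd ha hAB hAB3 rfl)

end QTF
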