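import Pool.Agent.QTF.T1

/-!
# [QTF-T2] quadratic twists by products of primes modulo which `D` is not a square

Induction over `T` with `good_insert` (T1); the current `D' = D (∏ q)²` has the same symbols (`PI.sy_mul_sq`).
-/

set_option autoImplicit false

open scoped Classical

namespace QTF

open PI

theorem good_union {s t : ℕ} {S : Finset Gi} {a : Gi → ℕ} (h : QT.Good s t S a) (T : Finset Gi)
    (hT : ∀ q ∈ T, Prime q ∧ Prim q) (hd : Disjoint S T)
    (hs : ∀ q ∈ T, sy (QT.Dd s t S a) q = 1) :
    ∃ a' : Gi → ℕ, QT.Good s t (S ∪ T) a' ∧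
      QT.Dd s t (S ∪ T) a' = QT.Dd s t S a * (∏ q ∈ T, q) ^ 2 := by
  induction T using Finset.induction_on with
  | empty =>
    refine ⟨a, ?_, ?_⟩
    · rw [Finset.union_empty]
      exact h
    · rw [Finset.union_empty, Finset.prod_empty, one_pow, mul_one]
  | insert q T hq ih =>
    obtain ⟨a', h1, h2⟩ := ih (fun p hp => hT p (Finset.mem_insert_of_mem hp))
      (hd.mono_right (Finset.subset_insert _ _)) (fun p hp => hs p (Finset.mem_insert_of_mem hp))
    obtain ⟨hqp, hqP⟩ := hT q (Finset.mem_insert_self _ _)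
    have hqS : q ∉ S ∪ T := by
      rw [Finset.mem_union]
      rintro (h3 | h3)
      · exact (Finset.disjoint_left.1 hd h3) (Finset.mem_insert_self _ _)
      · exact hq h3
    have hsy : sy (QT.Dd s t (S ∪ T) a') q = 1 := by
      rw [h2, sy_mul_sq hqp hqP, hs q (Finset.mem_insert_self _ _)]
      intro h3
      obtain ⟨p, hp, h4⟩ := (hqp.dvd_finsetProd_iff _).1 h3
      obtain ⟨hpp, hpP⟩ := hT p (Finset.mem_insert_of_mem hp)
      exact prime_ndvd hpp hpP hqp hqP (fun e => hq (e ▸ hp)) h4
    refine ⟨ap a' q, ?_, ?_⟩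
    · rw [Finset.union_insert]
      exact good_insert hqp hqP hqS h1 hsy
    · rw [Finset.union_insert, Dd_insert hqS, h2, Finset.prod_insert hq]
      ring

end QTF
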