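import Pool.Agent.QTF.L1
import Pool.Agent.TU.B2
import Pool.Agent.TK.B1

/-!
# [QTF-B] finiteness of the groups of points

`finite_up`: model `TU.finite_up` (TU/B1.lean): `V D d` over `F' = F(√e)`: for a point `P`, `P + σ P` is a point over `F` and `P - σ P` is a point `(x, y)` with `σ x = x`, `σ y = -y`, which corresponds to a point of the twist `V D (d e)`: `x = a`, `y = b s`, `s² = e`: `(e a, e² b)` is on `V D (d e)`:
`e⁴ b² = e³ (b² e) = e³ (a³ - D d² a) = (e a)³ - D d² e² (e a)`. `finite_bij`: as in TU/B1.lean.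
-/

set_option autoImplicit false

open NumberField Ideal IsDedekindDomain ArithmeticFunction
open CM27 CMT GE TR TT TK TU
open scoped Classical

namespace QTF

section qb
variable {F F' : Type} [Field F] [NumberField F] [Field F'] [NumberField F'] [Algebra F F']

theorem qb_eqn (D : 𝓞 F) (d x y : F) :
    (V D d).toAffine.Equation x y ↔ y ^ 2 = x ^ 3 - (D : F) * d ^ 2 * x :=
  QTS.W_equation _ _ _

theorem qb_nsg {D : 𝓞 F} (hD : D ≠ 0) {d : F} (hd : d ≠ 0) (x y : F) :
    (V D d).toAffine.Nonsingular x y ↔ y ^ 2 = x ^ 3 - (D : F) * d ^ 2 * x :=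
  QTS.W_nonsingular two_ne_zero (mul_ne_zero (RingOfIntegers.coe_ne_zero_iff.2 hD) (pow_ne_zero 2 hd)) x y

theorem qb_ngY (D : 𝓞 F) (d x y : F) : (V D d).toAffine.negY x y = -y := by
  unfold WeierstrassCurve.Affine.negY
  simp only [V, QT.W]
  ring

theorem qb_bc (D : 𝓞 F) (d : F) :
    V (algebraMap (𝓞 F) (𝓞 F') D) (algebraMap F F' d) = (V D d).baseChange F' :=
  (V_map D d).symm

theorem qb_coe (D : 𝓞 F) : ((algebraMap (𝓞 F) (𝓞 F') D : 𝓞 F') : F') = algebraMap F F' (D : F) :=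
  (IsScalarTower.algebraMap_apply (𝓞 F) (𝓞 F') F' D).symm.trans
    (IsScalarTower.algebraMap_apply (𝓞 F) F F' D)

/-- finitely many points with coordinates in `F` -/
theorem qb_dsc {W : WeierstrassCurve F} (h : Finite W.toAffine.Point) :
    {xy : F' × F' | (W.baseChange F').toAffine.Nonsingular xy.1 xy.2 ∧
      (∃ a, xy.1 = algebraMap F F' a) ∧ ∃ b, xy.2 = algebraMap F F' b}.Finite := by
  refine ((b1_coords h).image (fun ab : F × F => (algebraMap F F' ab.1, algebraMap F F' ab.2))).subset ?_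
  rintro ⟨x, y⟩ ⟨h1, ⟨a, ha⟩, ⟨b, hb⟩⟩
  simp only at h1 ha hb
  subst ha hb
  refine ⟨(a, b), ?_, rfl⟩
  exact (W.toAffine.map_nonsingular (algebraMap F F').injective a b).1 h1

theorem qb_ngf (Q : QS F F') {D : 𝓞 F} (hD : D ≠ 0)
    {d : F} (hd : d ≠ 0) (h : Finite (V D (d * Q.e)).toAffine.Point) :
    {xy : F' × F' | (V (algebraMap (𝓞 F) (𝓞 F') D) (algebraMap F F' d)).toAffine.Equation xy.1 xy.2 ∧
      Q.cj xy.1 = xy.1 ∧ Q.cj xy.2 = -xy.2}.Finite := by
  have he := Q.e_ne
  refine ((b1_coords h).image (fun XY : F × F => (algebraMap F F' (XY.1 / Q.e),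
    algebraMap F F' (XY.2 / Q.e ^ 2) * Q.s))).subset ?_
  rintro ⟨x, y⟩ ⟨h1, h2, h3⟩
  simp only at h1 h2 h3
  obtain ⟨a, ha⟩ := Q.mem_of_cj_eq h2
  obtain ⟨b, hb⟩ := Q.mem_of_cj_neg h3
  rw [qb_eqn, qb_coe] at h1
  have hs := Q.hs
  have h5 : algebraMap F F' (b ^ 2 * Q.e) = algebraMap F F' (a ^ 3 - (D : F) * d ^ 2 * a) := by
    simp only [map_sub, map_mul, map_pow]
    rw [← ha, ← hs]
    rw [hb] at h1
    linear_combination h1
  have h6 := (algebraMap F F').injective h5
  refine ⟨(Q.e * a, Q.e ^ 2 * b), ?_, ?_⟩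
  · show (V D (d * Q.e)).toAffine.Nonsingular _ _
    rw [qb_nsg hD (mul_ne_zero hd he)]
    linear_combination (Q.e ^ 3) * h6
  · simp only
    rw [mul_div_cancel_left₀ a he, mul_div_cancel_left₀ b (pow_ne_zero 2 he), ← ha, ← hb]

end qb

section
variable {F F' : Type} [Field F] [NumberField F] [Field F'] [NumberField F'] [Algebra F F']
  {D : 𝓞 F} (hD : D ≠ 0)
include hD

theorem finite_up (Q : QS F F') {d : F} (hd : d ≠ 0) (h1 : Finite (V D d).toAffine.Point)
    (h2 : Finite (V D (d * Q.e)).toAffine.Point) :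
    Finite (V (algebraMap (𝓞 F) (𝓞 F') D) (algebraMap F F' d)).toAffine.Point := by
  have hW := qb_bc (F' := F') D d
  have hneg := qb_ngf Q hD hd h2
  have hnegY : ∀ x y : F', ((V D d).baseChange F').toAffine.negY x y = -y := by
    intro x y
    rw [← hW, qb_ngY]
  have heq : ∀ x y : F', ((V D d).baseChange F').toAffine.Equation x y ↔
      (V (algebraMap (𝓞 F) (𝓞 F') D) (algebraMap F F' d)).toAffine.Equation x y := by
    intro x y
    rw [hW]
  rw [hW]
  let G := ((V D d).baseChange F').toAffine.Point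
  let σ : G →+ G := WeierstrassCurve.Affine.Point.map (W' := (V D d).toAffine) (S := F) Q.cj
  have hσ : ∀ (x y : F') (h : ((V D d).baseChange F').toAffine.Nonsingular x y),
      ∃ h', σ (.some x y h) = .some (Q.cj x) (Q.cj y) h' := by
    intro x y h
    exact ⟨_, rfl⟩
  have hσσ : ∀ P : G, σ (σ P) = P := by
    rintro (_ | ⟨x, y, h⟩)
    · rfl
    · obtain ⟨h', e⟩ := hσ x y h
      rw [e]
      obtain ⟨h'', e'⟩ := hσ _ _ h'
      rw [e']
      rw [WeierstrassCurve.Affine.Point.some.injEq]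
      exact ⟨Q.cj_cj x, Q.cj_cj y⟩
  -- fixed points
  have hfix : {R : G | σ R = R}.Finite := by
    refine b1_fin (W := (V D d).baseChange F') _ _ (qb_dsc (F' := F') h1) ?_
    intro x y hxy hR
    obtain ⟨h', e⟩ := hσ x y hxy
    have h3 : σ (.some x y hxy) = .some x y hxy := hR
    rw [e, WeierstrassCurve.Affine.Point.some.injEq] at h3
    exact ⟨hxy, Q.mem_of_cj_eq h3.1, Q.mem_of_cj_eq h3.2⟩
  have hanti : {R : G | σ R = -R}.Finite := by
    refine b1_fin (W := (V D d).baseChange F') _ _ hneg ?_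
    intro x y hxy hR
    obtain ⟨h', e⟩ := hσ x y hxy
    have h3 : σ (.some x y hxy) = -(.some x y hxy) := hR
    rw [e, WeierstrassCurve.Affine.Point.neg_some, WeierstrassCurve.Affine.Point.some.injEq,
      hnegY] at h3
    exact ⟨(heq x y).1 hxy.1, h3.1, h3.2⟩
  -- the 2-torsion
  have htor : {R : G | R + R = 0}.Finite := by
    set E : F' := ((algebraMap (𝓞 F) (𝓞 F') D : 𝓞 F') : F') * (algebraMap F F' d) ^ 2 with hE
    let p : Polynomial F' := Polynomial.C 4 * Polynomial.X ^ 3 +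
      (Polynomial.C 0 * Polynomial.X ^ 2 +
        (Polynomial.C (-4 * E) * Polynomial.X + Polynomial.C 0))
    have hp : p ≠ 0 := b1_cubic _ _ _
    refine b1_fin (W := (V D d).baseChange F') _
      ((fun x : F' => (x, (0 : F'))) '' {x | p.IsRoot x}) ((Polynomial.finite_setOfPred_isRoot hp).image _) ?_
    intro x y hxy hR
    have h3 : (.some x y hxy : G) + .some x y hxy = 0 := hR
    rw [add_eq_zero_iff_eq_neg, WeierstrassCurve.Affine.Point.neg_some,
      WeierstrassCurve.Affine.Point.some.injEq, hnegY] at h3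
    have h4 := h3.2
    have h5 := (heq x y).1 hxy.1
    rw [qb_eqn, ← hE] at h5
    have hy : y = 0 := by linear_combination (1 / 2 : F') * h4
    refine ⟨x, ?_, ?_⟩
    · show p.IsRoot x
      rw [Polynomial.IsRoot.def]
      simp only [p, Polynomial.eval_add, Polynomial.eval_mul, Polynomial.eval_pow,
        Polynomial.eval_X, Polynomial.eval_C]
      rw [hy] at h5
      linear_combination (-4 : F') * h5
    · exact Prod.ext rfl hy.symm
  -- doubling
  have hsum : {R : G | ∃ A B : G, σ A = A ∧ σ B = -B ∧ A + B = R}.Finite := by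
    refine ((hfix.prod hanti).image (fun AB : G × G => AB.1 + AB.2)).subset ?_
    rintro R ⟨A, B, hA, hB, rfl⟩
    exact ⟨(A, B), ⟨hA, hB⟩, rfl⟩
  have hpre : ((fun P : G => P + P) ⁻¹' {R : G | ∃ A B : G, σ A = A ∧ σ B = -B ∧ A + B = R}).Finite := by
    refine hsum.preimage' fun R _ => ?_
    rcases ((fun P : G => P + P) ⁻¹' {R}).eq_empty_or_nonempty with h0 | ⟨P₀, hP₀⟩
    · rw [h0]
      exact Set.finite_empty
    · refine (htor.image (fun S : G => P₀ + S)).subset ?_
      intro P hP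
      have h3 : P + P = R := hP
      have h4 : P₀ + P₀ = R := hP₀
      refine ⟨P - P₀, ?_, add_sub_cancel P₀ P⟩
      show P - P₀ + (P - P₀) = 0
      rw [show P - P₀ + (P - P₀) = (P + P) - (P₀ + P₀) by abel, h3, h4, sub_self]
  have huniv : ((fun P : G => P + P) ⁻¹' {R : G | ∃ A B : G, σ A = A ∧ σ B = -B ∧ A + B = R}) =
      Set.univ := by
    rw [Set.eq_univ_iff_forall]
    intro P
    refine ⟨P + σ P, P - σ P, ?_, ?_, ?_⟩
    · rw [map_add, hσσ, add_comm]
    · rw [map_sub, hσσ, neg_sub]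
    · show P + σ P + (P - σ P) = P + P
      abel
  rw [huniv] at hpre
  exact Set.finite_univ_iff.1 hpre

omit hD in
theorem finite_bij (hb : Function.Bijective (algebraMap F F')) {d : F}
    (h : Finite (V D d).toAffine.Point) :
    Finite (V (algebraMap (𝓞 F) (𝓞 F') D) (algebraMap F F' d)).toAffine.Point := by
  rw [qb_bc]
  have h1 := qb_dsc (F' := F') h
  have h2 : (Set.univ : Set ((V D d).baseChange F').toAffine.Point).Finite := by
    refine b1_fin (W := (V D d).baseChange F') _ _ h1 ?_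
    intro x y hxy _
    obtain ⟨a, ha⟩ := hb.2 x
    obtain ⟨b, hb'⟩ := hb.2 y
    exact ⟨hxy, ⟨a, ha.symm⟩, ⟨b, hb'.symm⟩⟩
  exact Set.finite_univ_iff.1 h2

end

end QTF
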