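import Pool.Agent.QTF.Q
import Pool.Agent.QTF.B
import Pool.Agent.TU.K2
import Pool.Agent.TU.K3
import Pool.Agent.TU.K4
import Pool.Agent.TU.K4b

/-!
# [QTF-K] elementary abelian extensions
-/

set_option autoImplicit false

open NumberField Ideal IsDedekindDomain ArithmeticFunction
open CM27 CMT GE TR TT TK TU
open scoped Classical

namespace QTF

section
variable {L : Type} [Field L] [NumberField L] {D : 𝓞 L}

theorem DN.mul {d d' : L} (h : DN D d) (h' : DN D d') : DN D (d * d') := by
  refine ⟨mul_ne_zero h.1 h'.1, fun v => ?_⟩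
  rcases h.2 v with h1 | h1
  · rcases h'.2 v with h2 | h2
    · exact Or.inl (h1.mul h2)
    · exact Or.inr h2
  · exact Or.inr h1

theorem DN.one : DN D (1 : L) := ⟨one_ne_zero, fun _ => Or.inl ur_one⟩

end

section
variable {L F K : Type} [Field L] [NumberField L] [Field F] [NumberField F] [Field K] [NumberField K]
  [Algebra L F] [Algebra F K] [Algebra L K] [IsScalarTower L F K] {i D : 𝓞 L}

/-- the induction step -/
theorem TP.step (hT : TP L F i D) (Q : QS F K) {e : L} (he : DN D e) (hQ : Q.e = algebraMap L F e) :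
    TP L K i D := by
  have hQe : LD F (algebraMap (𝓞 L) (𝓞 F) D) Q.e := by
    rw [hQ]
    exact hT.ld e he
  have hmul : ∀ d : L, algebraMap L F (d * e) = algebraMap L F d * Q.e := fun d => by
    rw [map_mul, hQ]
  have hDF : algebraMap (𝓞 L) (𝓞 F) D ≠ 0 := hT.loc.ne
  refine ⟨?_, fun d hd => ?_, fun d hd => ?_, fun d hd => ?_⟩
  · rw [algO (F := F) (K := K) i, algO (F := F) (K := K) D]
    exact Loc.up Q hT.loc hQe
  · rw [IsScalarTower.algebraMap_apply L F K, algO (F := F) (K := K) D]
    exact LD.up Q (hT.ld d hd)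
  · rw [IsScalarTower.algebraMap_apply L F K, algO (F := F) (K := K) D]
    have h1 := hT.an d hd
    have h2 := hT.an (d * e) (hd.mul he)
    rw [hmul] at h2
    exact An.mul h1 h2 (qbc Q hT.loc (hT.ld d hd) hQe)
  · rw [IsScalarTower.algebraMap_apply L F K, algO (F := F) (K := K) D]
    have h1 := hT.fin d hd
    have h2 := hT.fin (d * e) (hd.mul he)
    rw [hmul] at h2
    exact finite_up hDF Q (hT.ld d hd).ne h1 h2

/-- isomorphic fields -/
theorem TP.bij (hT : TP L F i D) (hb : Function.Bijective (algebraMap F K)) : TP L K i D := by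
  refine ⟨?_, fun d hd => ?_, fun d hd => ?_, fun d hd => ?_⟩
  · rw [algO (F := F) (K := K) i, algO (F := F) (K := K) D]
    exact Loc.bij hb hT.loc
  · rw [IsScalarTower.algebraMap_apply L F K, algO (F := F) (K := K) D]
    exact LD.bij hb (hT.ld d hd)
  · rw [IsScalarTower.algebraMap_apply L F K, algO (F := F) (K := K) D]
    exact An.congr (hT.an d hd) (LCW_bij hb hT.loc (hT.ld d hd))
  · rw [IsScalarTower.algebraMap_apply L F K, algO (F := F) (K := K) D]
    exact finite_bij hb (hT.fin d hd)

end

theorem tower_aux (L : Type) [Field L] [NumberField L] {i D : 𝓞 L} (h0 : TP L L i D) :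
    ∀ (n : ℕ) (K : Type) [Field K] [NumberField K] [Algebra L K] (e : Fin n → L) (s : Fin n → K),
      (∀ j, DN D (e j)) → (∀ j, s j ^ 2 = algebraMap L K (e j)) →
      IntermediateField.adjoin L (Set.range s) = ⊤ → TP L K i D := by
  intro n
  induction n with
  | zero =>
    intro K _ _ _ e s _ _ htop
    have hr : Set.range s = ∅ := by
      ext z
      simp
    rw [hr] at htop
    exact h0.bij (bijective_of_adjoin_empty htop)
  | succ n ih =>
    intro K _ _ _ e s he hs htop
    set S₀ : Set K := Set.range (fun i : Fin n => s i.castSucc) with hS₀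
    have hsub := IntermediateField.subset_adjoin L S₀
    let s' : Fin n → IntermediateField.adjoin L S₀ := fun i =>
      ⟨s i.castSucc, hsub ⟨i, rfl⟩⟩
    have hset : {y : IntermediateField.adjoin L S₀ | (y : K) ∈ S₀} = Set.range s' := by
      ext y
      constructor
      · rintro ⟨i, hi⟩
        exact ⟨i, Subtype.ext hi⟩
      · rintro ⟨i, hi⟩
        exact ⟨i, congrArg Subtype.val hi⟩
    have htop' : IntermediateField.adjoin L (Set.range s') = ⊤ := by
      rw [← hset]
      exact adjoin_self S₀
    have hT := ih (IntermediateField.adjoin L S₀) (fun i => e i.castSucc) s'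
      (fun i => he i.castSucc) (fun i => Subtype.ext (hs i.castSucc)) htop'
    have hins : Set.range s = insert (s (Fin.last n)) S₀ := by
      ext z
      constructor
      · rintro ⟨i, rfl⟩
        induction i using Fin.lastCases with
        | last => exact Or.inl rfl
        | cast i => exact Or.inr ⟨i, rfl⟩
      · rintro (h | ⟨i, hi⟩)
        · exact ⟨Fin.last n, h.symm⟩
        · exact ⟨i.castSucc, hi⟩
    rw [hins] at htop
    have hstep := adjoin_step S₀ (s (Fin.last n)) htop
    rcases gen_or (IntermediateField.adjoin L S₀) K (s (Fin.last n))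
      ⟨algebraMap L (IntermediateField.adjoin L S₀) (e (Fin.last n)), hs (Fin.last n)⟩ hstep with hb | ⟨h1, h2⟩
    · exact hT.bij hb
    · let Q : QS (IntermediateField.adjoin L S₀) K :=
        { e := algebraMap L (IntermediateField.adjoin L S₀) (e (Fin.last n))
          s := s (Fin.last n)
          hs := hs (Fin.last n)
          gen := h2
          ns := h1 }
      exact hT.step Q (he (Fin.last n)) rfl

/-- square roots in extensions which are unramified outside of the nice primes -/
theorem dn_of_sqrt {L : Type} [Field L] [NumberField L] {D : 𝓞 L} (K : Type) [Field K] [NumberField K]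
    [Algebra L K] (hram : ∀ (v : HeightOneSpectrum (𝓞 L)) (P : HeightOneSpectrum (𝓞 K)),
      v.asIdeal.map (algebraMap (𝓞 L) (𝓞 K)) ≤ P.asIdeal ^ 2 → NP D v) {x : K} (hx0 : x ≠ 0) {a : L}
    (hx : x ^ 2 = algebraMap L K a) : DN D a := by
  have ha : a ≠ 0 := by
    rintro rfl
    rw [_root_.map_zero] at hx
    exact hx0 (pow_eq_zero_iff two_ne_zero |>.1 hx)
  refine ⟨ha, fun v => ?_⟩
  obtain ⟨P, hP⟩ := exists_above L K v
  by_cases h : v.asIdeal.map (algebraMap (𝓞 L) (𝓞 K)) ≤ P.asIdeal ^ 2
  · exact Or.inr (hram v P h)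
  · exact Or.inl (ur_of_sqrt (fun x => val_of_unram hP h x) ha hx)

/-- the tower -/
theorem tower (L : Type) [Field L] [NumberField L] {i D : 𝓞 L} (h0 : TP L L i D)
    (K : Type) [Field K] [NumberField K] [Algebra L K]
    [IsGalois L K] (h2 : ∀ σ : K ≃ₐ[L] K, σ * σ = 1)
    (hram : ∀ (v : HeightOneSpectrum (𝓞 L)) (P : HeightOneSpectrum (𝓞 K)),
      v.asIdeal.map (algebraMap (𝓞 L) (𝓞 K)) ≤ P.asIdeal ^ 2 → NP D v) : TP L K i D := by
  have hfin : FiniteDimensional L K := Module.Finite.of_restrictScalars_finite ℚ L K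
  have hT := kummer L K h2
  set T : Set K := {x : K | ∃ a : L, x ^ 2 = algebraMap L K a} with hTdef
  have hT' : IntermediateField.adjoin L (insert 1 (T \ {0})) = ⊤ := by
    rw [eq_top_iff, ← hT, IntermediateField.adjoin_le_iff]
    intro x hx
    by_cases h0 : x = 0
    · rw [h0]
      exact zero_mem _
    · exact IntermediateField.subset_adjoin L _ (Or.inr ⟨hx, h0⟩)
  obtain ⟨n, s, hs, htop⟩ := exists_gens L K _ 1 hT'
  have htop2 : IntermediateField.adjoin L (Set.range s) = ⊤ := by
    rw [eq_top_iff, ← htop, IntermediateField.adjoin_le_iff]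
    rintro x (rfl | hx)
    · exact one_mem _
    · exact IntermediateField.subset_adjoin L _ hx
  choose a ha using fun j => (hs j).1
  exact tower_aux L h0 n K a s (fun j => dn_of_sqrt K hram (hs j).2 (ha j)) ha htop2

end QTF
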