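import Pool.Agent.QT.Base
import Pool.Agent.TU.Q5
import Pool.Agent.TK.T1

/-!
# [QTF] the curves `y² = x³ - D x` over the elementary abelian `2`-extensions of `ℚ(i)`: definitions

`F` a number field with `i ∈ F`, `D ∈ 𝓞_F`, `d ∈ F`: `V D d : y² = x³ - D d² x`, the quadratic twist of `y² = x³ - D x` by `d`.
The predicates `Ur v d` (`F(√d)` is unramified at `v`), `Od v d`, `Sq v d`, the sign `sg v d` and the quadratic extensions `QS F F'` are in
`TU/G0.lean`, their properties in `TU/G1.lean`, `TU/G2.lean`, `TU/Q3.lean`.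
-/

set_option autoImplicit false

open NumberField Ideal IsDedekindDomain ArithmeticFunction
open CM27 CMT GE TR TT TK TU
open scoped Classical

namespace QTF

/-- `y² = x³ - D d² x` -/
def V {F : Type} [Field F] [NumberField F] (D : 𝓞 F) (d : F) : WeierstrassCurve F :=
  QT.W ((D : F) * d ^ 2)

/-- `y² + y = x³ + x² + m` -/
def Wa {k : Type} [Field k] (m : k) : WeierstrassCurve k := ⟨0, 1, 1, 0, m⟩

/-- the trace of Frobenius of a curve over a finite field -/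
noncomputable def ct (k : Type) [Field k] (W : WeierstrassCurve k) : ℤ :=
  (Nat.card k : ℤ) + 1 - Nat.card W.toAffine.Point

/-- additive reduction above `2` -/
def Bad2 {R : Type} [CommRing R] (i D : R) : Prop :=
  (∃ (u : R) (n : ℕ), D = (1 + i) ^ n * u ∧ 1 ≤ n ∧ n ≤ 3 ∧ (2 : R) ∣ u ^ 2 - 1) ∨
    (2 : R) ∣ D - i ∨ (4 : R) ∣ D - (3 + 2 * i) ∨ (8 : R) ∣ D - (5 + 2 * i) ∨ (8 : R) ∣ D - (5 - 2 * i)

/-- good reduction above `2`: `D = 1 ± 2i + 8 m` -/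
def Spec {R : Type} [CommRing R] (i D m : R) : Prop :=
  D = 1 + 2 * i + 8 * m ∨ D = 1 - 2 * i + 8 * m

/-- the local conditions on `F` and `D`: `F` is unramified above `2` and above `D`, `D` has valuation at most `3` at the odd primes -/
structure Loc (F : Type) [Field F] [NumberField F] (i D : 𝓞 F) : Prop where
  hi : i ^ 2 = -1
  ne : D ≠ 0
  la : ∀ w : HeightOneSpectrum (𝓞 F), 1 + i ∈ w.asIdeal → 1 + i ∉ w.asIdeal ^ 2
  odd : ∀ w : HeightOneSpectrum (𝓞 F), (2 : 𝓞 F) ∉ w.asIdeal → D ∈ w.asIdeal →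
    ∃ (p u : 𝓞 F) (n : ℕ), D = p ^ n * u ∧ p ∈ w.asIdeal ∧ p ∉ w.asIdeal ^ 2 ∧ u ∉ w.asIdeal ∧ 1 ≤ n ∧ n ≤ 3
  two : Bad2 i D ∨ ∃ m, Spec i D m

/-- `F(√d)` is unramified above `2` and above `D` -/
structure LD (F : Type) [Field F] [NumberField F] (D : 𝓞 F) (d : F) : Prop where
  ne : d ≠ 0
  ur : ∀ w : HeightOneSpectrum (𝓞 F), (2 : 𝓞 F) ∈ w.asIdeal ∨ D ∈ w.asIdeal → Ur w d

/-- the reduction of `y² = x³ - D x` is bad at `w` -/
def Bad {F : Type} [Field F] [NumberField F] (i D : 𝓞 F) (w : HeightOneSpectrum (𝓞 F)) : Prop :=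
  D ∈ w.asIdeal ∨ ((2 : 𝓞 F) ∈ w.asIdeal ∧ Bad2 i D)

/-- `a` is the trace of Frobenius at `w` of the curve `y² = x³ - D x`, which has good reduction at `w` -/
def IsTr {F : Type} [Field F] [NumberField F] (i D : 𝓞 F) (w : HeightOneSpectrum (𝓞 F)) (a : ℤ) : Prop :=
  ((2 : 𝓞 F) ∉ w.asIdeal ∧ D ∉ w.asIdeal ∧ ∀ (k : Type) [Field k] [Finite k] (φ : 𝓞 F →+* k),
      Function.Surjective φ → (∀ x, φ x = 0 ↔ x ∈ w.asIdeal) → a = ct k (QT.W (φ D))) ∨
    ((2 : 𝓞 F) ∈ w.asIdeal ∧ ∃ m, Spec i D m ∧ ∀ (k : Type) [Field k] [Finite k] (φ : 𝓞 F →+* k),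
      Function.Surjective φ → (∀ x, φ x = 0 ↔ x ∈ w.asIdeal) → a = ct k (Wa (φ m)))

/-- the prime `v` is nice for `D`: it does not divide `2 D`, and `D` is not a square modulo `v` -/
def NP {F : Type} [Field F] [NumberField F] (D : 𝓞 F) (v : HeightOneSpectrum (𝓞 F)) : Prop :=
  (2 : 𝓞 F) ∉ v.asIdeal ∧ D ∉ v.asIdeal ∧ ∀ x : 𝓞 F, x ^ 2 - D ∉ v.asIdeal

/-- `F(√d)` is unramified outside of the nice primes -/
def DN {F : Type} [Field F] [NumberField F] (D : 𝓞 F) (d : F) : Prop :=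
  d ≠ 0 ∧ ∀ v : HeightOneSpectrum (𝓞 F), Ur v d ∨ NP D v

/-- what is proved by induction for the extensions `F` of `L` -/
structure TP (L F : Type) [Field L] [NumberField L] [Field F] [NumberField F] [Algebra L F]
    (i D : 𝓞 L) : Prop where
  loc : Loc F (algebraMap (𝓞 L) (𝓞 F) i) (algebraMap (𝓞 L) (𝓞 F) D)
  ld : ∀ d : L, DN D d → LD F (algebraMap (𝓞 L) (𝓞 F) D) (algebraMap L F d)
  an : ∀ d : L, DN D d → An F (V (algebraMap (𝓞 L) (𝓞 F) D) (algebraMap L F d))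
  fin : ∀ d : L, DN D d →
    Finite (V (algebraMap (𝓞 L) (𝓞 F) D) (algebraMap L F d)).toAffine.Point

end QTF
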