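import Pool.Agent.QTF.T1
import Pool.Agent.QTF.Defs
import Pool.Agent.QT.ED
import Pool.Agent.PI.S1

/-!
# [QTF-N] the elements `d` of `ℚ(i)` such that `ℚ(i, √d)` is unramified outside of the nice primes

`eG : ℤ[i] ≃+* 𝓞_{ℚ(i)}`. `exists_sqfree`: `d = a/b = (1/b)² (a b)`, `a b = y² e` with `e` squarefree (`ℤ[i]` is a unique factorisation domain: induction, or `e` of minimal norm among the `e` with `a b = y² e`).
`exists_rep`: a squarefree `e` is `i^s (1+i)^t ∏_{q ∈ T} q`, `s, t ∈ {0, 1}` up to squares (`-1 = i²`), `T` a finite set of primary primes: from `QT.exists_Dd` (QT/ED.lean: every element without fourth powers is `QT.Dd s t S a`; squarefree: all `a q = 1` and `t ≤ 1`; `QT.st q = ± q`) or directly.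
`exists_normal`: let `d = x² e`, `e = i^s (1+i)^t ∏ q`. At `v = (1+i)` (not nice because `2 ∈ v`): `Ur v e` (`TU.ur_sq_mul`): `IsSquare (v e)` (`TU.Ur.val`) gives `t = 0`. `s = 0`: otherwise `e = i ∏ q ≡ i mod 2` (`q` primary is `1 mod 2`) and `e = z² (c₁² + 4 c₂)`, `c₁² + 4 c₂ ∉ v`, so `z` is a `v`-unit, and
modulo `2` at `v`: squares of units are `1 mod 2` (`(1 + l y)² = 1 + 2 l y + 2 i y²`), so `i ≡ 1 mod 2` at `v`, `v(i - 1) = v(1 + i) > v(2)`: contradiction. At `v = (q)`, `q ∈ T`: `v(e) = 1` is no square, so `v` is nice: `D ∉ v` gives `¬ q ∣ D`, `x² - D ∉ v` for all `x` gives `sy D q = 1`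
(`PI.mem_iff`, `PI.sy`; `PI.prim_unique`: different primary primes generate different ideals).
-/

set_option autoImplicit false

open NumberField Ideal IsDedekindDomain
open scoped Classical

namespace QTF

open PI

/-- the square root of a squarefree decomposition in `ℤ[i]` -/
theorem n_sqfree_Gi (n : Gi) : n ≠ 0 → ∃ y e : Gi, y ≠ 0 ∧ Squarefree e ∧ n = y ^ 2 * e := by
  induction n using UniqueFactorizationMonoid.induction_on_prime with
  | h₁ => exact fun h0 => absurd rfl h0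
  | h₂ x hx =>
    intro _
    exact ⟨1, x, one_ne_zero, hx.squarefree, by rw [one_pow, one_mul]⟩
  | h₃ x q hx0 hq ih =>
    intro _
    obtain ⟨y, e, hy, he, rfl⟩ := ih hx0
    by_cases hqe : q ∣ e
    · obtain ⟨e', rfl⟩ := hqe
      refine ⟨q * y, e', mul_ne_zero hq.ne_zero hy, he.squarefree_of_dvd (dvd_mul_left e' q), ?_⟩
      ring
    · refine ⟨y, q * e, hy, ?_, by ring⟩
      rw [squarefree_mul_iff]
      refine ⟨?_, hq.irreducible.squarefree, he⟩
      intro c hc1 hc2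
      rcases (hq.irreducible.dvd_iff.1 hc1) with h | h
      · exact h
      · exact absurd (h.dvd.trans hc2) hqe

theorem exists_sqfree (d : KI) (hd : d ≠ 0) : ∃ (x : KI) (e : Gi), x ≠ 0 ∧ Squarefree e ∧
    d = x ^ 2 * ((eG e : 𝓞 KI) : KI) := by
  obtain ⟨a, b, hb, hab⟩ := IsFractionRing.div_surjective (A := 𝓞 KI) d
  have hb0 : b ≠ 0 := nonZeroDivisors.ne_zero hb
  have hbK : (b : KI) ≠ 0 := by
    intro h
    apply hb0
    exact_mod_cast h
  have ha0 : a ≠ 0 := by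
    rintro rfl
    apply hd
    rw [← hab, map_zero, zero_div]
  obtain ⟨n, hn⟩ := eG.surjective (a * b)
  have hn0 : n ≠ 0 := by
    rintro rfl
    rw [map_zero] at hn
    exact mul_ne_zero ha0 hb0 hn.symm
  obtain ⟨y, e, hy, he, hye⟩ := n_sqfree_Gi n hn0
  have hyK : ((eG y : 𝓞 KI) : KI) ≠ 0 := by
    intro h
    apply hy
    have h1 : eG y = 0 := by exact_mod_cast h
    exact (map_eq_zero_iff eG eG.injective).1 h1
  refine ⟨((eG y : 𝓞 KI) : KI) / b, e, div_ne_zero hyK hbK, he, ?_⟩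
  have h1 : (a : KI) * (b : KI) = ((eG y : 𝓞 KI) : KI) ^ 2 * ((eG e : 𝓞 KI) : KI) := by
    rw [← TU.g1_mul, ← hn, hye, map_mul, map_pow, TU.g1_mul, TU.g1_pow]
  have h2 : d = (a : KI) / (b : KI) := hab.symm
  rw [h2, div_pow, div_mul_eq_mul_div, ← h1]
  field_simp

/-- `∏ ±p` is `∏ p` times the square of a unit -/
theorem n_prod_st (T : Finset Gi) : ∃ y : Gi, IsUnit y ∧ ∏ p ∈ T, QT.st p = y ^ 2 * ∏ p ∈ T, p := by
  induction T using Finset.induction_on with
  | empty => exact ⟨1, isUnit_one, by simp⟩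
  | insert q T hq ih =>
    obtain ⟨y, hy, h⟩ := ih
    rw [Finset.prod_insert hq, Finset.prod_insert hq, h]
    rcases QT.st_cases q with h1 | h1
    · exact ⟨y, hy, by rw [h1]; ring⟩
    · refine ⟨ii * y, QT.ii_unit.mul hy, ?_⟩
      have h2 : ii ^ 2 = -1 := by
        unfold ii
        decide
      rw [h1, mul_pow, h2]
      ring

theorem exists_rep (e : Gi) (he : Squarefree e) : ∃ (y : Gi) (s t : ℕ) (T : Finset Gi),
    IsUnit y ∧ s ≤ 1 ∧ t ≤ 1 ∧ (∀ q ∈ T, Prime q ∧ Prim q) ∧ e = y ^ 2 * (ii ^ s * la ^ t * ∏ q ∈ T, q) := by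
  have hsq : ∀ q : Gi, Prime q → ¬ q ^ 2 ∣ e := by
    intro q hq hd
    rw [sq] at hd
    exact hq.not_isUnit (he q hd)
  obtain ⟨s, t, S, a, hA, hD⟩ := QT.exists_Dd he.ne_zero
    (fun q hq hd => hsq q hq ((pow_dvd_pow q (by norm_num)).trans hd))
  have ht : t ≤ 1 := by
    by_contra hcon
    apply hsq la la_prime
    obtain ⟨c, hc, -⟩ := QT.Dd_exact_la s t S a hA
    rw [hD, hc]
    exact (pow_dvd_pow la (by omega)).mul_right c
  have ha : ∀ p ∈ S, a p = 1 := by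
    intro p hp
    by_contra hcon
    apply hsq p (hA.1 p hp).1
    obtain ⟨c, hc, -⟩ := QT.Dd_exact s t S a hA hp
    rw [hD, hc]
    refine (pow_dvd_pow p ?_).mul_right c
    rcases hA.2.1 p hp with h | h | h <;> omega
  obtain ⟨y, hy, hprod⟩ := n_prod_st S
  refine ⟨ii ^ (s / 2) * y, s % 2, t, S, (QT.ii_unit.pow _).mul hy, by omega, ht, hA.1, ?_⟩
  have h1 : ∏ p ∈ S, QT.st p ^ a p = ∏ p ∈ S, QT.st p :=
    Finset.prod_congr rfl fun p hp => by rw [ha p hp, pow_one]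
  have h2 : ii ^ s = (ii ^ (s / 2)) ^ 2 * ii ^ (s % 2) := by
    rw [← pow_mul, ← pow_add]
    congr 1
    omega
  rw [hD]
  unfold QT.Dd
  rw [h1, hprod, h2]
  ring

/-- the square of an odd element is `1 mod 2` -/
theorem n_odd_sq {m : Gi} (h : ¬ la ∣ m) : (2 : Gi) ∣ m ^ 2 - 1 := by
  have h1 : la ∣ m - 1 := by
    rw [la_dvd_iff] at h ⊢
    simp only [Zsqrtd.re_sub, Zsqrtd.im_sub, Zsqrtd.re_one, Zsqrtd.im_one]
    omega
  obtain ⟨y, hy⟩ := h1
  refine ⟨la * y + ii * y ^ 2, ?_⟩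
  have h2 : m = 1 + la * y := by linear_combination hy
  rw [h2]
  linear_combination y ^ 2 * la_sq

theorem n_two_ndvd {P : Gi} (hP : Prim P) : ¬ (2 : Gi) ∣ ii * P - 1 := by
  rintro ⟨c, hc⟩
  obtain ⟨h1, h2⟩ := (prim_iff P).1 hP
  have h3 := congrArg Zsqrtd.im hc
  have h4 : (2 : Gi) = ((2 : ℤ) : Gi) := by norm_num
  rw [h4, Zsqrtd.im_sub, (s1a_ii_mul P).2, Zsqrtd.im_one, s1a_mul_im] at h3
  simp only [Zsqrtd.re_intCast, Zsqrtd.im_intCast] at h3
  omega

/-- the element `e` has valuation one at the place of the prime `q` if `e = q c`, `c` prime to `q` -/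
theorem n_not_ur {q : Gi} (hq : Prime q) {c : Gi} (hc : ¬ q ∣ c) :
    ¬ TU.Ur (pl q hq) ((eG (q * c) : 𝓞 KI) : KI) := by
  intro h
  have hv : (pl q hq).asIdeal = Ideal.span {eG q} := rfl
  have hod : TU.Od (pl q hq) ((eG (q * c) : 𝓞 KI) : KI) := by
    refine ⟨1, eG (q * c), one_ne_zero, by rw [one_pow, one_mul], ?_, ?_⟩
    · rw [mem_iff hv]
      exact dvd_mul_right q c
    · rw [hv, Ideal.span_singleton_pow, Ideal.mem_span_singleton, ← map_pow, s1_dvd, sq]
      intro h1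
      exact hc ((mul_dvd_mul_iff_left hq.ne_zero).1 h1)
  exact hod.val h.val

theorem n_not_ur_ii {P : Gi} (hP : Prim P) : ¬ TU.Ur (pl la la_prime) ((eG (ii * P) : 𝓞 KI) : KI) := by
  intro h
  have hv : (pl la la_prime).asIdeal = Ideal.span {eG la} := rfl
  obtain ⟨x, t, c, hx, he, hn⟩ := h
  have hunit : (pl la la_prime).valuation KI ((eG (ii * P) : 𝓞 KI) : KI) = 1 := by
    rw [TU.g1_val_one, mem_iff hv]
    intro hd
    rcases la_prime.dvd_or_dvd hd with h1 | h1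
    · exact QT.not_dvd_unit la_prime QT.ii_unit h1
    · exact hP.not_la h1
  have hx1 : (pl la la_prime).valuation KI x = 1 := by
    have h1 : (pl la la_prime).valuation KI ((eG (ii * P) : 𝓞 KI) : KI) =
        (pl la la_prime).valuation KI x ^ 2 := by
      rw [he, map_mul, (TU.g1_val_one _).2 hn, mul_one, map_pow]
    rw [hunit] at h1
    exact (pow_eq_one_iff_of_nonneg zero_le two_ne_zero).1 h1.symm
  obtain ⟨a, m, hm, ha⟩ := TU.exists_frac _ hx1.le
  have ham : a ∉ (pl la la_prime).asIdeal := by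
    rw [← TU.g1_val_one, ← ha, map_mul, hx1, (TU.g1_val_one _).2 hm, one_mul]
  have key : m ^ 2 * eG (ii * P) = a ^ 2 * (t ^ 2 + 4 * c) := by
    apply RingOfIntegers.ext
    rw [TU.g1_mul, TU.g1_pow, he, TU.g1_mul, TU.g1_pow, ← ha]
    ring
  obtain ⟨m', rfl⟩ := eG.surjective m
  obtain ⟨a', rfl⟩ := eG.surjective a
  obtain ⟨t', rfl⟩ := eG.surjective t
  obtain ⟨c', rfl⟩ := eG.surjective c
  have key' : m' ^ 2 * (ii * P) = a' ^ 2 * (t' ^ 2 + 4 * c') := by
    apply eG.injective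
    rw [map_mul, map_pow, key, map_mul, map_pow, map_add, map_pow, map_mul, map_ofNat]
  rw [mem_iff hv] at hm ham
  have ht' : ¬ la ∣ t' := by
    intro hd
    apply hn
    have h4 : (4 : Gi) = la * (la * (-2 * ii)) := by
      have h5 : ii ^ 2 = -1 := by
        unfold ii
        decide
      linear_combination (2 * ii) * la_sq + 4 * h5
    have h1 : eG t' ^ 2 + 4 * eG c' = eG (t' ^ 2 + 4 * c') := by
      rw [map_add, map_pow, map_mul, map_ofNat]
    rw [h1, mem_iff hv]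
    refine dvd_add (dvd_pow hd two_ne_zero) ?_
    rw [h4]
    exact ((dvd_mul_right la _).mul_right c')
  obtain ⟨u1, hu1⟩ := n_odd_sq hm
  obtain ⟨u2, hu2⟩ := n_odd_sq ham
  obtain ⟨u3, hu3⟩ := n_odd_sq ht'
  apply n_two_ndvd hP
  have e1 : m' ^ 2 = 1 + 2 * u1 := by linear_combination hu1
  have e2 : a' ^ 2 = 1 + 2 * u2 := by linear_combination hu2
  have e3 : t' ^ 2 = 1 + 2 * u3 := by linear_combination hu3
  rw [e1, e2, e3] at key'
  refine ⟨(u3 + 2 * c') + u2 * (1 + 2 * u3 + 4 * c') - u1 * (ii * P), ?_⟩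
  linear_combination key'

theorem n_two_mem : (2 : 𝓞 KI) ∈ (pl la la_prime).asIdeal := by
  have hv : (pl la la_prime).asIdeal = Ideal.span {eG la} := rfl
  have h1 : (2 : 𝓞 KI) = eG 2 := (map_ofNat eG 2).symm
  rw [h1, mem_iff hv]
  refine ⟨-(ii * la), ?_⟩
  have h5 : ii ^ 2 = -1 := by
    unfold ii
    decide
  linear_combination ii * la_sq + 2 * h5

theorem exists_normal (D : Gi) {d : KI} (hd : DN (eG D : 𝓞 KI) d) :
    ∃ (x : KI) (T : Finset Gi), x ≠ 0 ∧ (∀ q ∈ T, Prime q ∧ Prim q ∧ ¬ q ∣ D ∧ sy D q = 1) ∧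
      d = x ^ 2 * ((eG (∏ q ∈ T, q) : 𝓞 KI) : KI) := by
  obtain ⟨hd0, hd⟩ := hd
  obtain ⟨x, e, hx, he, hde⟩ := exists_sqfree d hd0
  obtain ⟨y, s, t, T, hy, hs, ht, hT, hrep⟩ := exists_rep e he
  set f : Gi := ii ^ s * la ^ t * ∏ q ∈ T, q with hf
  have hyK : ((eG y : 𝓞 KI) : KI) ≠ 0 := by
    intro h
    apply hy.ne_zero
    have h1 : eG y = 0 := by exact_mod_cast h
    exact (map_eq_zero_iff eG eG.injective).1 h1
  have hx' : x * ((eG y : 𝓞 KI) : KI) ≠ 0 := mul_ne_zero hx hyK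
  have hdf : d = (x * ((eG y : 𝓞 KI) : KI)) ^ 2 * ((eG f : 𝓞 KI) : KI) := by
    rw [hde, hrep, map_mul, map_pow, TU.g1_mul, TU.g1_pow]
    ring
  have hur : ∀ v : HeightOneSpectrum (𝓞 KI), TU.Ur v ((eG f : 𝓞 KI) : KI) ∨ NP (eG D) v := by
    intro v
    rcases hd v with h | h
    · left
      rw [hdf] at h
      exact (TU.ur_sq_mul hx').1 h
    · exact Or.inr h
  have hPT : Prim (∏ q ∈ T, q) := Prim.prod fun p hp => (hT p hp).2
  have hla : TU.Ur (pl la la_prime) ((eG f : 𝓞 KI) : KI) := by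
    rcases hur (pl la la_prime) with h | h
    · exact h
    · exact absurd n_two_mem h.1
  have ht0 : t = 0 := by
    by_contra hne
    have ht1 : t = 1 := by omega
    have h1 : f = la * (ii ^ s * ∏ q ∈ T, q) := by
      rw [hf, ht1]
      ring
    rw [h1] at hla
    refine n_not_ur la_prime ?_ hla
    intro hdv
    rcases la_prime.dvd_or_dvd hdv with h2 | h2
    · exact QT.not_dvd_unit la_prime (QT.ii_unit.pow s) h2
    · exact hPT.not_la h2
  have hs0 : s = 0 := by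
    by_contra hne
    have hs1 : s = 1 := by omega
    have h1 : f = ii * ∏ q ∈ T, q := by
      rw [hf, ht0, hs1]
      ring
    rw [h1] at hla
    exact n_not_ur_ii hPT hla
  have hf1 : f = ∏ q ∈ T, q := by
    rw [hf, hs0, ht0]
    ring
  refine ⟨x * ((eG y : 𝓞 KI) : KI), T, hx', ?_, by rw [← hf1]; exact hdf⟩
  intro q hq
  obtain ⟨hqp, hqP⟩ := hT q hq
  have hv : (pl q hqp).asIdeal = Ideal.span {eG q} := rfl
  have hnp : NP (eG D) (pl q hqp) := by
    rcases hur (pl q hqp) with h | h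
    · exfalso
      rw [hf1, ← Finset.mul_prod_erase T _ hq] at h
      refine n_not_ur hqp ?_ h
      intro hdv
      obtain ⟨p, hp, hqp'⟩ := hqp.exists_mem_finset_dvd hdv
      have h1 := hT p (Finset.mem_of_mem_erase hp)
      exact Finset.ne_of_mem_erase hp (QT.eq_of_dvd hqp hqP h1.1 h1.2 hqp').symm
    · exact h
  obtain ⟨-, h2, h3⟩ := hnp
  refine ⟨hqp, hqP, ?_, ?_⟩
  · rw [mem_iff hv] at h2
    exact h2
  · rcases sy_cases D q with h | h
    · exfalso
      obtain ⟨z, hz⟩ := (sy_eq_zero_iff D q).1 h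
      apply h3 (eG z)
      have h4 : eG z ^ 2 - eG D = eG (z ^ 2 - D) := by rw [map_sub, map_pow]
      rw [h4, mem_iff hv]
      exact hz
    · exact h

end QTF
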