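import Pool.Agent.QTF.N
import Pool.Agent.QTF.X2

/-!
# [QTF-X3] for good `D` there are nice extensions of degree `2 ^ n`
-/

set_option autoImplicit false

open NumberField Ideal IsDedekindDomain
open scoped Classical

namespace QTF

open PI

/-- nice elements -/
def NE (D d : 𝓞 KI) : Prop := d ≠ 0 ∧ ∀ w : HeightOneSpectrum (𝓞 KI), d ∈ w.asIdeal → NP D w

theorem np_pl {D q : Gi} (hq : Prime q) (hqP : Prim q) (hqD : ¬ q ∣ D) (hs : sy D q = 1) :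
    NP (eG D) (pl q hq) := by
  have hv : (pl q hq).asIdeal = Ideal.span {eG q} := rfl
  refine ⟨?_, ?_, ?_⟩
  · have h1 : (2 : 𝓞 KI) = eG 2 := (map_ofNat eG 2).symm
    rw [h1, mem_iff hv]
    intro h2
    have h3 : q ∣ la := by
      have h4 : (2 : Gi) = -ii * la ^ 2 := by
        unfold ii la
        decide
      rw [h4] at h2
      rcases hq.dvd_or_dvd h2 with h5 | h5
      · exact absurd h5 (QT.not_dvd_unit hq QT.ii_unit.neg)
      · exact hq.dvd_of_dvd_pow h5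
    exact hqP.not_la ((hq.dvd_prime_iff_associated la_prime).1 h3).symm.dvd
  · rw [mem_iff hv]
    exact hqD
  · intro x hx
    obtain ⟨z, rfl⟩ := eG.surjective x
    have h4 : eG z ^ 2 - eG D = eG (z ^ 2 - D) := by rw [map_sub, map_pow]
    rw [h4, mem_iff hv] at hx
    have := (sy_eq_zero_iff D q).2 ⟨z, hx⟩
    rw [this] at hs
    exact zero_ne_one hs

theorem pl_eq {q : Gi} (hq : Prime q) {w : HeightOneSpectrum (𝓞 KI)} (h : eG q ∈ w.asIdeal) :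
    w = pl q hq := by
  apply HeightOneSpectrum.ext
  have h1 : (pl q hq).asIdeal ≤ w.asIdeal := by
    change Ideal.span {eG q} ≤ w.asIdeal
    rw [Ideal.span_singleton_le_iff_mem]
    exact h
  exact ((pl q hq).isMaximal.eq_of_le w.isPrime.ne_top h1).symm

theorem pl_inj {p q : Gi} (hp : Prime p) (hP : Prim p) (hq : Prime q) (hQ : Prim q)
    (h : pl p hp = pl q hq) : p = q := by
  have h1 : eG q ∈ (pl p hp).asIdeal := by
    rw [h]
    exact Ideal.mem_span_singleton_self _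
  rw [mem_iff (show (pl p hp).asIdeal = Ideal.span {eG p} from rfl)] at h1
  exact QT.eq_of_dvd hp hP hq hQ h1

theorem x3_four {x : Gi} : (4 : Gi) ∣ x ↔ (4 : ℤ) ∣ x.re ∧ (4 : ℤ) ∣ x.im := by
  have h : (4 : Gi) = ((4 : ℤ) : Gi) := by norm_cast
  rw [h]
  exact Zsqrtd.intCast_dvd 4 x

theorem x3_prim {q : Gi} (h : Prim q) (h4 : ¬ (4 : Gi) ∣ q - 1) :
    ∃ m n : ℤ, q.re = 4 * m + 3 ∧ q.im = 4 * n + 2 := by
  rw [x3_four] at h4
  obtain ⟨h1, h2⟩ := (qr_prim_iff q).1 h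
  have e1 : (q - 1).re = q.re - 1 := rfl
  have e2 : (q - 1).im = q.im := by
    change q.im - 0 = q.im
    rw [sub_zero]
  rw [e1, e2] at h4
  by_cases h5 : (4 : ℤ) ∣ q.im
  · exact absurd ⟨by omega, h5⟩ h4
  · exact ⟨q.re / 4, q.im / 4, by omega, by omega⟩

theorem x3_mod {q : Gi} (h : Prim q) (h4 : ¬ (4 : Gi) ∣ q - 1) {p : Gi} (h' : Prim p) (h4' : ¬ (4 : Gi) ∣ p - 1) :
    (4 : Gi) ∣ q * p - 1 := by
  obtain ⟨m, n, h1, h2⟩ := x3_prim h h4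
  obtain ⟨m', n', h1', h2'⟩ := x3_prim h' h4'
  rw [x3_four]
  have e1 : (q * p - 1).re = q.re * p.re - q.im * p.im - 1 := by
    change q.re * p.re + (-1) * q.im * p.im - 1 = _
    ring
  have e2 : (q * p - 1).im = q.re * p.im + q.im * p.re := by
    change q.re * p.im + q.im * p.re - 0 = _
    ring
  rw [e1, e2, h1, h2, h1', h2']
  refine ⟨⟨4 * m * m' + 3 * m + 3 * m' - 4 * n * n' - 2 * n - 2 * n' + 1, by ring⟩,
    ⟨4 * m * n' + 2 * m + 3 * n' + 4 * n * m' + 3 * n + 2 * m' + 3, by ring⟩⟩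

theorem x3_ndvd {q : Gi} (hq : Prime q) : ¬ q ^ 2 ∣ q := by
  intro h
  have h1 : q ^ 2 ∣ q ^ 1 := by rwa [pow_one]
  exact absurd ((pow_dvd_pow_iff hq.ne_zero hq.not_isUnit).1 h1) (by norm_num)

theorem x3_inf {D : Gi} (h : {v : Gi | Prime v ∧ Prim v ∧ ¬ v ∣ D ∧ sy D v = 1}.Infinite) :
    {v : HeightOneSpectrum (𝓞 KI) | ∃ t c : 𝓞 KI, NE (eG D) (t ^ 2 + 4 * c) ∧ t ^ 2 + 4 * c ∈ v.asIdeal ∧
      t ^ 2 + 4 * c ∉ v.asIdeal ^ 2}.Infinite := by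
  -- elements of `ℤ[i]`
  obtain ⟨v0, hv0⟩ : ∃ v0 : Gi, ∀ q : Gi, (Prime q ∧ Prim q ∧ ¬ q ∣ D ∧ sy D q = 1) → q ≠ v0 →
      ∃ d : Gi, (4 : Gi) ∣ d - 1 ∧ q ∣ d ∧ ¬ q ^ 2 ∣ d ∧ d ≠ 0 ∧
        ∀ w : HeightOneSpectrum (𝓞 KI), eG d ∈ w.asIdeal → NP (eG D) w := by
    by_cases hex : ∃ v0 : Gi, (Prime v0 ∧ Prim v0 ∧ ¬ v0 ∣ D ∧ sy D v0 = 1) ∧ ¬ (4 : Gi) ∣ v0 - 1
    · obtain ⟨v0, ⟨a1, a2, a3, a4⟩, a5⟩ := hex
      refine ⟨v0, ?_⟩
      rintro q ⟨b1, b2, b3, b4⟩ hne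
      by_cases b5 : (4 : Gi) ∣ q - 1
      · refine ⟨q, b5, dvd_rfl, x3_ndvd b1, b1.ne_zero, fun w hw => ?_⟩
        rw [pl_eq b1 hw]
        exact np_pl b1 b2 b3 b4
      · refine ⟨q * v0, x3_mod b2 b5 a2 a5, dvd_mul_right _ _, ?_, mul_ne_zero b1.ne_zero a1.ne_zero, fun w hw => ?_⟩
        · rw [pow_two]
          intro h1
          exact hne (QT.eq_of_dvd b1 b2 a1 a2 ((mul_dvd_mul_iff_left b1.ne_zero).1 h1))
        · rw [map_mul] at hw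
          rcases w.isPrime.mem_or_mem hw with h1 | h1
          · rw [pl_eq b1 h1]
            exact np_pl b1 b2 b3 b4
          · rw [pl_eq a1 h1]
            exact np_pl a1 a2 a3 a4
    · push Not at hex
      refine ⟨0, ?_⟩
      rintro q ⟨b1, b2, b3, b4⟩ -
      refine ⟨q, hex q ⟨b1, b2, b3, b4⟩, dvd_rfl, x3_ndvd b1, b1.ne_zero, fun w hw => ?_⟩
      rw [pl_eq b1 hw]
      exact np_pl b1 b2 b3 b4
  have h1 : ({v : Gi | Prime v ∧ Prim v ∧ ¬ v ∣ D ∧ sy D v = 1} \ {v0}).Infinite :=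
    h.sdiff (Set.finite_singleton v0)
  have hinj : Set.InjOn (fun q : Gi => if hq : Prime q then pl q hq else pl la la_prime)
      ({v : Gi | Prime v ∧ Prim v ∧ ¬ v ∣ D ∧ sy D v = 1} \ {v0}) := by
    rintro p ⟨⟨p1, p2, -, -⟩, -⟩ q ⟨⟨q1, q2, -, -⟩, -⟩ hpq
    simp only [dif_pos p1, dif_pos q1] at hpq
    exact pl_inj p1 p2 q1 q2 hpq
  refine (h1.image hinj).mono ?_
  rintro w ⟨q, ⟨hq, hne⟩, rfl⟩
  obtain ⟨d, ⟨c, hc⟩, h3, h4, h5, h6⟩ := hv0 q hq hne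
  have hd : (1 : 𝓞 KI) ^ 2 + 4 * eG c = eG d := by
    have : d = 1 + 4 * c := by linear_combination hc
    rw [this, map_add, map_mul, map_one, map_ofNat, one_pow]
  refine ⟨1, eG c, ?_, ?_, ?_⟩
  · rw [hd]
    exact ⟨(map_ne_zero_iff eG eG.injective).2 h5, h6⟩
  · rw [hd]
    simp only [dif_pos hq.1]
    rw [mem_iff (show (pl q hq.1).asIdeal = Ideal.span {eG q} from rfl)]
    exact h3
  · rw [hd]
    simp only [dif_pos hq.1]
    rw [show (pl q hq.1).asIdeal = Ideal.span {eG q} from rfl, Ideal.span_singleton_pow,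
      Ideal.mem_span_singleton, ← map_pow]
    intro h7
    exact h4 ((map_dvd_iff eG).1 h7)

end QTF
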