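
import Pool.Agent.QTF.T1
import Pool.Agent.QT.Q13

/-!
# [QTF-I1] infinitely many nice primes

`not_all_even`: if `D = Dd s t S a` is good then `s`, `t` or some `a p`, `p ∈ S`, is odd. Otherwise all `a p = 2`, all entries of `LM` are `0` (`(a p : ZMod 2) = 0`, `(s : ZMod 2) = (t : ZMod 2) = 0`), `bD = gD = 0`; GoodA: the three cases have `s` odd, `t = 3`, `s` odd; GoodB: `bD = 1`, `bD + gD = 1` or `gD = 1`: all impossible; GoodC: `t = 1`.
`infinite_nice`: `sy D v = s [i/v] + t [1+i/v] + ∑_{p ∈ S, a p odd} [p/v]` for `v ∉ S` (`sy_Dd`, T1); `[p/v] = [v/p]` (`PI.sy_symm`). Suppose there are only finitely many primary primes `v ∉ S` with `sy D v = 1`; let `R` be the finite set of these primes and of the primes of `S`.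
The character `xi v = (-1)^(sy D v)` (`v ∉ S`) of the system `arPI` (QT/ED.lean or PI/D14*, DZ*; `PP.xi0` with `A = {p ∈ S : a p odd}`, `e = (s, t)`) is not trivial, so `|∑_{M ∈ mb x} xi(M)| ≤ C √x` (the field `chr` of the structure with `A' = ∅`, `e' = 0`), so
`|sR R xi x| ≤ 2^|R| C √x` (`QT.abs_sR_le`, QT/RS.lean), but outside `R` the character is `1`, so `sR R xi x = sR R 1 x ≥ x / C'` (`QT.sR_one_low`): contradiction for large `x`.
-/

set_option autoImplicit false

open scoped Classical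

namespace QTF

open PI QT

theorem i1_even_cast {n : ℕ} (h : ¬ Odd n) : ((n : ℕ) : ZMod 2) = 0 := by
  rw [Nat.not_odd_iff_even] at h
  exact (ZMod.natCast_eq_zero_iff_even).2 h

theorem i1_odd_cast {n : ℕ} (h : Odd n) : ((n : ℕ) : ZMod 2) = 1 :=
  (ZMod.natCast_eq_one_iff_odd).2 h

theorem not_all_even {s t : ℕ} {S : Finset Gi} {a : Gi → ℕ} (h : QT.Good s t S a) :
    Odd s ∨ Odd t ∨ ∃ p ∈ S, Odd (a p) := by
  by_contra hc
  push Not at hc
  obtain ⟨hs, ht, hp⟩ := hc
  have hs' : ¬ Odd s := by simpa using hs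
  have ht' : ¬ Odd t := by simpa using ht
  have hp' : ∀ p ∈ S, ¬ Odd (a p) := by
    intro p h1
    simpa using hp p h1
  have hb : QT.bD S a = 0 := by
    unfold QT.bD
    refine Finset.sum_eq_zero fun p h1 => ?_
    rw [i1_even_cast (hp' p h1), zero_mul]
  have hg : QT.gD S a = 0 := by
    unfold QT.gD
    refine Finset.sum_eq_zero fun p h1 => ?_
    rw [i1_even_cast (hp' p h1), zero_mul]
  have h01 : ¬ ((0 : ZMod 2) = 1) := by decide
  rcases h with h | h | h
  · rcases h.2.1 with h1 | h1 | h1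
    · exact hs' h1.2
    · subst h1
      exact ht' (by decide)
    · rcases h1.2 with h2 | h2
      · exact hs' (by rw [h2.1]; decide)
      · exact hs' (by rw [h2.1]; decide)
  · rcases h.2.1 with h1 | h1
    · rw [hb] at h1
      exact h01 h1.2.2
    · rcases h1.2 with h2 | h2
      · rw [hb, hg, add_zero] at h2
        exact h01 h2.2
      · rw [hg] at h2
        exact h01 h2.2
  · have h1 := h.2.1
    subst h1
    exact ht' (by decide)

theorem i1_adm {s t : ℕ} {S : Finset Gi} {a : Gi → ℕ} (h : QT.Good s t S a) : QT.Adm s t S a := by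
  rcases h with h | h | h
  · exact h.1
  · exact h.1
  · exact h.1

/-- the primes of `S` with an odd exponent -/
noncomputable def i1A (S : Finset Gi) (a : Gi → ℕ) : Finset OPi :=
  (S.subtype fun p => Prime p ∧ Prim p).filter fun p => Odd (a p.1)

theorem i1_mem {S : Finset Gi} {a : Gi → ℕ} (v : OPi) : v ∈ i1A S a ↔ v.1 ∈ S ∧ Odd (a v.1) := by
  unfold i1A
  rw [Finset.mem_filter, Finset.mem_subtype]

/-- the symbol of `D` in terms of the characters of the system -/
theorem i1_sum {s t : ℕ} {S : Finset Gi} {a : Gi → ℕ} (h : QT.Adm s t S a) (v : OPi) (hv : v.1 ∉ S) :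
    ∑ u ∈ i1A S a, aG u v + ∑ γ, (if γ = (0 : Fin 2) then (s : ZMod 2) else (t : ZMod 2)) * gG γ v =
      sy (QT.Dd s t S a) v.1 := by
  rw [sy_Dd h v.2.1 v.2.2 hv, Fin.sum_univ_two]
  have h1 : ∑ u ∈ i1A S a, aG u v = ∑ l ∈ S, (a l : ZMod 2) * sy l v.1 := by
    have h2 : ∑ l ∈ S, (a l : ZMod 2) * sy l v.1 =
        ∑ l ∈ S.filter (fun l => Odd (a l)), sy l v.1 := by
      rw [Finset.sum_filter]
      refine Finset.sum_congr rfl fun l _ => ?_
      by_cases hl : Odd (a l)
      · rw [if_pos hl, i1_odd_cast hl, one_mul]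
      · rw [if_neg hl, i1_even_cast hl, zero_mul]
    rw [h2]
    refine Finset.sum_bij (fun (u : OPi) _ => u.1) ?_ ?_ ?_ ?_
    · intro u hu
      exact Finset.mem_filter.2 ((i1_mem u).1 hu)
    · intro u _ u' _ hh
      exact Subtype.ext hh
    · intro l hl
      obtain ⟨hl1, hl2⟩ := Finset.mem_filter.1 hl
      exact ⟨⟨l, h.1 l hl1⟩, (i1_mem _).2 ⟨hl1, hl2⟩, rfl⟩
    · intro u hu
      exact sy_symm _ _ v.2.1 u.2.1 v.2.2 u.2.2
  rw [h1]
  have h3 : gG 0 v = sy ii v.1 := by
    unfold gG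
    rw [if_pos rfl]
  have h4 : gG 1 v = sy la v.1 := by
    unfold gG
    rw [if_neg (by decide)]
  rw [h3, h4, if_pos rfl, if_neg (by decide : ¬ (1 : Fin 2) = 0)]
  ring

theorem i1_sR_congr {P G : Type} [Fintype G] (D : PP.Ar P G) (R : Finset P) (f g : P → ℝ)
    (h : ∀ v, v ∉ R → f v = g v) (x : ℕ) : D.sR R f x = D.sR R g x := by
  unfold PP.Ar.sR
  refine Finset.sum_congr rfl fun M hM => ?_
  rw [Finset.mem_filter] at hM
  rw [Multiset.map_congr rfl fun v hv => h v (hM.2 v hv)]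

theorem infinite_nice {s t : ℕ} {S : Finset Gi} {a : Gi → ℕ} (h : QT.Good s t S a) :
    {v : Gi | Prime v ∧ Prim v ∧ v ∉ S ∧ sy (QT.Dd s t S a) v = 1}.Infinite := by
  intro hfin
  have hadm := i1_adm h
  set A : Finset OPi := i1A S a with hA
  set e : Fin 2 → ZMod 2 := fun γ => if γ = (0 : Fin 2) then (s : ZMod 2) else (t : ZMod 2) with he
  set F : Finset Gi := hfin.toFinset ∪ S with hF
  set R : Finset OPi := F.subtype fun p => Prime p ∧ Prim p with hR
  have hRmem : ∀ v : OPi, v ∈ R ↔ (v.1 ∉ S ∧ sy (QT.Dd s t S a) v.1 = 1) ∨ v.1 ∈ S := by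
    intro v
    rw [hR, Finset.mem_subtype, hF, Finset.mem_union, Set.Finite.mem_toFinset, Set.mem_ofPred_eq]
    constructor
    · rintro (h1 | h1)
      · exact Or.inl h1.2.2
      · exact Or.inr h1
    · rintro (h1 | h1)
      · exact Or.inl ⟨v.2.1, v.2.2, h1⟩
      · exact Or.inr h1
  -- the character is not trivial
  have hne : A ≠ ∅ ∨ e ≠ 0 := by
    rcases not_all_even h with h1 | h1 | ⟨p, hp, h1⟩
    · right
      intro h2
      have h3 := congrFun h2 0
      rw [he] at h3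
      simp only [if_true, Pi.zero_apply] at h3
      rw [i1_odd_cast h1] at h3
      exact absurd h3 (by decide)
    · right
      intro h2
      have h3 := congrFun h2 1
      rw [he] at h3
      simp only [Pi.zero_apply] at h3
      rw [if_neg (by decide : ¬ (1 : Fin 2) = 0), i1_odd_cast h1] at h3
      exact absurd h3 (by decide)
    · left
      exact Finset.ne_empty_of_mem ((i1_mem ⟨p, hadm.1 p hp⟩).2 ⟨hp, h1⟩)
  -- it is `1` outside of `R`
  have hone : ∀ v : OPi, v ∉ R → gar.xi A e v = 1 := by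
    intro v hv
    have hvS : v.1 ∉ S := fun h1 => hv ((hRmem v).2 (Or.inr h1))
    have hvs : sy (QT.Dd s t S a) v.1 = 0 := by
      rcases sy_cases (QT.Dd s t S a) v.1 with h1 | h1
      · exact h1
      · exact absurd ((hRmem v).2 (Or.inl ⟨hvS, h1⟩)) hv
    have hvA : v ∉ A := fun h1 => hvS ((i1_mem v).1 h1).1
    change PP.xi0 aG gG A e v = 1
    unfold PP.xi0
    rw [if_neg hvA, if_pos]
    rw [← hvs]
    exact i1_sum hadm v hvS
  -- the upper bound
  have hup : ∀ x : ℕ, |gar.sR R (gar.xi A e) x| ≤ 2 ^ R.card * (gar.C * PP.nS gar.N A) * √x := by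
    refine gar.abs_sR_le R (gar.xi A e) (fun ρ _ => gar.d2_abs_xi A e ρ) ?_
    intro x
    rw [gar.sR_empty]
    refine (gar.d2_sum_le' hne x).trans (le_of_eq ?_)
    ring
  have heq : ∀ x : ℕ, gar.sR R (gar.xi A e) x = gar.sR R (fun _ => 1) x := by
    intro x
    exact i1_sR_congr gar R _ _ hone x
  obtain ⟨C1, hC1, hlow⟩ := gar.sR_one_low R
  set B : ℝ := 2 ^ R.card * (gar.C * PP.nS gar.N A) with hB
  have hB0 : 0 ≤ B := by
    have h1 := gar.one_le
    have h2 : (0 : ℝ) ≤ gar.C := by linarith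
    positivity
  obtain ⟨n, hn⟩ := exists_nat_gt (C1 + C1 * B + 1)
  have hC1B : 0 ≤ C1 * B := mul_nonneg (by linarith) hB0
  have hn1 : (1 : ℝ) ≤ n := by linarith
  have h1 : C1 ≤ ((n ^ 2 : ℕ) : ℝ) := by
    push_cast
    nlinarith
  have h2 := hlow (n ^ 2) h1
  have h3 := (le_abs_self _).trans (hup (n ^ 2))
  rw [heq] at h3
  have h4 : √((n ^ 2 : ℕ) : ℝ) = n := by
    push_cast
    exact Real.sqrt_sq (by linarith)
  rw [h4] at h3
  push_cast at h2
  have h5 : (n : ℝ) ^ 2 ≤ C1 * (B * n) :=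
    h2.trans (mul_le_mul_of_nonneg_left h3 (by linarith))
  have h6 : (n : ℝ) ≤ C1 * B := by
    have h7 : (n : ℝ) * n ≤ (C1 * B) * n := by nlinarith
    exact le_of_mul_le_mul_right h7 (by linarith)
  linarith

end QTF
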