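import Pool.Agent.QTF.R3
import Pool.Agent.PI.CB
import Pool.Agent.QTF.X3

/-!
# [QTF-X4] a positive proportion of the `D` for each extension which is unramified above `2`
-/

set_option autoImplicit false

open NumberField Ideal IsDedekindDomain
open scoped Classical

namespace QTF

open PI QT

theorem x4_R (F : Type) [Field F] [NumberField F] [Algebra KI F]
    (h2 : ∀ (v : HeightOneSpectrum (𝓞 KI)) (P : HeightOneSpectrum (𝓞 F)),
      v.asIdeal.map (algebraMap (𝓞 KI) (𝓞 F)) ≤ P.asIdeal ^ 2 → (2 : 𝓞 KI) ∉ v.asIdeal) :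
    ∃ R : Finset OPi, ∀ D : Gi, (∀ ρ ∈ R, ¬ ρ.1 ∣ D ∧ sy D ρ.1 = 1) →
      ∀ (v : HeightOneSpectrum (𝓞 KI)) (P : HeightOneSpectrum (𝓞 F)),
        v.asIdeal.map (algebraMap (𝓞 KI) (𝓞 F)) ≤ P.asIdeal ^ 2 → NP (eG D) v := by
  set T := (ram_finite KI F).toFinset with hT
  have key : ∀ v : T, ∃ ρ : OPi, v.1 = pl ρ.1 ρ.2.1 := by
    rintro ⟨v, hv⟩
    rw [hT, Set.Finite.mem_toFinset] at hv
    obtain ⟨P, hP⟩ := hv
    rcases gen_cases (v := v) with h | ⟨b, hb, hbP, h⟩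
    · exfalso
      apply h2 v P hP
      have h3 := n_two_mem
      rw [show (pl la la_prime).asIdeal = Ideal.span {eG la} from rfl, ← h] at h3
      exact h3
    · exact ⟨⟨b, hb, hbP⟩, HeightOneSpectrum.ext h⟩
  choose f hf using key
  refine ⟨Finset.univ.image f, fun D hD v P hvP => ?_⟩
  have hv : v ∈ T := by
    rw [hT, Set.Finite.mem_toFinset]
    exact ⟨P, hvP⟩
  have h3 := hf ⟨v, hv⟩
  obtain ⟨h4, h5⟩ := hD (f ⟨v, hv⟩) (Finset.mem_image_of_mem f (Finset.mem_univ _))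
  rw [show v = pl _ _ from h3]
  exact np_pl _ (f ⟨v, hv⟩).2.2 h4 h5

theorem dens_field (F : Type) [Field F] [NumberField F] [Algebra KI F]
    (h2 : ∀ (v : HeightOneSpectrum (𝓞 KI)) (P : HeightOneSpectrum (𝓞 F)),
      v.asIdeal.map (algebraMap (𝓞 KI) (𝓞 F)) ≤ P.asIdeal ^ 2 → (2 : 𝓞 KI) ∉ v.asIdeal) :
    ∃ c : ℝ, 0 < c ∧ ∃ X0 : ℕ, ∀ X : ℕ, X0 ≤ X → c * ((quarA X).ncard : ℝ) ≤
      (({D : Gi | D ∈ quarB X ∧ ∀ (v : HeightOneSpectrum (𝓞 KI)) (P : HeightOneSpectrum (𝓞 F)),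
        v.asIdeal.map (algebraMap (𝓞 KI) (𝓞 F)) ≤ P.asIdeal ^ 2 → NP (eG D) v} : Set Gi).ncard : ℝ) := by
  obtain ⟨R, hR⟩ := x4_R F h2
  obtain ⟨c, hc, X0, h⟩ := dens_fixed R
  obtain ⟨C, hC, hA⟩ := ncard_quarA_le_mul
  refine ⟨c / C, by positivity, X0, fun X hX => ?_⟩
  have h1 : c / C * ((quarA X).ncard : ℝ) ≤ c * X := by
    have := hA X
    rw [div_mul_eq_mul_div, div_le_iff₀ hC]
    calc c * ((quarA X).ncard : ℝ) ≤ c * (C * X) := mul_le_mul_of_nonneg_left this hc.le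
      _ = c * X * C := by ring
  refine h1.trans ((h X hX).trans ?_)
  have hfin : (quarA X).Finite := (cb_finite_norm X).subset fun D hD => hD.2.2
  refine Nat.cast_le.2 (Set.ncard_le_ncard (fun D hD => ?_) (hfin.subset fun D hD => hD.1.1))
  · obtain ⟨s, t, S, a, hG, hDd, hX, hρ⟩ := hD
    have hadm : Adm s t S a := by
      rcases hG with h | h | h
      · exact h.1
      · exact h.1
      · exact h.1
    refine ⟨⟨⟨?_, fun q hq => ?_, hX⟩, s, t, S, a, hG, hDd⟩, fun v P hvP => hR D hρ v P hvP⟩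
    · rw [hDd]
      exact Dd_ne s t S a hadm
    · rw [hDd]
      exact Dd_free s t S a hadm hq

end QTF
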