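import Pool.Agent.QTF.Defs
import Pool.Agent.QTS.T2b
import Pool.Agent.PI.S4

/-!
# [QTF-A1] additive reduction above `2` over an abstract discrete valuation ring with uniformizer `1 + i`: the cases `D = l^n w`

`localPoly_addC`: the proof of `PI.localPoly_add'` (PI/S4.lean) with `1` replaced by `C` (`GE.exists_T A (I.map ..) C`, `GE.exists_D A I C T hT hu'`).
`pos_min`: the proof of `QTS.unit_la_pos` (QTS/T2b.lean), which does not use `h2`.
`pos_lp`: `D (t² + 4c)² = l^n (w (t² + 4c)²)`, `localPoly_addC` with `Δ = 64 D'³`, `c₄ = 48 D'` (`QTS.W_Δ`, `QTS.W_c₄`) not units; `2 ∣ w² - 1` and `l ∣ 2` imply that `w` is a unit.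
-/

set_option autoImplicit false

open NumberField IsDedekindDomain Polynomial
open scoped Classical

namespace QTF

section
variable (A : Type) [CommRing A] [IsDomain A] [IsDiscreteValuationRing A] {K : Type} [Field K]
  [Algebra A K] [IsFractionRing A K]

theorem localPoly_addC (I : WeierstrassCurve A)
    (hu : ∀ T : WeierstrassCurve.VariableChange K, (T • I.map (algebraMap A K)).IsMinimal A →
      (IsDiscreteValuationRing.maximalIdeal A).valuation K (T.u : K) = 1)
    (hΔ : ¬ IsUnit I.Δ) (h4 : ¬ IsUnit I.c₄) (C : WeierstrassCurve.VariableChange K) :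
    (C • I.map (algebraMap A K)).localPolynomial A = 1 := by
  obtain ⟨T, hT, hTm⟩ := GE.exists_T A (I.map (algebraMap A K)) C
  have hint := GE.isIntegral_map A (K := K) I
  have hu' := hu T hTm
  obtain ⟨D, hD⟩ := GE.exists_D A I C T hT hu'
  have hadd : ((C • I.map (algebraMap A K)).minimal A).HasAdditiveReduction A := by
    refine ⟨?_, ?_⟩
    · rw [← WeierstrassCurve.integralModel_Δ_eq A, ← hD]
      obtain ⟨c, hc, h1⟩ := GE.Δ_D D I
      rw [h1]
      refine (GE.val_int A (I.map (algebraMap A K)) _ (c * I.Δ) rfl).2.2 ?_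
      intro h
      exact hΔ (isUnit_of_mul_isUnit_right h)
    · rw [← WeierstrassCurve.integralModel_c₄_eq A, ← hD]
      obtain ⟨c, hc, h1⟩ := GE.c₄_D D I
      rw [h1]
      refine (GE.val_int A (I.map (algebraMap A K)) _ (c * I.c₄) rfl).2.2 ?_
      intro h
      exact h4 (isUnit_of_mul_isUnit_right h)
  have hnm : ¬ ((C • I.map (algebraMap A K)).minimal A).HasMultiplicativeReduction A :=
    fun h => hadd.additiveReduction.ne h.multiplicativeReduction
  have hns : ¬ ((C • I.map (algebraMap A K)).minimal A).HasSplitMultiplicativeReduction A :=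
    fun h => hnm h.toHasMultiplicativeReduction
  unfold WeierstrassCurve.localPolynomial
  rw [if_neg hadd.not_hasGoodReduction, if_neg hns, if_neg hnm]

theorem pos_min (i l : A) (hi : i ^ 2 = -1) (hl : l = 1 + i) (hirr : Irreducible l)
    (w : A) (hw : IsUnit w) (n : ℕ) (hn : 1 ≤ n) (hn3 : n ≤ 3)
    (T : WeierstrassCurve.VariableChange K)
    (hT : (T • (QT.W (l ^ n * w)).map (algebraMap A K)).IsMinimal A) :
    (IsDiscreteValuationRing.maximalIdeal A).valuation K (T.u : K) = 1 := by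
  have h22 := PI.t2b_l2 A hi hl
  have hlp : Prime l := hirr.prime
  have hl0 : l ≠ 0 := hirr.ne_zero
  have hiu : IsUnit i := by
    refine IsUnit.of_mul_eq_one (-i) ?_
    linear_combination -hi
  have hl2 : l ∣ 2 := ⟨-i * l, by linear_combination h22⟩
  have hl1 : ¬ l ∣ 1 := fun h => hirr.not_isUnit (isUnit_of_dvd_one h)
  have h3 : IsUnit (3 : A) := by
    refine PI.t2b_unit A hirr fun h => hl1 ?_
    have h4 := dvd_sub h hl2
    have h5 : (3 : A) - 2 = 1 := by norm_num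
    rwa [h5] at h4
  have h20 : (2 : A) ≠ 0 := by
    rw [h22]
    exact mul_ne_zero (neg_ne_zero.2 hiu.ne_zero) (pow_ne_zero _ hl0)
  have h64 : (64 : A) = 2 ^ 6 := by norm_num
  have hΔ : (QT.W (l ^ n * w)).Δ ≠ 0 := by
    rw [QTS.W_Δ, h64]
    exact mul_ne_zero (pow_ne_zero _ h20) (pow_ne_zero _ (mul_ne_zero (pow_ne_zero _ hl0) hw.ne_zero))
  obtain ⟨u, r, s, t, a1, a2, a3, a4, a6, hu, r1, r2, r3, r4, r6⟩ :=
    QTS.rel A h3 (l ^ n * w) hΔ T hT
  rw [← hu]
  by_cases hlu : l ∣ u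
  swap
  · exact CMT.val_algebraMap_unit A u (PI.t2b_unit A hirr hlu)
  exfalso
  obtain ⟨c, rfl⟩ := hlu
  have d1 : l ∣ t := by
    have h4 : l ^ 3 * (c ^ 3 * a3) = l ^ 2 * (-i * t) := by linear_combination r3 + t * h22
    have h5 : l * (c ^ 3 * a3) = -i * t :=
      mul_left_cancel₀ (pow_ne_zero 2 hl0) (by linear_combination h4)
    have h6 : l ∣ -i * t := ⟨_, h5.symm⟩
    exact (hlp.dvd_or_dvd h6).resolve_left fun h => hirr.not_isUnit (isUnit_of_dvd_unit h hiu.neg)
  obtain ⟨t', rfl⟩ := d1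
  have hlD : l ∣ l ^ n * w := (dvd_pow_self l (by omega)).mul_right w
  have hlr : l ∣ r := by
    have h4 : l ∣ 3 * r ^ 2 := by
      have h5 : 3 * r ^ 2 = l ^ n * w + l * (l ^ 3 * c ^ 4 * a4 - i * l ^ 2 * s * t') := by
        linear_combination -r4 + (l * s * t') * h22
      rw [h5]
      exact dvd_add hlD (dvd_mul_right _ _)
    rcases hlp.dvd_or_dvd h4 with h5 | h5
    · exact absurd (isUnit_of_dvd_unit h5 h3) hlp.not_isUnit
    · exact hlp.dvd_of_dvd_pow h5
  obtain ⟨r', rfl⟩ := hlr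
  have hls : l ∣ s := by
    apply hlp.dvd_of_dvd_pow (n := 2)
    refine ⟨3 * r' - l * c ^ 2 * a2, ?_⟩
    linear_combination r2
  obtain ⟨s', rfl⟩ := hls
  have hlr2 : l ∣ r' := by
    have h5 : l ∣ 3 * r' := by
      refine ⟨s' ^ 2 + c ^ 2 * a2, ?_⟩
      apply mul_left_cancel₀ hl0
      linear_combination -r2
    rcases hlp.dvd_or_dvd h5 with h6 | h6
    · exact absurd (isUnit_of_dvd_unit h6 h3) hlp.not_isUnit
    · exact h6
  obtain ⟨r'', rfl⟩ := hlr2
  have h7 : l ^ n * w = l ^ 4 * (3 * r'' ^ 2 + i * s' * t' - c ^ 4 * a4) := by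
    linear_combination r4 - (l ^ 2 * s' * t') * h22
  have h8 : l ^ n * w = l ^ n * (l ^ (4 - n) * (3 * r'' ^ 2 + i * s' * t' - c ^ 4 * a4)) := by
    rw [← mul_assoc, ← pow_add, show n + (4 - n) = 4 by omega]
    exact h7
  have h9 := mul_left_cancel₀ (pow_ne_zero n hl0) h8
  have h10 : l ∣ w := by
    rw [h9]
    exact (dvd_pow_self l (by omega)).mul_right _
  exact hlp.not_isUnit (isUnit_of_dvd_unit h10 hw)

theorem pos_lp (i l : A) (hi : i ^ 2 = -1) (hl : l = 1 + i) (hirr : Irreducible l)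
    (w : A) (hw : (2 : A) ∣ w ^ 2 - 1) (n : ℕ) (hn : 1 ≤ n) (hn3 : n ≤ 3) (t c : A)
    (hu : IsUnit (t ^ 2 + 4 * c)) (C : WeierstrassCurve.VariableChange K) :
    (C • (QT.W (l ^ n * w * (t ^ 2 + 4 * c) ^ 2)).map (algebraMap A K)).localPolynomial A = 1 := by
  have h22 := PI.t2b_l2 A hi hl
  have hl2 : l ∣ 2 := ⟨-i * l, by linear_combination h22⟩
  have hl1 : ¬ l ∣ 1 := fun h => hirr.not_isUnit (isUnit_of_dvd_one h)
  have hwu : IsUnit w := by
    refine PI.t2b_unit A hirr fun h => hl1 ?_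
    have h3 : l ∣ w ^ 2 - 1 := hl2.trans hw
    have h4 : l ∣ w ^ 2 := h.trans (dvd_pow_self w two_ne_zero)
    have h5 := dvd_sub h4 h3
    rwa [sub_sub_cancel] at h5
  have hwu' : IsUnit (w * (t ^ 2 + 4 * c) ^ 2) := hwu.mul (hu.pow 2)
  rw [mul_assoc]
  have hlD : l ∣ l ^ n * (w * (t ^ 2 + 4 * c) ^ 2) := (dvd_pow_self l (by omega)).mul_right _
  refine localPoly_addC A (QT.W (l ^ n * (w * (t ^ 2 + 4 * c) ^ 2)))
    (fun T hT => pos_min A i l hi hl hirr _ hwu' n hn hn3 T hT) ?_ ?_ C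
  · rw [QTS.W_Δ]
    intro h
    refine hirr.not_isUnit (isUnit_of_dvd_unit ?_ h)
    exact (hlD.trans (dvd_pow_self _ three_ne_zero)).mul_left _
  · rw [QTS.W_c₄]
    intro h
    exact hirr.not_isUnit (isUnit_of_dvd_unit (hlD.mul_left _) h)

end

end QTF
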