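import Pool.Agent.QTF.A1

/-!
# [QTF-A2] additive reduction above `2` over an abstract discrete valuation ring with uniformizer `1 + i`: `D` a unit

`core`: (the residue field is arbitrary of characteristic 2) as in `QTS.unit_la_zero` (QTS/T2b.lean): if the valuation of `u` is not `1` then `l ∣ u` in the relations of `QTS.rel`: `u a₁ = 2 s`, `u² a₂ = 3 r - s²`, `u³ a₃ = 2 T`, `u⁴ a₄ = -D + 3 r² - 2 s T`, `u⁶ a₆ = r³ - D r - T²`.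
`2 = -i l²`, `l² = 2 i`, `l⁴ = -4`, `l⁶ = -8 i`. `T = l τ` (as there). `D ≡ 1 mod l` in all four cases, so `3 r² ≡ 1`, `r ≡ 1 mod l` (`r² - 1 ≡ (r - 1)²`), `s² ≡ 3 r ≡ 1`, `s = 1 + l σ'`, `s² ≡ 1 mod 2`, so `3 r ≡ 1 mod 2`, `r = 1 + 2 ρ`.
`l² τ² = r³ - D r - u⁶ a₆` and `r² - D = -2 r² + 2 s l τ + u⁴ a₄`: modulo `4`, divided by `2`: `i τ² ≡ -1 + l τ mod 2` (`s ≡ 1 mod l`), so `τ² ≡ 1 mod l`, `τ = 1 + l τ₁`. `D = 3 r² - 2 s l τ - u⁴ a₄ ≡ 3 - 2 l ≡ 1 + 2 i mod 4`: this excludes `D ≡ i mod 2` (`l² ∣ 1 + i`) and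
`D ≡ 3 + 2 i mod 4` (`4 ∣ 2`). `D = 1 + 2 i + 4 δ`; modulo `8`: `2 i (1 + 2 l τ₁ + 2 i τ₁²) ≡ (1 + 2 ρ)(-2 i + 4 (ρ + ρ² - δ))`, divided by `4`: with `σ = ρ + τ₁` (`1 - i = - i l`): `δ ≡ σ² - i l σ - i mod 2`.
`D ≡ 5 + 2 i mod 8`: `δ ≡ 1 mod 2`: `σ² - i l σ - l ≡ 0 mod l²`, so `l ∣ σ`, so `l² ∣ l`: contradiction. `D ≡ 5 - 2 i`: `δ ≡ 1 - i`: `σ² - i l σ - 1 ≡ 0 mod l²`, `σ = 1 + l σ₂`, so `l² ∣ i l`: contradiction.
`zero_min`: `t` is a unit (`l ∣ 4 c`); `D (t² + 4c)² = t⁴ D''`, `D'' = D (1 + 4 c')²`, `c' = c / t²`, `D'' - D = 8 D (c' + 2 c'²)`, so `D''` is in the same class; `QT.W (t⁴ D'') = C • QT.W D''` over `K`, `C.u = t⁻¹` of valuation `1`, `T • (C • W) = (T * C) • W`, `core`.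
`zero_lp`: `localPoly_addC`; `Δ = 64 D³ ..`, `c₄ = 48 D ..` are not units.
-/

set_option autoImplicit false

open NumberField IsDedekindDomain Polynomial
open scoped Classical

namespace QTF

section
variable (A : Type) [CommRing A] [IsDomain A] [IsDiscreteValuationRing A] {K : Type} [Field K]
  [Algebra A K] [IsFractionRing A K]

omit [IsDomain A] [IsDiscreteValuationRing A] in
theorem a2_li {i l : A} (hi : i ^ 2 = -1) (hirr : Irreducible l) : ¬ l ∣ i := by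
  intro h
  have hiu : IsUnit i := by
    refine IsUnit.of_mul_eq_one (-i) ?_
    linear_combination -hi
  exact hirr.not_isUnit (isUnit_of_dvd_unit h hiu)

omit [IsDomain A] [IsDiscreteValuationRing A] in
theorem a2_l2 {i l : A} (hi : i ^ 2 = -1) (hl : l = 1 + i) : l ∣ 2 :=
  ⟨-i * l, by rw [hl]; linear_combination (2 + i) * hi⟩

omit [IsDomain A] [IsDiscreteValuationRing A] in
theorem a2_D {i l : A} (hi : i ^ 2 = -1) (hl : l = 1 + i) {D : A}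
    (hD : (2 : A) ∣ D - i ∨ (4 : A) ∣ D - (3 + 2 * i) ∨ (8 : A) ∣ D - (5 + 2 * i) ∨
      (8 : A) ∣ D - (5 - 2 * i)) : l ∣ D - 1 := by
  have hl2 := a2_l2 A hi hl
  rcases hD with ⟨e, he⟩ | ⟨e, he⟩ | ⟨e, he⟩ | ⟨e, he⟩
  · have : D - 1 = 2 * e + l * i := by rw [hl]; linear_combination he - hi
    rw [this]
    exact dvd_add (hl2.mul_right e) (dvd_mul_right _ _)
  · have : D - 1 = 2 * (2 * e + 1 + i) := by linear_combination he
    rw [this]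
    exact hl2.mul_right _
  · have : D - 1 = 2 * (4 * e + 2 + i) := by linear_combination he
    rw [this]
    exact hl2.mul_right _
  · have : D - 1 = 2 * (4 * e + 2 - i) := by linear_combination he
    rw [this]
    exact hl2.mul_right _

theorem a2_alg {i : A} (hi : i ^ 2 = -1) (hirr : Irreducible (1 + i)) {D : A}
    (hD : (2 : A) ∣ D - i ∨ (4 : A) ∣ D - (3 + 2 * i) ∨ (8 : A) ∣ D - (5 + 2 * i) ∨
      (8 : A) ∣ D - (5 - 2 * i)) (w r s t a2 a3 a4 a6 : A)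
    (r2 : ((1 + i) * w) ^ 2 * a2 = 3 * r - s ^ 2) (r3 : ((1 + i) * w) ^ 3 * a3 = 2 * t)
    (r4 : ((1 + i) * w) ^ 4 * a4 = -D + 3 * r ^ 2 - 2 * s * t)
    (r6 : ((1 + i) * w) ^ 6 * a6 = r ^ 3 - D * r - t ^ 2) : False := by
  have hl0 : (1 + i : A) ≠ 0 := hirr.ne_zero
  have hlp : Prime (1 + i : A) := hirr.prime
  have hl1 : ¬ (1 + i : A) ∣ 1 := fun h => hirr.not_isUnit (isUnit_of_dvd_one h)
  have hli : ¬ (1 + i : A) ∣ i := a2_li A hi hirr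
  have hl2 : (1 + i : A) ∣ 2 := a2_l2 A hi rfl
  have h22 : (2 : A) = -i * (1 + i) ^ 2 := by linear_combination (2 + i) * hi
  have hi0 : i ≠ 0 := by
    rintro rfl
    exact hli (dvd_zero _)
  have h20 : (2 : A) ≠ 0 := by
    rw [h22]
    exact mul_ne_zero (neg_ne_zero.2 hi0) (pow_ne_zero _ hl0)
  have h40 : (4 : A) ≠ 0 := by
    have : (4 : A) = 2 * 2 := by norm_num
    rw [this]
    exact mul_ne_zero h20 h20
  have hD1 : (1 + i : A) ∣ D - 1 := a2_D A hi rfl hD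
  have hsq : ∀ x : A, (1 + i) ∣ x ^ 2 - 1 → ∃ y, x = 1 + (1 + i) * y := by
    intro x hx
    have h1 : (1 + i) ∣ (x - 1) ^ 2 := by
      have : (x - 1) ^ 2 = (x ^ 2 - 1) - 2 * (x - 1) := by ring
      rw [this]
      exact dvd_sub hx (hl2.mul_right _)
    obtain ⟨y, hy⟩ := hlp.dvd_of_dvd_pow h1
    exact ⟨y, by linear_combination hy⟩
  -- `t = l τ`
  have d1 : (1 + i) ∣ t := by
    have h5 : (1 + i) * (w ^ 3 * a3) = -i * t :=
      mul_left_cancel₀ (pow_ne_zero 2 hl0) (by linear_combination r3 + (i * t + 2 * t) * hi)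
    have h6 : (1 + i) ∣ -i * t := ⟨_, h5.symm⟩
    rcases hlp.dvd_or_dvd h6 with h | h
    · exact absurd ((dvd_neg.1 h)) hli
    · exact h
  obtain ⟨τ, rfl⟩ := d1
  -- `r = 1 + l r₁`
  have d2 : (1 + i) ∣ r ^ 2 - 1 := by
    have h1 : r ^ 2 - 1 = (1 + i) * (2 * s * τ + (1 + i) ^ 3 * w ^ 4 * a4) + (D - 1) -
        2 * r ^ 2 := by
      linear_combination -r4
    rw [h1]
    exact dvd_sub (dvd_add (dvd_mul_right _ _) hD1) (hl2.mul_right _)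
  obtain ⟨r₁, hr₁⟩ := hsq r d2
  have d3 : (1 + i) ∣ s ^ 2 - 1 := by
    have h1 : s ^ 2 - 1 = (1 + i) * (3 * r₁) + 2 - (1 + i) * ((1 + i) * w ^ 2 * a2) := by
      linear_combination r2 + 3 * hr₁
    rw [h1]
    exact dvd_sub (dvd_add (dvd_mul_right _ _) hl2) (dvd_mul_right _ _)
  obtain ⟨s₁, rfl⟩ := hsq s d3
  obtain ⟨ρ, hρ⟩ : ∃ ρ, r = 1 + 2 * ρ := by
    refine ⟨(1 + i) * s₁ + i * s₁ ^ 2 + i * w ^ 2 * a2 - r, ?_⟩
    linear_combination -r2 + (a2 * w ^ 2 + s₁ ^ 2) * hi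
  have hE : i * τ ^ 2 = r * (-r ^ 2 + (1 + (1 + i) * s₁) * (1 + i) * τ - 2 * w ^ 4 * a4) +
      4 * i * w ^ 6 * a6 := by
    apply mul_left_cancel₀ h20
    linear_combination r6 - r * r4 + (4 * a4 * i * r * w ^ 4 + a4 * i ^ 2 * r * w ^ 4 +
      5 * a4 * r * w ^ 4 - 14 * a6 * i * w ^ 6 - 14 * a6 * i ^ 2 * w ^ 6 - 6 * a6 * i ^ 3 * w ^ 6 -
      a6 * i ^ 4 * w ^ 6 - a6 * w ^ 6 - τ ^ 2) * hi
  subst hρ
  have d4 : (1 + i) ∣ τ ^ 2 - 1 := by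
    have h1 : τ ^ 2 - 1 = (1 + i) * (τ ^ 2 - (1 + 2 * ρ) * (1 + (1 + i) * s₁) * τ) +
        2 * (3 * ρ + 6 * ρ ^ 2 + 4 * ρ ^ 3 + (1 + 2 * ρ) * w ^ 4 * a4 - 2 * i * w ^ 6 * a6) := by
      linear_combination -hE
    rw [h1]
    exact dvd_add (dvd_mul_right _ _) (hl2.mul_right _)
  obtain ⟨τ₁, rfl⟩ := hsq τ d4
  obtain ⟨δ, hδ⟩ : ∃ δ, D = 1 + 2 * i + 4 * δ := by
    refine ⟨-i + 3 * ρ + 3 * ρ ^ 2 - i * (s₁ + τ₁) - i * (1 + i) * s₁ * τ₁ + w ^ 4 * a4, ?_⟩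
    linear_combination r4 + (-4 * a4 * i * w ^ 4 - a4 * i ^ 2 * w ^ 4 - 5 * a4 * w ^ 4 -
      2 * i * s₁ * τ₁ - 2 * s₁ - 2 * s₁ * τ₁ - 2 * τ₁) * hi
  have hH : i + i * (1 + i) * τ₁ - τ₁ ^ 2 - ρ - ρ ^ 2 + δ + i * ρ - 2 * ρ ^ 2 - 2 * ρ ^ 3 +
      2 * ρ * δ = 2 * i * w ^ 6 * a6 := by
    apply mul_left_cancel₀ h40
    rw [hδ] at r6
    linear_combination r6 + (-1 - 14 * a6 * i * w ^ 6 - 14 * a6 * i ^ 2 * w ^ 6 -
      6 * a6 * i ^ 3 * w ^ 6 - a6 * i ^ 4 * w ^ 6 - a6 * w ^ 6 - 2 * i * τ₁ - 4 * i * τ₁ ^ 2 -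
      i ^ 2 * τ₁ ^ 2 - 2 * τ₁ - 5 * τ₁ ^ 2) * hi
  rcases hD with ⟨e, he⟩ | ⟨e, he⟩ | ⟨e, he⟩ | ⟨e, he⟩
  · apply hl1
    have h2 : (1 + i) * (1 : A) = (1 + i) * ((1 + i) * (-i * (e - 2 * δ))) := by
      linear_combination he - hδ + (2 * e + e * i - 2 * i * δ - 4 * δ) * hi
    exact ⟨_, mul_left_cancel₀ hl0 h2⟩
  · apply hl1
    have h1 : (2 : A) * 1 = 2 * (2 * (δ - e)) := by linear_combination hδ - he
    have h2 := mul_left_cancel₀ h20 h1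
    have h3 : (1 + i) ∣ 2 * (δ - e) := hl2.mul_right _
    rwa [← h2] at h3
  · have hδ' : δ = 1 + 2 * e := by
      apply mul_left_cancel₀ h40
      linear_combination he - hδ
    obtain ⟨X, hX⟩ : ∃ X, X = e - ρ ^ 2 - ρ ^ 3 + ρ * δ - i * w ^ 6 * a6 + ρ * τ₁ := ⟨_, rfl⟩
    have h1 : (ρ + τ₁) ^ 2 = (1 + i) * (1 + i * (ρ + τ₁) - i * (1 + i) * X) := by
      linear_combination -hH + hδ' + (i * (1 + i) ^ 2) * hX + (-2 * a6 * i * w ^ 6 - a6 * i ^ 2 * w ^ 6 + 2 * e + e * i +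
        i * δ * ρ + i * ρ * τ₁ - i * ρ ^ 2 - i * ρ ^ 3 + 2 * δ * ρ - ρ + 2 * ρ * τ₁ - 2 * ρ ^ 2 -
        2 * ρ ^ 3) * hi
    obtain ⟨σ₂, hσ⟩ := hlp.dvd_of_dvd_pow (Dvd.intro _ h1.symm)
    apply hl1
    rw [hσ] at h1
    have h2 : (1 + i) * (1 : A) = (1 + i) * ((1 + i) * (σ₂ ^ 2 - i * σ₂ + i * X)) := by
      linear_combination -h1
    exact ⟨_, mul_left_cancel₀ hl0 h2⟩
  · have hδ' : δ = 1 - i + 2 * e := by
      apply mul_left_cancel₀ h40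
      linear_combination he - hδ
    obtain ⟨X, hX⟩ : ∃ X, X = e - ρ ^ 2 - ρ ^ 3 + ρ * δ - i * w ^ 6 * a6 + ρ * τ₁ := ⟨_, rfl⟩
    have h1 : (ρ + τ₁) ^ 2 - 1 = (1 + i) * (i * (ρ + τ₁) - i * (1 + i) * X) := by
      linear_combination -hH + hδ' + (i * (1 + i) ^ 2) * hX + (-2 * a6 * i * w ^ 6 - a6 * i ^ 2 * w ^ 6 + 2 * e + e * i +
        i * δ * ρ + i * ρ * τ₁ - i * ρ ^ 2 - i * ρ ^ 3 + 2 * δ * ρ - ρ + 2 * ρ * τ₁ - 2 * ρ ^ 2 -
        2 * ρ ^ 3) * hi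
    obtain ⟨σ₂, hσ⟩ := hsq _ (Dvd.intro _ h1.symm)
    apply hli
    rw [hσ] at h1
    have h2 : (1 + i) * i = (1 + i) * ((1 + i) * (-i * (1 + i) * σ₂ + σ₂ ^ 2 - i * σ₂ + i * X)) := by
      linear_combination -h1 + (3 * i * σ₂ + i ^ 2 * σ₂ + 2 * σ₂) * hi
    exact ⟨_, mul_left_cancel₀ hl0 h2⟩

theorem core (i l : A) (hi : i ^ 2 = -1) (hl : l = 1 + i) (hirr : Irreducible l) (D : A)
    (hD : (2 : A) ∣ D - i ∨ (4 : A) ∣ D - (3 + 2 * i) ∨ (8 : A) ∣ D - (5 + 2 * i) ∨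
      (8 : A) ∣ D - (5 - 2 * i))
    (T : WeierstrassCurve.VariableChange K) (hT : (T • (QT.W D).map (algebraMap A K)).IsMinimal A) :
    (IsDiscreteValuationRing.maximalIdeal A).valuation K (T.u : K) = 1 := by
  have hl1 : ¬ l ∣ 1 := fun h => hirr.not_isUnit (isUnit_of_dvd_one h)
  have hl2 := a2_l2 A hi hl
  have hli : ¬ l ∣ i := a2_li A hi hirr
  have h3 : IsUnit (3 : A) := by
    refine PI.t2b_unit A hirr fun h => hl1 ?_
    have h4 := dvd_sub h hl2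
    have h5 : (3 : A) - 2 = 1 := by norm_num
    rwa [h5] at h4
  have h22 := PI.t2b_l2 A hi hl
  have hi0 : i ≠ 0 := by
    rintro rfl
    exact hli (dvd_zero _)
  have h20 : (2 : A) ≠ 0 := by
    rw [h22]
    exact mul_ne_zero (neg_ne_zero.2 hi0) (pow_ne_zero _ hirr.ne_zero)
  have h64 : (64 : A) = 2 ^ 6 := by norm_num
  have hD0 : D ≠ 0 := by
    rintro rfl
    have h4 := a2_D A hi hl hD
    rw [zero_sub, dvd_neg] at h4
    exact hl1 h4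
  have hΔ : (QT.W D).Δ ≠ 0 := by
    rw [QTS.W_Δ, h64]
    exact mul_ne_zero (pow_ne_zero _ h20) (pow_ne_zero _ hD0)
  obtain ⟨u, r, s, t, a1, a2, a3, a4, a6, hu, r1, r2, r3, r4, r6⟩ := QTS.rel A h3 D hΔ T hT
  rw [← hu]
  by_cases hlu : l ∣ u
  swap
  · exact CMT.val_algebraMap_unit A u (PI.t2b_unit A hirr hlu)
  exfalso
  obtain ⟨w, rfl⟩ := hlu
  subst hl
  exact a2_alg A hi hirr hD w r s t a2 a3 a4 a6 r2 r3 r4 r6

theorem zero_min (i l : A) (hi : i ^ 2 = -1) (hl : l = 1 + i) (hirr : Irreducible l) (D : A)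
    (hD : (2 : A) ∣ D - i ∨ (4 : A) ∣ D - (3 + 2 * i) ∨ (8 : A) ∣ D - (5 + 2 * i) ∨
      (8 : A) ∣ D - (5 - 2 * i)) (t c : A) (hu : IsUnit (t ^ 2 + 4 * c))
    (T : WeierstrassCurve.VariableChange K)
    (hT : (T • (QT.W (D * (t ^ 2 + 4 * c) ^ 2)).map (algebraMap A K)).IsMinimal A) :
    (IsDiscreteValuationRing.maximalIdeal A).valuation K (T.u : K) = 1 := by
  have hl2 := a2_l2 A hi hl
  have ht : IsUnit t := by
    refine PI.t2b_unit A hirr fun h => hirr.not_isUnit ?_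
    have h4 : l ∣ t ^ 2 + 4 * c := by
      have h5 : t ^ 2 + 4 * c = t * t + 2 * (2 * c) := by ring
      rw [h5]
      exact dvd_add (h.mul_right t) (hl2.mul_right _)
    exact isUnit_of_dvd_unit h4 hu
  obtain ⟨t', ht'⟩ := ht.exists_right_inv
  have hD'' : (2 : A) ∣ D * (1 + 4 * (c * t' ^ 2)) ^ 2 - i ∨
      (4 : A) ∣ D * (1 + 4 * (c * t' ^ 2)) ^ 2 - (3 + 2 * i) ∨
      (8 : A) ∣ D * (1 + 4 * (c * t' ^ 2)) ^ 2 - (5 + 2 * i) ∨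
      (8 : A) ∣ D * (1 + 4 * (c * t' ^ 2)) ^ 2 - (5 - 2 * i) := by
    rcases hD with ⟨e, he⟩ | ⟨e, he⟩ | ⟨e, he⟩ | ⟨e, he⟩
    · exact Or.inl ⟨e + 4 * D * ((c * t' ^ 2) + 2 * (c * t' ^ 2) ^ 2), by linear_combination he⟩
    · exact Or.inr (Or.inl ⟨e + 2 * D * ((c * t' ^ 2) + 2 * (c * t' ^ 2) ^ 2), by
        linear_combination he⟩)
    · exact Or.inr (Or.inr (Or.inl ⟨e + D * ((c * t' ^ 2) + 2 * (c * t' ^ 2) ^ 2), by
        linear_combination he⟩))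
    · exact Or.inr (Or.inr (Or.inr ⟨e + D * ((c * t' ^ 2) + 2 * (c * t' ^ 2) ^ 2), by
        linear_combination he⟩))
  have htK : algebraMap A K t' * algebraMap A K t = 1 := by
    rw [← map_mul, mul_comm, ht', map_one]
  have htK2 : algebraMap A K t * algebraMap A K t' = 1 := by
    rw [← map_mul, ht', map_one]
  set C : WeierstrassCurve.VariableChange K :=
    ⟨⟨algebraMap A K t', algebraMap A K t, htK, htK2⟩, 0, 0, 0⟩ with hC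
  have hW : (QT.W (D * (t ^ 2 + 4 * c) ^ 2)).map (algebraMap A K) =
      C • (QT.W (D * (1 + 4 * (c * t' ^ 2)) ^ 2)).map (algebraMap A K) := by
    have h5 : D * (t ^ 2 + 4 * c) ^ 2 = t ^ 4 * (D * (1 + 4 * (c * t' ^ 2)) ^ 2) := by
      have h6 : t ^ 2 + 4 * c = t ^ 2 * (1 + 4 * (c * t' ^ 2)) := by
        linear_combination (-4 * c * (t * t' + 1)) * ht'
      rw [h6]
      ring
    rw [h5, QTS.W_map, QTS.W_map]
    have hinv : ((C.u⁻¹ : Kˣ) : K) = algebraMap A K t := rfl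
    ext
    · simp [QT.W, WeierstrassCurve.variableChange_a₁, hC]
    · simp [QT.W, WeierstrassCurve.variableChange_a₂, hC]
    · simp [QT.W, WeierstrassCurve.variableChange_a₃, hC]
    · rw [WeierstrassCurve.variableChange_a₄, hinv]
      simp only [QT.W, hC, map_mul, map_pow]
      ring
    · simp [QT.W, WeierstrassCurve.variableChange_a₆, hC]
  rw [hW, ← mul_smul] at hT
  have h1 := core A i l hi hl hirr _ hD'' _ hT
  have h2 : ((T * C).u : K) = (T.u : K) * algebraMap A K t' := by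
    rw [WeierstrassCurve.VariableChange.mul_def]
    simp [hC]
  rw [h2, map_mul] at h1
  have ht'u : IsUnit t' := IsUnit.of_mul_eq_one t (by rw [mul_comm]; exact ht')
  rw [CMT.val_algebraMap_unit A t' ht'u, mul_one] at h1
  exact h1

theorem zero_lp (i l : A) (hi : i ^ 2 = -1) (hl : l = 1 + i) (hirr : Irreducible l) (D : A)
    (hD : (2 : A) ∣ D - i ∨ (4 : A) ∣ D - (3 + 2 * i) ∨ (8 : A) ∣ D - (5 + 2 * i) ∨
      (8 : A) ∣ D - (5 - 2 * i)) (t c : A) (hu : IsUnit (t ^ 2 + 4 * c))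
    (C : WeierstrassCurve.VariableChange K) :
    (C • (QT.W (D * (t ^ 2 + 4 * c) ^ 2)).map (algebraMap A K)).localPolynomial A = 1 := by
  have hl2 := a2_l2 A hi hl
  refine localPoly_addC A (QT.W (D * (t ^ 2 + 4 * c) ^ 2))
    (fun T hT => zero_min A i l hi hl hirr D hD t c hu T hT) ?_ ?_ C
  · rw [QTS.W_Δ]
    intro h
    have h2 : (2 : A) ∣ 64 * (D * (t ^ 2 + 4 * c) ^ 2) ^ 3 :=
      ⟨32 * (D * (t ^ 2 + 4 * c) ^ 2) ^ 3, by ring⟩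
    exact hirr.not_isUnit (isUnit_of_dvd_unit (hl2.trans h2) h)
  · rw [QTS.W_c₄]
    intro h
    have h2 : (2 : A) ∣ 48 * (D * (t ^ 2 + 4 * c) ^ 2) :=
      ⟨24 * (D * (t ^ 2 + 4 * c) ^ 2), by ring⟩
    exact hirr.not_isUnit (isUnit_of_dvd_unit (hl2.trans h2) h)

end

end QTF
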