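import Pool.Agent.QTF.Defs
import Pool.Agent.QTS.G2p

/-!
# [QTF-A3] good reduction above `2` over an abstract discrete valuation ring with uniformizer `1 + i` and finite residue field

`D' = D (t² + 4c)² = t⁴ D''`, `t` a unit (`l ∣ 4 c`), `D'' = D (1 + 4c')²`, `c' = c/t²`: `D'' = 1 ± 2i + 8 m''`, `m'' = m + c' D (1 + 2 c')`, `m'' ≡ m + c' mod l` (`D ≡ 1 mod l`). `QT.W D' = C₁ • QT.W D''` over `K` (`C₁.u = t⁻¹`).
The good model of `QT.W D''`: `QTS.good_model` (QTS/G1.lean) has the assumption `h2` (residue field with two elements) which is not needed (`QTS.g1_smul`, `QTS.g1_smul'`, `QTS.g1_disc` do not have it: copy the proof); `GE.localPoly_good A I hΔ ..` for any variable change; the reduced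
curve is `⟨0, 1, 1, 0, m''⟩` over the residue field (as in `QTS.sp_localPoly`, QTS/G2p.lean), `Wa`.
-/

set_option autoImplicit false

open NumberField IsDedekindDomain Polynomial
open scoped Classical

namespace QTF

section
variable (A : Type) [CommRing A] [IsDomain A] [IsDiscreteValuationRing A] {K : Type} [Field K]
  [Algebra A K] [IsFractionRing A K]

variable (K) in
theorem a3_good_model (i l : A) (hi : i ^ 2 = -1) (hl : l = 1 + i)
    (hirr : Irreducible l) (D m : A)
    (hD : D = 1 + 2 * i + 8 * m ∨ D = 1 - 2 * i + 8 * m) :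
    ∃ (T : WeierstrassCurve.VariableChange K) (I : WeierstrassCurve A),
      T • QT.W (algebraMap A K D) = I.map (algebraMap A K) ∧
      (T.u : K) = algebraMap A K l ∧ IsUnit I.Δ ∧ l ∣ I.a₁ ∧ l ∣ I.a₂ - 1 ∧ l ∣ I.a₃ - 1 ∧
      l ∣ I.a₄ ∧ l ∣ I.a₆ - m := by
  have hinj : Function.Injective (algebraMap A K) := IsFractionRing.injective A K
  have hl0 : algebraMap A K l ≠ 0 := (map_ne_zero_iff _ hinj).2 hirr.ne_zero
  have hi' : (algebraMap A K i) ^ 2 = -1 := by
    rw [← map_pow, hi, map_neg, map_one]
  have hl' : algebraMap A K l = 1 + algebraMap A K i := by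
    rw [hl, map_add, map_one]
  have hll : l ∣ 2 := ⟨1 - i, by rw [hl]; linear_combination hi⟩
  have hDu : IsUnit D := by
    refine QTS.g1_unit l hirr D ?_
    obtain ⟨b, hb⟩ := hll
    rcases hD with h | h
    · exact ⟨b * (i + 4 * m), by rw [h]; linear_combination (i + 4 * m) * hb⟩
    · exact ⟨b * (-i + 4 * m), by rw [h]; linear_combination (-i + 4 * m) * hb⟩
  rcases hD with h | h
  · have hD' : algebraMap A K D = 1 + 2 * algebraMap A K i + 8 * algebraMap A K m := by
      rw [h]
      simp only [map_add, map_mul, map_one, map_ofNat]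
    have hT : (⟨Units.mk0 (algebraMap A K l) hl0, 1, 1, -1 + algebraMap A K i⟩ :
        WeierstrassCurve.VariableChange K) • QT.W (algebraMap A K D) =
        (⟨1 - i, -i, 1, -1 + i + 2 * m, -i * m⟩ : WeierstrassCurve A).map (algebraMap A K) := by
      rw [QTS.g1_smul _ _ _ _ hi' hl' hl0 hD']
      simp only [WeierstrassCurve.map, map_sub, map_one, map_neg, map_add, map_mul, map_ofNat]
    refine ⟨_, _, hT, rfl, QTS.g1_disc A K i l hi hl hirr D hDu hl0 _ rfl _ hT, ?_, ?_, ?_, ?_, ?_⟩
    · exact ⟨-i, by rw [hl]; linear_combination hi⟩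
    · exact ⟨-1, by rw [hl]; ring⟩
    · exact ⟨0, by ring⟩
    · obtain ⟨b, hb⟩ := hll
      exact ⟨i + b * m, by
        show -1 + i + 2 * m = l * (i + b * m)
        rw [mul_add, ← mul_assoc, ← hb, hl]
        linear_combination -hi⟩
    · exact ⟨-m, by
        show -i * m - m = l * -m
        rw [hl]
        ring⟩
  · have hD' : algebraMap A K D = 1 - 2 * algebraMap A K i + 8 * algebraMap A K m := by
      rw [h]
      simp only [map_add, map_sub, map_mul, map_one, map_ofNat]
    have hT : (⟨Units.mk0 (algebraMap A K l) hl0, 1, 1, -1 - algebraMap A K i⟩ :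
        WeierstrassCurve.VariableChange K) • QT.W (algebraMap A K D) =
        (⟨1 - i, -i, i, -1 - i + 2 * m, -i * m⟩ : WeierstrassCurve A).map (algebraMap A K) := by
      rw [QTS.g1_smul' _ _ _ _ hi' hl' hl0 hD']
      simp only [WeierstrassCurve.map, map_sub, map_one, map_neg, map_add, map_mul, map_ofNat]
    refine ⟨_, _, hT, rfl, QTS.g1_disc A K i l hi hl hirr D hDu hl0 _ rfl _ hT, ?_, ?_, ?_, ?_, ?_⟩
    · exact ⟨-i, by rw [hl]; linear_combination hi⟩
    · exact ⟨-1, by rw [hl]; ring⟩
    · exact ⟨i, by rw [hl]; linear_combination -hi⟩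
    · obtain ⟨b, hb⟩ := hll
      exact ⟨-1 + b * m, by
        show -1 - i + 2 * m = l * (-1 + b * m)
        rw [mul_add, ← mul_assoc, ← hb, hl]
        ring⟩
    · exact ⟨-m, by
        show -i * m - m = l * -m
        rw [hl]
        ring⟩


theorem spec_lp [Finite (IsLocalRing.ResidueField A)] (i l : A) (hi : i ^ 2 = -1) (hl : l = 1 + i)
    (hirr : Irreducible l) (D m t c : A) (hD : Spec i D m) (hu : IsUnit (t ^ 2 + 4 * c))
    (C : WeierstrassCurve.VariableChange K) :
    (C • (QT.W (D * (t ^ 2 + 4 * c) ^ 2)).map (algebraMap A K)).localPolynomial A =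
      1 - Polynomial.C (ct (IsLocalRing.ResidueField A)
        (Wa (IsLocalRing.residue A m + IsLocalRing.residue A c / IsLocalRing.residue A t ^ 2))) * X
      + Polynomial.C (Nat.card (IsLocalRing.ResidueField A) : ℤ) * X ^ 2 := by
  have hinj : Function.Injective (algebraMap A K) := IsFractionRing.injective A K
  have hl2 : IsLocalRing.residue A 2 = 0 :=
    (QTS.g2p_res l hirr 2).2 ⟨1 - i, by rw [hl]; linear_combination hi⟩
  have hr2 : (2 : IsLocalRing.ResidueField A) = 0 := by rw [← hl2, map_ofNat]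
  have hrD : IsLocalRing.residue A D = 1 := by
    rcases hD with h | h
    · rw [h]
      simp only [map_add, map_mul, map_one, map_ofNat]
      linear_combination (IsLocalRing.residue A i + 4 * IsLocalRing.residue A m) * hr2
    · rw [h]
      simp only [map_add, map_sub, map_mul, map_one, map_ofNat]
      linear_combination (-IsLocalRing.residue A i + 4 * IsLocalRing.residue A m) * hr2
  have hrt : IsLocalRing.residue A t ≠ 0 := by
    intro h0
    apply (hu.map (IsLocalRing.residue A)).ne_zero
    simp only [map_add, map_pow, map_mul, map_ofNat, h0]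
    linear_combination (2 * IsLocalRing.residue A c) * hr2
  have ht : IsUnit t := (IsLocalRing.residue_ne_zero_iff_isUnit t).1 hrt
  obtain ⟨u, rfl⟩ := ht
  set c' : A := c * ((u⁻¹ : Aˣ) : A) ^ 2 with hc'
  have hcc : c' * (u : A) ^ 2 = c := by
    rw [hc', mul_assoc, ← mul_pow, Units.inv_mul, one_pow, mul_one]
  set D' : A := D * (1 + 4 * c') ^ 2 with hD'
  set m' : A := m + c' * D * (1 + 2 * c') with hm'
  have hS : D' = 1 + 2 * i + 8 * m' ∨ D' = 1 - 2 * i + 8 * m' := by
    rcases hD with h | h
    · left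
      rw [hD', hm']
      linear_combination h
    · right
      rw [hD', hm']
      linear_combination h
  have hDD : D * ((u : A) ^ 2 + 4 * c) ^ 2 = (u : A) ^ 4 * D' := by
    rw [hD', ← hcc]
    ring
  obtain ⟨T, I, hT, -, hΔ, ha1, ha2, ha3, ha4, ha6⟩ := a3_good_model A K i l hi hl hirr D' m' hS
  have hut : algebraMap A K (u : A) ≠ 0 := (map_ne_zero_iff _ hinj).2 u.ne_zero
  set C₁ : WeierstrassCurve.VariableChange K := ⟨(Units.mk0 (algebraMap A K (u : A)) hut)⁻¹, 0, 0, 0⟩ with hC₁
  have hW : (QT.W (D * ((u : A) ^ 2 + 4 * c) ^ 2)).map (algebraMap A K) = C₁ • QT.W (algebraMap A K D') := by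
    have hinv : ((C₁.u⁻¹ : Kˣ) : K) = algebraMap A K (u : A) := by
      rw [hC₁]
      simp only [inv_inv, Units.val_mk0]
    ext
    · rw [WeierstrassCurve.variableChange_a₁, WeierstrassCurve.map_a₁]
      simp only [QT.W, hC₁, map_zero]
      ring
    · rw [WeierstrassCurve.variableChange_a₂, WeierstrassCurve.map_a₂]
      simp only [QT.W, hC₁, map_zero]
      ring
    · rw [WeierstrassCurve.variableChange_a₃, WeierstrassCurve.map_a₃]
      simp only [QT.W, hC₁, map_zero]
      ring
    · rw [WeierstrassCurve.variableChange_a₄, WeierstrassCurve.map_a₄, hinv]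
      simp only [QT.W, hC₁]
      rw [map_neg, hDD, map_mul, map_pow]
      ring
    · rw [WeierstrassCurve.variableChange_a₆, WeierstrassCurve.map_a₆]
      simp only [QT.W, hC₁, map_zero]
      ring
  have h1 := GE.localPoly_good A (K := K) I hΔ (C * C₁ * T⁻¹)
  rw [← hT, mul_smul, inv_smul_smul, mul_smul, ← hW] at h1
  have hI : I.map (IsLocalRing.residue A) =
      Wa (IsLocalRing.residue A m + IsLocalRing.residue A c / IsLocalRing.residue A (u : A) ^ 2) := by
    unfold Wa
    ext
    · rw [WeierstrassCurve.map_a₁]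
      exact (QTS.g2p_res l hirr _).2 ha1
    · rw [WeierstrassCurve.map_a₂]
      have := (QTS.g2p_res l hirr _).2 ha2
      rw [map_sub, map_one, sub_eq_zero] at this
      exact this
    · rw [WeierstrassCurve.map_a₃]
      have := (QTS.g2p_res l hirr _).2 ha3
      rw [map_sub, map_one, sub_eq_zero] at this
      exact this
    · rw [WeierstrassCurve.map_a₄]
      exact (QTS.g2p_res l hirr _).2 ha4
    · rw [WeierstrassCurve.map_a₆]
      have h2 := (QTS.g2p_res l hirr _).2 ha6
      rw [map_sub, sub_eq_zero] at h2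
      rw [h2, hm']
      have h3 : IsLocalRing.residue A c' = IsLocalRing.residue A c / IsLocalRing.residue A (u : A) ^ 2 := by
        rw [eq_div_iff (pow_ne_zero _ hrt), ← map_pow, ← map_mul, hcc]
      simp only [map_add, map_mul, map_one, map_ofNat, hrD, ← h3]
      linear_combination (IsLocalRing.residue A c' ^ 2) * hr2
  rw [hI] at h1
  exact h1

end

end QTF
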