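import Pool.Agent.QTF.Defs
import Pool.Agent.QTF.E1
import Pool.Agent.PI.S2
import Pool.Agent.QTS.S2

/-!
# [QTF-E2] the number of points of `y² = x³ - D x` over a quadratic extension of finite fields, odd characteristic

`χ = quadraticChar k`, `#E(k) = q + 1 + ∑_x χ(x³ - D x)` (`ct k = - ∑_x χ(x³ - D x)`; model: the beginning of the proof of `PI.card_W_char`, PI/S2.lean, or `TT`/`TR` for the number of points of `y² = f(x)`).
Over `k'`: `χ'(z) = χ(N z)` (`χ'(z) = z^((q²-1)/2) = (z^(q+1))^((q-1)/2)`). For `x ∈ k'` with trace `a` and norm `n`: `N(x³ - D x) = n ((D + n)² - a² D)`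
(`N(x² - D) = (x² - D)(x^(2q) - D) = n² - D (a² - 2n) + D²`). For `x, y ∈ k`: `(x³ - D x)(y³ - D y) = n ((D + n)² - a² D)` with `a = x + y`, `n = x y`. So with `g a n = χ(n ((D + n)² - a² D))` `pair_count` (E1) gives
`S' + S² = 2 ∑_n χ(n) ∑_a χ((D + n)² - a² D)`. For `c = D + n ≠ 0`: `∑_a χ(c² - D a²) = -χ(-D)`; for `c = 0`: `χ(-D) (q - 1)`. So the double sum is `-χ(-D) ∑_{n ≠ -D} χ(n) + χ(-D)² (q - 1) = χ(-D)² + q - 1 = q`, i. e. `S' = 2 q - S²`.
-/

set_option autoImplicit false

open scoped Classical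

namespace QTF

section
variable (k : Type) [Field k] [Fintype k] (h2 : (2 : k) ≠ 0)
include h2

/-- [QTF-E2a] -/
theorem ct_odd {D : k} (hD : D ≠ 0) :
    ct k (QT.W D) = - ∑ x : k, quadraticChar k (x ^ 3 - D * x) := by
  have hrc := PI.s2_ringChar h2
  have h1 : ∀ x : k, ((Finset.univ.filter (fun y : k => y ^ 2 = x ^ 3 - D * x)).card : ℤ) =
      quadraticChar k (x ^ 3 - D * x) + 1 := by
    intro x
    rw [← quadraticChar_card_sqrts hrc]
    congr 2
    ext y
    simp
  unfold ct
  rw [QTS.s2_card k h2 D hD, Nat.card_eq_fintype_card]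
  push_cast
  rw [Finset.sum_congr rfl fun x _ => h1 x, Finset.sum_add_distrib, Finset.sum_const, Finset.card_univ,
    nsmul_eq_mul]
  ring

theorem e2_ne_one : quadraticChar k ≠ 1 := quadraticChar_ne_one (PI.s2_ringChar h2)

theorem e2_sum_sq (f : k → ℤ) : ∑ a : k, f (a ^ 2) = ∑ v : k, (quadraticChar k v + 1) * f v := by
  have hrc := PI.s2_ringChar h2
  rw [← Finset.sum_fiberwise Finset.univ (fun a : k => a ^ 2) (fun a => f (a ^ 2))]
  refine Finset.sum_congr rfl fun v _ => ?_
  rw [← quadraticChar_card_sqrts hrc]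
  have h1 : ∀ a ∈ Finset.univ.filter (fun a : k => a ^ 2 = v), f (a ^ 2) = f v := fun a ha => by
    rw [(Finset.mem_filter.1 ha).2]
  rw [Finset.sum_congr rfl h1, Finset.sum_const, nsmul_eq_mul]
  congr 3
  ext y
  simp

/-- [QTF-E2b] -/
theorem sum_conic {c D : k} (hc : c ≠ 0) (hD : D ≠ 0) :
    ∑ a : k, quadraticChar k (c ^ 2 - D * a ^ 2) = - quadraticChar k (-D) := by
  rw [e2_sum_sq k h2 (fun v => quadraticChar k (c ^ 2 - D * v))]
  have h1 : ∑ v : k, quadraticChar k (c ^ 2 - D * v) = 0 := by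
    rw [← MulChar.sum_eq_zero_of_ne_one (e2_ne_one k h2)]
    exact Equiv.sum_comp ((Equiv.mulLeft₀ D hD).trans (Equiv.subLeft (c ^ 2))) (fun v => quadraticChar k v)
  have h3 : ∑ v : k, quadraticChar k v * quadraticChar k (c ^ 2 - D * v) =
      quadraticChar k D * jacobiSum (quadraticChar k) (quadraticChar k)⁻¹ := by
    have h4 : c ^ 2 / D ≠ 0 := div_ne_zero (pow_ne_zero 2 hc) hD
    rw [(quadraticChar_isQuadratic k).inv, jacobiSum, Finset.mul_sum, ← Equiv.sum_comp (Equiv.mulLeft₀ (c ^ 2 / D) h4)]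
    refine Finset.sum_congr rfl fun x _ => ?_
    have e1 : (Equiv.mulLeft₀ (c ^ 2 / D) h4) x = c ^ 2 / D * x := rfl
    have e2 : c ^ 2 - D * (c ^ 2 / D * x) = c ^ 2 * (1 - x) := by
      field_simp
    have e3 : c ^ 2 / D * x = (c / D) ^ 2 * (D * x) := by
      field_simp
    rw [e1, e2, e3, map_mul, map_mul, map_mul, quadraticChar_sq_one' (div_ne_zero hc hD), quadraticChar_sq_one' hc,
      one_mul, one_mul, mul_assoc]
  have h5 : ∀ v : k, (quadraticChar k v + 1) * quadraticChar k (c ^ 2 - D * v) =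
      quadraticChar k v * quadraticChar k (c ^ 2 - D * v) + quadraticChar k (c ^ 2 - D * v) := fun v => by ring
  rw [Finset.sum_congr rfl fun v _ => h5 v, Finset.sum_add_distrib, h1, h3,
    jacobiSum_nontrivial_inv (e2_ne_one k h2), neg_eq_neg_one_mul D, map_mul]
  ring

theorem e2_sum_zero (D : k) :
    ∑ a : k, quadraticChar k (0 - D * a ^ 2) = quadraticChar k (-D) * ((Fintype.card k : ℤ) - 1) := by
  have h1 : ∀ a : k, quadraticChar k (0 - D * a ^ 2) = quadraticChar k (-D) * (if a = 0 then 0 else 1) := by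
    intro a
    by_cases ha : a = 0
    · rw [ha, if_pos rfl, mul_zero, show (0 : k) - D * 0 ^ 2 = 0 by ring, quadraticChar_zero]
    · rw [if_neg ha, mul_one, show (0 : k) - D * a ^ 2 = -D * a ^ 2 by ring, map_mul,
        quadraticChar_sq_one' ha, mul_one]
  rw [Finset.sum_congr rfl fun a _ => h1 a, ← Finset.mul_sum]
  congr 1
  have h3 : ∀ a : k, (if a = 0 then (0 : ℤ) else 1) = 1 - (if a = 0 then 1 else 0) := fun a => by
    split_ifs <;> ring
  rw [Finset.sum_congr rfl fun a _ => h3 a, Finset.sum_sub_distrib, Finset.sum_const, Finset.card_univ,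
    Finset.sum_ite_eq' Finset.univ (0 : k) (fun _ => (1 : ℤ))]
  simp

/-- the double sum -/
theorem e2_double {D : k} (hD : D ≠ 0) :
    ∑ a : k, ∑ n : k, quadraticChar k (n * ((D + n) ^ 2 - a ^ 2 * D)) = Fintype.card k := by
  rw [Finset.sum_comm]
  have h1 : ∀ n : k, ∑ a : k, quadraticChar k (n * ((D + n) ^ 2 - a ^ 2 * D)) =
      -(quadraticChar k (-D)) * quadraticChar k n + (if n = -D then (Fintype.card k : ℤ) else 0) := by
    intro n
    have h3 : ∀ a : k, quadraticChar k (n * ((D + n) ^ 2 - a ^ 2 * D)) =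
        quadraticChar k n * quadraticChar k ((D + n) ^ 2 - D * a ^ 2) := fun a => by
      rw [map_mul, mul_comm D (a ^ 2)]
    rw [Finset.sum_congr rfl fun a _ => h3 a, ← Finset.mul_sum]
    by_cases hn : n = -D
    · have h4 : (D + n) ^ 2 = 0 := by
        rw [hn]
        ring
      have h5 : quadraticChar k (-D) * quadraticChar k (-D) = 1 := by
        rw [← pow_two]
        exact quadraticChar_sq_one (neg_ne_zero.2 hD)
      rw [h4, e2_sum_zero k h2 D, hn, if_pos rfl]
      linear_combination ((Fintype.card k : ℤ)) * h5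
    · have h4 : D + n ≠ 0 := fun h => hn (by linear_combination h)
      rw [sum_conic k h2 h4 hD, if_neg hn]
      ring
  rw [Finset.sum_congr rfl fun n _ => h1 n, Finset.sum_add_distrib, ← Finset.mul_sum,
    MulChar.sum_eq_zero_of_ne_one (e2_ne_one k h2),
    Finset.sum_ite_eq' Finset.univ (-D) (fun _ => (Fintype.card k : ℤ))]
  simp

end

/-- [QTF-E2] -/
theorem ct_quad_odd (k k' : Type) [Field k] [Fintype k] [Field k'] [Fintype k'] [Algebra k k']
    (hc : Fintype.card k' = Fintype.card k ^ 2) (h2 : (2 : k) ≠ 0) {D : k} (hD : D ≠ 0) :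
    ct k' (QT.W (algebraMap k k' D)) = ct k (QT.W D) ^ 2 - 2 * (Fintype.card k : ℤ) := by
  have hinj : Function.Injective (algebraMap k k') := (algebraMap k k').injective
  have h2' : (2 : k') ≠ 0 := by
    rw [← map_ofNat (algebraMap k k') 2]
    exact (map_ne_zero _).2 h2
  have hD' : algebraMap k k' D ≠ 0 := (map_ne_zero _).2 hD
  have hrc := PI.s2_ringChar h2
  have hrc' := PI.s2_ringChar h2'
  obtain ⟨T, N, hT, hN⟩ := exists_TN k k' hc
  have hodd : Fintype.card k % 2 = 1 := FiniteField.odd_card_of_char_ne_two hrc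
  have hchar : ∀ z : k', quadraticChar k' z = quadraticChar k (N z) := by
    intro z
    have h3 : ((quadraticChar k' z : ℤ) : k') = ((quadraticChar k (N z) : ℤ) : k') := by
      rw [quadraticChar_eq_pow_of_char_ne_two' hrc']
      have h4 := congrArg (algebraMap k k') (quadraticChar_eq_pow_of_char_ne_two' hrc (N z))
      rw [map_intCast] at h4
      rw [h4, map_pow, hN, hc]
      have h5 : Fintype.card k ^ 2 / 2 = (Fintype.card k + 1) * (Fintype.card k / 2) := by
        obtain ⟨m, hm⟩ : ∃ m, Fintype.card k = 2 * m + 1 := ⟨Fintype.card k / 2, by omega⟩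
        rw [hm, show (2 * m + 1) ^ 2 = 2 * (2 * m ^ 2 + 2 * m) + 1 by ring,
          show (2 * m + 1) / 2 = m by omega]
        rw [show (2 * (2 * m ^ 2 + 2 * m) + 1) / 2 = 2 * m ^ 2 + 2 * m by omega]
        ring
      rw [h5, pow_mul, pow_succ']
    exact MulChar.IsQuadratic.eq_of_eq_coe (quadraticChar_isQuadratic k') (quadraticChar_isQuadratic k) hrc' h3
  obtain ⟨g, hg⟩ : ∃ g : k → k → ℤ, g = fun a n => quadraticChar k (n * ((D + n) ^ 2 - a ^ 2 * D)) := ⟨_, rfl⟩
  have hfrob : ∀ x y : k', (x - y) ^ Fintype.card k = x ^ Fintype.card k - y ^ Fintype.card k :=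
    fun x y => map_sub (FiniteField.frobeniusAlgHom k k') x y
  have hDq : (algebraMap k k' D) ^ Fintype.card k = algebraMap k k' D := by
    rw [← map_pow, FiniteField.pow_card]
  have hS' : ∑ x : k', quadraticChar k' (x ^ 3 - algebraMap k k' D * x) = ∑ x : k', g (T x) (N x) := by
    refine Finset.sum_congr rfl fun x _ => ?_
    rw [hchar, hg]
    refine congrArg (quadraticChar k) (hinj ?_)
    rw [hN, hfrob, mul_pow, hDq, map_mul, map_sub, map_mul, map_pow, map_pow, map_add, hN, hT]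
    ring
  have hS : (∑ x : k, quadraticChar k (x ^ 3 - D * x)) ^ 2 = ∑ x : k, ∑ y : k, g (x + y) (x * y) := by
    rw [pow_two, Finset.sum_mul_sum]
    refine Finset.sum_congr rfl fun x _ => Finset.sum_congr rfl fun y _ => ?_
    rw [← map_mul, hg]
    refine congrArg (quadraticChar k) ?_
    ring
  have hpair := pair_count k k' hc T N hT hN g
  have hd : ∑ a : k, ∑ n : k, g a n = Fintype.card k := by
    rw [hg]
    exact e2_double k h2 hD
  rw [← hS', ← hS, hd] at hpair
  rw [ct_odd k' h2' hD', ct_odd k h2 hD]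
  linear_combination -hpair

end QTF
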