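import Pool.Agent.QTF.Defs
import Pool.Agent.QTF.E1

/-!
# [QTF-E3] the number of points of `y² + y = x³ + x² + m` over a quadratic extension of finite fields of characteristic 2

`ψ z = 1` if `z = b² + b` for some `b ∈ k`, and `-1` otherwise: `ψ (z + w) = ψ z ψ w` (`b ↦ b² + b` is additive with the kernel `{0, 1}`, so its image has index 2), `∑_z ψ z = 0`. `#E(k) = 1 + ∑_x (1 + ψ(x³ + x² + m))` (the curve is nonsingular in characteristic 2, and for every `x` the number of `y` with
`y² + y = z` is `1 + ψ z`), so `ct k = - ∑_x ψ(x³ + x² + m)`.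
Over `k'`: `ψ' z = ψ (z + z^q)`: (`z = b² + b` gives `z + z^q = B² + B` with `B = b + b^q ∈ k`; so `ψ' ≤ ..`: both are characters of `k'` with values `± 1`; `ψ' z = 1` implies `ψ (T z) = 1`, the kernels have both index 2 in `k'` (the trace `T : k' → k` is surjective), so they are equal.)
For `x ∈ k'` with trace `a` and norm `n`: `T(x³ + x²) = a³ + a n + a²` (characteristic 2), `T(m) = 0`. For `x, y ∈ k`: `(x³ + x² + m) + (y³ + y² + m) = a³ + a n + a²` with `a = x + y`, `n = x y`. So `pair_count` with `g a n = ψ(a³ + a n + a²)`: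
`S' + S² = 2 ∑_a ψ(a³ + a²) ∑_n ψ(a n) = 2 q` (only `a = 0` contributes).
-/

set_option autoImplicit false

open scoped Classical

namespace QTF

/-- the additive character of order 2 -/
noncomputable def ps {k : Type} [Field k] (z : k) : ℤ := if ∃ b : k, b ^ 2 + b = z then 1 else -1

/-- the map `b ↦ b² + b` -/
def e3_f (k : Type) [Field k] (h2 : (2 : k) = 0) : k →+ k where
  toFun b := b ^ 2 + b
  map_zero' := by ring
  map_add' x y := by linear_combination (x * y) * h2

theorem e3_f_apply (k : Type) [Field k] (h2 : (2 : k) = 0) (b : k) : e3_f k h2 b = b ^ 2 + b := rfl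

theorem e3_ps (k : Type) [Field k] (h2 : (2 : k) = 0) (z : k) :
    ps z = if z ∈ (e3_f k h2).range then 1 else -1 := by
  unfold ps
  by_cases h : ∃ b : k, b ^ 2 + b = z
  · rw [if_pos h, if_pos (by
      obtain ⟨b, hb⟩ := h
      exact ⟨b, hb⟩)]
  · rw [if_neg h, if_neg (by
      rintro ⟨b, hb⟩
      exact h ⟨b, hb⟩)]

theorem e3_cases {k : Type} [Field k] (z : k) : ps z = 1 ∨ ps z = -1 := by
  unfold ps
  split_ifs
  · exact Or.inl rfl
  · exact Or.inr rfl

theorem e3_index (k : Type) [Field k] [Fintype k] (h2 : (2 : k) = 0) :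
    (e3_f k h2).range.index = 2 := by
  have h1 := AddSubgroup.card_mul_index (e3_f k h2).ker
  rw [AddSubgroup.index_ker] at h1
  have h3 := AddSubgroup.card_mul_index (e3_f k h2).range
  have hker : Nat.card (e3_f k h2).ker = 2 := by
    have hs : ((e3_f k h2).ker : Set k) = {0, 1} := by
      ext b
      rw [SetLike.mem_coe, AddMonoidHom.mem_ker, e3_f_apply]
      constructor
      · intro h
        have h4 : b * (b + 1) = 0 := by linear_combination h
        rcases mul_eq_zero.1 h4 with h5 | h5
        · exact Or.inl h5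
        · refine Or.inr ?_
          show b = 1
          linear_combination h5 - h2
      · rintro (rfl | h)
        · ring
        · have h5 : b = 1 := h
          rw [h5]
          linear_combination h2
    have h4 : Nat.card (e3_f k h2).ker = ((e3_f k h2).ker : Set k).ncard := rfl
    rw [h4, hs, Set.ncard_pair zero_ne_one]
  have hpos : 0 < Nat.card (e3_f k h2).range := Nat.card_pos
  rw [hker] at h1
  have h5 : Nat.card (e3_f k h2).range * (e3_f k h2).range.index =
      Nat.card (e3_f k h2).range * 2 := by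
    rw [h3, ← h1, mul_comm]
  exact Nat.eq_of_mul_eq_mul_left hpos h5

theorem e3_exists (k : Type) [Field k] [Fintype k] (h2 : (2 : k) = 0) : ∃ u : k, ps u = -1 := by
  by_contra hc
  have h1 : (e3_f k h2).range = ⊤ := by
    rw [eq_top_iff]
    intro u _
    by_contra hu
    refine hc ⟨u, ?_⟩
    rw [e3_ps k h2, if_neg hu]
  have h3 := e3_index k h2
  rw [AddSubgroup.index_eq_one.2 h1] at h3
  norm_num at h3

theorem e3_sol (k : Type) [Field k] [Fintype k] (h2 : (2 : k) = 0) (z : k) :
    ((Finset.univ.filter (fun y : k => y ^ 2 + y = z)).card : ℤ) = 1 + ps z := by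
  unfold ps
  by_cases h : ∃ b : k, b ^ 2 + b = z
  · rw [if_pos h]
    obtain ⟨b, hb⟩ := h
    have hs : Finset.univ.filter (fun y : k => y ^ 2 + y = z) = {b, b + 1} := by
      ext y
      simp only [Finset.mem_filter, Finset.mem_univ, true_and, Finset.mem_insert,
        Finset.mem_singleton]
      constructor
      · intro hy
        have h4 : (y - b) * (y - (b + 1)) = 0 := by
          linear_combination hy + hb + (z - y - b * y) * h2
        rcases mul_eq_zero.1 h4 with h5 | h5
        · exact Or.inl (sub_eq_zero.1 h5)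
        · exact Or.inr (sub_eq_zero.1 h5)
      · rintro (h5 | h5)
        · rw [h5]
          exact hb
        · rw [h5]
          linear_combination hb + (b + 1) * h2
    rw [hs, Finset.card_pair (by
      intro h5
      have h6 : (1 : k) = 0 := by linear_combination -h5
      exact one_ne_zero h6)]
    norm_num
  · rw [if_neg h]
    have hs : Finset.univ.filter (fun y : k => y ^ 2 + y = z) = ∅ := by
      rw [Finset.filter_eq_empty_iff]
      intro y _ hy
      exact h ⟨y, hy⟩
    rw [hs, Finset.card_empty]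
    norm_num

theorem e3_nonsing (k : Type) [Field k] (h2 : (2 : k) = 0) (m x y : k) :
    (Wa m).toAffine.Nonsingular x y ↔ y ^ 2 + y = x ^ 3 + x ^ 2 + m := by
  rw [WeierstrassCurve.Affine.nonsingular_iff, WeierstrassCurve.Affine.equation_iff]
  simp only [Wa]
  constructor
  · rintro ⟨h, -⟩
    linear_combination h
  · intro h
    refine ⟨by linear_combination h, Or.inr fun h3 => ?_⟩
    have h4 : (1 : k) = 0 := by linear_combination h3 - y * h2
    exact one_ne_zero h4

/-- the number of affine points -/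
theorem e3_card (k : Type) [Field k] [Fintype k] (h2 : (2 : k) = 0) (m : k) :
    Nat.card (Wa m).toAffine.Point =
      (∑ x : k, (Finset.univ.filter (fun y : k => y ^ 2 + y = x ^ 3 + x ^ 2 + m)).card) + 1 := by
  have e : {xy : k × k // (Wa m).toAffine.Nonsingular xy.1 xy.2} ≃
      (Σ x : k, {y : k // y ^ 2 + y = x ^ 3 + x ^ 2 + m}) :=
    { toFun := fun p => ⟨p.1.1, p.1.2, (e3_nonsing k h2 m _ _).1 p.2⟩
      invFun := fun p => ⟨(p.1, p.2.1), (e3_nonsing k h2 m _ _).2 p.2.2⟩
      left_inv := fun p => rfl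
      right_inv := fun p => rfl }
  have h1 : Nat.card (Wa m).toAffine.Point =
      Nat.card (Option (Σ x : k, {y : k // y ^ 2 + y = x ^ 3 + x ^ 2 + m})) :=
    Nat.card_congr ((WeierstrassCurve.Affine.nonsingularPointEquiv (Wa m).toAffine).trans
      (Equiv.optionCongr e))
  rw [h1, Finite.card_option, Nat.card_eq_fintype_card, Fintype.card_sigma]
  congr 1
  refine Finset.sum_congr rfl fun x _ => ?_
  rw [Fintype.card_subtype]

section
variable (k : Type) [Field k] [Fintype k] (h2 : (2 : k) = 0)
include h2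

theorem ps_add (z w : k) : ps (z + w) = ps z * ps w := by
  rw [e3_ps k h2, e3_ps k h2 z, e3_ps k h2 w]
  have h3 := AddSubgroup.add_mem_iff_of_index_two (e3_index k h2) (a := z) (b := w)
  by_cases hz : z ∈ (e3_f k h2).range <;> by_cases hw : w ∈ (e3_f k h2).range
  · rw [if_pos (h3.2 ⟨fun _ => hw, fun _ => hz⟩), if_pos hz, if_pos hw]
    norm_num
  · rw [if_neg (fun h => hw ((h3.1 h).1 hz)), if_pos hz, if_neg hw]
    norm_num
  · rw [if_neg (fun h => hz ((h3.1 h).2 hw)), if_neg hz, if_pos hw]
    norm_num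
  · rw [if_pos (h3.2 ⟨fun h => absurd h hz, fun h => absurd h hw⟩), if_neg hz, if_neg hw]
    norm_num

theorem sum_ps : ∑ z : k, ps z = 0 := by
  obtain ⟨u, hu⟩ := e3_exists k h2
  have h1 : ∑ z : k, ps (u + z) = ∑ z : k, ps z := Equiv.sum_comp (Equiv.addLeft u) (fun z => ps z)
  have h3 : ∑ z : k, ps (u + z) = -∑ z : k, ps z := by
    rw [← Finset.sum_neg_distrib]
    refine Finset.sum_congr rfl fun z _ => ?_
    rw [ps_add k h2, hu, neg_one_mul]
  omega

/-- [QTF-E3a] -/
theorem ct_two (m : k) : ct k (Wa m) = - ∑ x : k, ps (x ^ 3 + x ^ 2 + m) := by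
  unfold ct
  rw [e3_card k h2 m, Nat.card_eq_fintype_card]
  push_cast
  have h1 : ∀ x : k, ((Finset.univ.filter (fun y : k => y ^ 2 + y = x ^ 3 + x ^ 2 + m)).card : ℤ) =
      1 + ps (x ^ 3 + x ^ 2 + m) := fun x => e3_sol k h2 _
  rw [Finset.sum_congr rfl fun x _ => h1 x, Finset.sum_add_distrib, Finset.sum_const,
    Finset.card_univ, nsmul_eq_mul]
  ring

end

section
variable (k k' : Type) [Field k] [Fintype k] [Field k'] [Fintype k'] [Algebra k k']

omit [Fintype k] [Fintype k'] in
theorem e3_two (h2 : (2 : k) = 0) : (2 : k') = 0 := by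
  have h1 := congrArg (algebraMap k k') h2
  rw [map_ofNat, map_zero] at h1
  exact h1

theorem e3_frob (h2 : (2 : k) = 0) (x y : k') :
    (x + y) ^ Fintype.card k = x ^ Fintype.card k + y ^ Fintype.card k := by
  have i1 : CharP k 2 := CharTwo.of_one_ne_zero_of_two_eq_zero one_ne_zero h2
  have i2 : CharP k' 2 := CharTwo.of_one_ne_zero_of_two_eq_zero one_ne_zero (e3_two k k' h2)
  obtain ⟨n, -, hn⟩ := FiniteField.card k 2
  rw [hn]
  exact add_pow_char_pow x y 2 n

omit [Fintype k] [Fintype k'] in
theorem e3_inj : Function.Injective (algebraMap k k') := (algebraMap k k').injective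

variable {k k'}

theorem e3_T_add (h2 : (2 : k) = 0) {T : k' → k}
    (hT : ∀ x, algebraMap k k' (T x) = x + x ^ Fintype.card k) (x y : k') :
    T (x + y) = T x + T y := by
  apply e3_inj k k'
  rw [map_add, hT, hT, hT, e3_frob k k' h2]
  ring

theorem e3_T_sq (h2 : (2 : k) = 0) {T : k' → k}
    (hT : ∀ x, algebraMap k k' (T x) = x + x ^ Fintype.card k) (x : k') :
    T (x ^ 2) = T x ^ 2 := by
  apply e3_inj k k'
  rw [map_pow, hT, hT, ← pow_mul, mul_comm 2, pow_mul]
  linear_combination (-(x * x ^ Fintype.card k)) * e3_two k k' h2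

theorem e3_T_cube (h2 : (2 : k) = 0) {T N : k' → k}
    (hT : ∀ x, algebraMap k k' (T x) = x + x ^ Fintype.card k)
    (hN : ∀ x, algebraMap k k' (N x) = x * x ^ Fintype.card k) (x : k') :
    T (x ^ 3) = T x ^ 3 + T x * N x := by
  apply e3_inj k k'
  rw [map_add, map_mul, map_pow, hT, hT, hN, ← pow_mul, mul_comm 3, pow_mul]
  linear_combination (-(2 * (x ^ 2 * x ^ Fintype.card k + x * (x ^ Fintype.card k) ^ 2))) *
    e3_two k k' h2

theorem e3_T_base (h2 : (2 : k) = 0) {T : k' → k}
    (hT : ∀ x, algebraMap k k' (T x) = x + x ^ Fintype.card k) (m : k) :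
    T (algebraMap k k' m) = 0 := by
  apply e3_inj k k'
  rw [hT, map_zero, ← map_pow, FiniteField.pow_card]
  linear_combination (algebraMap k k' m) * e3_two k k' h2

theorem e3_T_surj (hc : Fintype.card k' = Fintype.card k ^ 2) (h2 : (2 : k) = 0) {T : k' → k}
    (hT : ∀ x, algebraMap k k' (T x) = x + x ^ Fintype.card k) : Function.Surjective T := by
  let F : k' →+ k := AddMonoidHom.mk' T (e3_T_add h2 hT)
  have hF : ∀ x, F x = T x := fun x => rfl
  have h1 := AddSubgroup.card_mul_index F.ker
  rw [AddSubgroup.index_ker] at h1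
  have hker : Nat.card F.ker = Nat.card k := by
    have hs : (F.ker : Set k') = Set.range (algebraMap k k') := by
      ext x
      rw [SetLike.mem_coe, AddMonoidHom.mem_ker, hF]
      constructor
      · intro h
        have h3 := hT x
        rw [h, map_zero] at h3
        have h4 : x ^ Fintype.card k = x := by
          linear_combination -h3 - x * e3_two k k' h2
        exact mem_of_pow k k' h4
      · rintro ⟨m, rfl⟩
        exact e3_T_base h2 hT m
    have h4 : Nat.card F.ker = (F.ker : Set k').ncard := rfl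
    rw [h4, hs, Set.ncard_range_of_injective (e3_inj k k')]
  have hq : Nat.card k' = Nat.card k * Nat.card k := by
    rw [Nat.card_eq_fintype_card, Nat.card_eq_fintype_card, hc, pow_two]
  rw [hker, hq] at h1
  have hpos : 0 < Nat.card k := Nat.card_pos
  have h3 : Nat.card F.range = Nat.card k := Nat.eq_of_mul_eq_mul_left hpos h1
  have h4 := AddSubgroup.eq_top_of_card_eq _ h3
  exact AddMonoidHom.range_eq_top.1 h4

theorem e3_char (hc : Fintype.card k' = Fintype.card k ^ 2) (h2 : (2 : k) = 0) {T : k' → k}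
    (hT : ∀ x, algebraMap k k' (T x) = x + x ^ Fintype.card k) (z : k') : ps z = ps (T z) := by
  have h2' := e3_two k k' h2
  have h1 : ∀ z : k', ps z = 1 → ps (T z) = 1 := by
    intro z hz
    have h3 : ∃ b : k', b ^ 2 + b = z := by
      by_contra hc
      unfold ps at hz
      rw [if_neg hc] at hz
      norm_num at hz
    obtain ⟨b, rfl⟩ := h3
    unfold ps
    rw [if_pos]
    exact ⟨T b, by rw [e3_T_add h2 hT, e3_T_sq h2 hT]⟩
  rcases e3_cases z with hz | hz
  · rw [hz, h1 z hz]
  rcases e3_cases (T z) with hz' | hz'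
  swap
  · rw [hz, hz']
  exfalso
  obtain ⟨u, hu⟩ := e3_exists k h2
  obtain ⟨w, rfl⟩ := e3_T_surj hc h2 hT u
  rcases e3_cases w with hw | hw
  · rw [h1 w hw] at hu
    norm_num at hu
  · have h3 : ps (w + z) = 1 := by
      rw [ps_add k' h2', hw, hz]
      norm_num
    have h4 := h1 _ h3
    rw [e3_T_add h2 hT, ps_add k h2, hz', hu] at h4
    norm_num at h4

end

/-- [QTF-E3] -/
theorem ct_quad_two (k k' : Type) [Field k] [Fintype k] [Field k'] [Fintype k'] [Algebra k k']
    (hc : Fintype.card k' = Fintype.card k ^ 2) (h2 : (2 : k) = 0) (m : k) :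
    ct k' (Wa (algebraMap k k' m)) = ct k (Wa m) ^ 2 - 2 * (Fintype.card k : ℤ) := by
  obtain ⟨T, N, hT, hN⟩ := exists_TN k k' hc
  have h2' := e3_two k k' h2
  obtain ⟨g, hg⟩ : ∃ g : k → k → ℤ, g = fun a n => ps (a ^ 3 + a * n + a ^ 2) := ⟨_, rfl⟩
  have hS' : ∑ x : k', ps (x ^ 3 + x ^ 2 + algebraMap k k' m) = ∑ x : k', g (T x) (N x) := by
    refine Finset.sum_congr rfl fun x _ => ?_
    rw [e3_char hc h2 hT, e3_T_add h2 hT, e3_T_add h2 hT, e3_T_base h2 hT, e3_T_cube h2 hT hN,
      e3_T_sq h2 hT, add_zero, hg]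
  have hS : (∑ x : k, ps (x ^ 3 + x ^ 2 + m)) ^ 2 = ∑ x : k, ∑ y : k, g (x + y) (x * y) := by
    rw [pow_two, Finset.sum_mul_sum]
    refine Finset.sum_congr rfl fun x _ => Finset.sum_congr rfl fun y _ => ?_
    rw [← ps_add k h2, hg]
    refine congrArg ps ?_
    linear_combination (m - 2 * (x ^ 2 * y + x * y ^ 2) - x * y) * h2
  have hsum : ∑ a : k, ∑ n : k, g a n = (Fintype.card k : ℤ) := by
    have h1 : ∀ a : k, ∑ n : k, g a n = if a = 0 then (Fintype.card k : ℤ) else 0 := by
      intro a
      by_cases ha : a = 0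
      · rw [if_pos ha, ha, hg]
        have h3 : ∀ n : k, ps ((0 : k) ^ 3 + 0 * n + 0 ^ 2) = 1 := by
          intro n
          unfold ps
          rw [if_pos]
          exact ⟨0, by ring⟩
        rw [Finset.sum_congr rfl fun n _ => h3 n, Finset.sum_const, Finset.card_univ,
          nsmul_eq_mul, mul_one]
      · rw [if_neg ha, ← sum_ps k h2, hg]
        have h3 := Equiv.sum_comp ((Equiv.mulLeft₀ a ha).trans (Equiv.addLeft (a ^ 3 + a ^ 2)))
          (fun z => ps z)
        rw [← h3]
        refine Finset.sum_congr rfl fun n _ => congrArg ps ?_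
        show a ^ 3 + a * n + a ^ 2 = a ^ 3 + a ^ 2 + a * n
        ring
    rw [Finset.sum_congr rfl fun a _ => h1 a, Finset.sum_ite_eq' Finset.univ (0 : k) fun _ =>
      (Fintype.card k : ℤ), if_pos (Finset.mem_univ _)]
  have hpc := pair_count k k' hc T N hT hN g
  rw [hsum, ← hS', ← hS] at hpc
  rw [ct_two k' h2', ct_two k h2]
  linear_combination -hpc

end QTF
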