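import Pool.Agent.QTF.E2
import Pool.Agent.QTF.E3

/-!
# [QTF-E4] the number of points of the quadratic twists over finite fields

`tw_odd`: `ct_odd` (E2) for `D δ²`, `δ = t² + 4c ≠ 0`: `x = δ x'`: `x³ - D δ² x = δ³ (x'³ - D x')`, `χ(δ³) = χ(δ)`, and `b² - t b - c = 0` is solvable iff `δ` is a square (`(2b - t)² = δ`).
`tw_two`: `ct_two` and `ps_add` (E3): `ps (c / t²) = 1` iff `b² + b = c/t²` is solvable iff `(t b)² - t (t b) - c = 0` is (characteristic 2).
-/

set_option autoImplicit false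

open scoped Classical

namespace QTF

/-- the sign of `t² + 4c` -/
noncomputable def sk {k : Type} [Field k] (t c : k) : ℤ := if ∃ b : k, b ^ 2 - t * b - c = 0 then 1 else -1

theorem e4_sk {k : Type} [Field k] [Fintype k] (h2 : (2 : k) ≠ 0) (t c : k)
    (h : t ^ 2 + 4 * c ≠ 0) : sk t c = quadraticChar k (t ^ 2 + 4 * c) := by
  have hiff : (∃ b : k, b ^ 2 - t * b - c = 0) ↔ IsSquare (t ^ 2 + 4 * c) := by
    constructor
    · rintro ⟨b, hb⟩
      exact ⟨2 * b - t, by linear_combination 4 * hb * (-1)⟩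
    · rintro ⟨r, hr⟩
      refine ⟨(r + t) / 2, ?_⟩
      field_simp
      linear_combination -hr
  unfold sk
  rw [quadraticChar_apply, quadraticCharFun, if_neg h]
  by_cases h3 : IsSquare (t ^ 2 + 4 * c)
  · rw [if_pos (hiff.2 h3), if_pos h3]
  · rw [if_neg fun h4 => h3 (hiff.1 h4), if_neg h3]

theorem tw_odd (k : Type) [Field k] [Fintype k] (h2 : (2 : k) ≠ 0) {D : k} (hD : D ≠ 0) (t c : k)
    (h : t ^ 2 + 4 * c ≠ 0) : ct k (QT.W (D * (t ^ 2 + 4 * c) ^ 2)) = sk t c * ct k (QT.W D) := by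
  rw [e4_sk h2 t c h, ct_odd k h2 hD, ct_odd k h2 (mul_ne_zero hD (pow_ne_zero 2 h)), mul_neg,
    Finset.mul_sum]
  congr 1
  generalize t ^ 2 + 4 * c = e at h
  rw [← Equiv.sum_comp (Equiv.mulLeft₀ e h)]
  refine Finset.sum_congr rfl fun x _ => ?_
  have e1 : (Equiv.mulLeft₀ e h) x = e * x := rfl
  rw [e1, show (e * x) ^ 3 - D * e ^ 2 * (e * x) = e ^ 2 * (e * (x ^ 3 - D * x)) by ring, map_mul, map_mul,
    quadraticChar_sq_one' h, one_mul]

theorem tw_two (k : Type) [Field k] [Fintype k] (h2 : (2 : k) = 0) (m t c : k) (ht : t ≠ 0) :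
    ct k (Wa (m + c / t ^ 2)) = sk t c * ct k (Wa m) := by
  have hsk : sk t c = ps (c / t ^ 2) := by
    unfold sk ps
    have hiff : (∃ b : k, b ^ 2 - t * b - c = 0) ↔ ∃ b : k, b ^ 2 + b = c / t ^ 2 := by
      constructor
      · rintro ⟨b, hb⟩
        refine ⟨b / t, ?_⟩
        field_simp
        linear_combination hb + b * t * h2
      · rintro ⟨b, hb⟩
        refine ⟨t * b, ?_⟩
        rw [eq_div_iff (pow_ne_zero 2 ht)] at hb
        linear_combination hb - t ^ 2 * b * h2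
    by_cases h3 : ∃ b : k, b ^ 2 + b = c / t ^ 2
    · rw [if_pos (hiff.2 h3), if_pos h3]
    · rw [if_neg fun h4 => h3 (hiff.1 h4), if_neg h3]
  rw [hsk, ct_two k h2, ct_two k h2, mul_neg, Finset.mul_sum]
  congr 1
  refine Finset.sum_congr rfl fun x _ => ?_
  rw [← ps_add k h2, add_comm (c / t ^ 2), add_assoc (x ^ 3 + x ^ 2)]

end QTF
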