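import Pool.Agent.QTF.K
import Pool.Agent.QTF.N
import Pool.Agent.QTF.M
import Pool.Agent.QTF.T2
import Pool.Agent.QT.FinalD

/-!
# [QTF-Fin] the final theorem
-/

set_option autoImplicit false

open NumberField Ideal IsDedekindDomain ArithmeticFunction
open CM27 CMT GE TR TT TK TU
open scoped Classical

namespace QTF

open PI

theorem fin_alg (x : 𝓞 KI) :
    @algebraMap (𝓞 KI) (𝓞 KI) _ _ (inst_ringOfIntegersAlgebra KI KI) x = x := RingOfIntegers.ext rfl

/-- the theorem over `ℚ(i)` -/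
theorem an_good {s t : ℕ} {S : Finset Gi} {a : Gi → ℕ} (h : QT.Good s t S a) :
    An KI (QT.W ((eG (QT.Dd s t S a) : 𝓞 KI) : KI)) ∧
      Finite (QT.W ((eG (QT.Dd s t S a) : 𝓞 KI) : KI)).toAffine.Point := by
  obtain ⟨-, h1, L, h2, -, h3, -⟩ := QT.final_D h
  exact ⟨⟨L, h2.1, h2.2, h3⟩, h1⟩

/-- the twists over `ℚ(i)` -/
theorem base {s t : ℕ} {S : Finset Gi} {a : Gi → ℕ} (h : QT.Good s t S a) :
    TP KI KI (eG ii : 𝓞 KI) (eG (QT.Dd s t S a) : 𝓞 KI) := by
  have hloc := loc_base h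
  set D := QT.Dd s t S a with hD
  have hld : ∀ d : KI, DN (eG D : 𝓞 KI) d → LD KI (eG D : 𝓞 KI) d := fun d hd =>
    ⟨hd.1, fun w hw => (hd.2 w).resolve_right fun hn => by
      rcases hw with hw | hw
      · exact hn.1 hw
      · exact hn.2.1 hw⟩
  have key : ∀ d : KI, DN (eG D : 𝓞 KI) d → An KI (V (eG D : 𝓞 KI) d) ∧
      Finite (V (eG D : 𝓞 KI) d).toAffine.Point := by
    intro d hd
    obtain ⟨x, T, hx, hT, hdx⟩ := exists_normal D hd
    have hdisj : Disjoint S T := by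
      rw [Finset.disjoint_left]
      intro q hq hqT
      apply (hT q hqT).2.2.1
      rw [hD]
      have h3 : 1 ≤ a q := by
        have hadm := QTS.good_adm h
        rcases hadm.2.1 q hq with h4 | h4 | h4 <;> omega
      obtain ⟨w, hw, -⟩ := QTS.Dd_odd (QTS.good_adm h) hq
      rw [hw]
      exact (dvd_pow_self q (by omega)).mul_right w
    obtain ⟨a', h1, h2⟩ := good_union h T (fun q hq => ⟨(hT q hq).1, (hT q hq).2.1⟩) hdisj
      (fun q hq => (hT q hq).2.2.2)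
    obtain ⟨hA, hF⟩ := an_good h1
    have hm : V (eG D : 𝓞 KI) ((eG (∏ q ∈ T, q) : 𝓞 KI) : KI) =
        QT.W ((eG (QT.Dd s t (S ∪ T) a') : 𝓞 KI) : KI) := by
      rw [h2]
      unfold V
      congr 1
      rw [map_mul, map_pow]
      rfl
    rw [← hm] at hA hF
    set m : KI := ((eG (∏ q ∈ T, q) : 𝓞 KI) : KI) with hmdef
    have hm0 : m ≠ 0 := by
      intro h3
      apply hd.1
      rw [hdx, h3, mul_zero]
    have hdm : LD KI (eG D : 𝓞 KI) m := by
      refine ⟨hm0, fun w hw => ?_⟩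
      have h3 := (hld d hd).ur w hw
      rw [hdx] at h3
      exact (ur_sq_mul hx).1 h3
    obtain ⟨C, hC⟩ := V_sq (eG D : 𝓞 KI) hx m
    rw [hdx, hC]
    refine ⟨hA.congr (LCW_congr hloc hdm C), ?_⟩
    exact finite_change _ (V_Δ_ne _ hloc.ne hm0) C hF
  refine ⟨?_, fun d hd => ?_, fun d hd => ?_, fun d hd => ?_⟩
  · rw [fin_alg, fin_alg]
    exact hloc
  · rw [fin_alg]
    exact hld d hd
  · rw [fin_alg]
    exact (key d hd).1
  · rw [fin_alg]
    exact (key d hd).2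

/-- **The final theorem.** -/
theorem final {s t : ℕ} {S : Finset Gi} {a : Gi → ℕ} (h : QT.Good s t S a) (F : Type) [Field F]
    [NumberField F] [Algebra KI F] [IsGalois KI F] (h2 : ∀ σ : F ≃ₐ[KI] F, σ * σ = 1)
    (hram : ∀ (v : HeightOneSpectrum (𝓞 KI)) (P : HeightOneSpectrum (𝓞 F)),
      v.asIdeal.map (algebraMap (𝓞 KI) (𝓞 F)) ≤ P.asIdeal ^ 2 →
        NP (eG (QT.Dd s t S a) : 𝓞 KI) v)
    (C : WeierstrassCurve.VariableChange KI) :
    An F ((C • QT.W ((eG (QT.Dd s t S a) : 𝓞 KI) : KI)).baseChange F) ∧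
      Finite ((C • QT.W ((eG (QT.Dd s t S a) : 𝓞 KI) : KI)).baseChange F).toAffine.Point := by
  have hT := tower KI (base h) F h2 hram
  have h1 : DN (eG (QT.Dd s t S a) : 𝓞 KI) (1 : KI) := DN.one
  have hW : QT.W ((eG (QT.Dd s t S a) : 𝓞 KI) : KI) = V (eG (QT.Dd s t S a) : 𝓞 KI) (1 : KI) := by
    unfold V
    rw [one_pow, mul_one]
  have hb : (C • QT.W ((eG (QT.Dd s t S a) : 𝓞 KI) : KI)).baseChange F =
      (C.map (algebraMap KI F)) •
        V (algebraMap (𝓞 KI) (𝓞 F) (eG (QT.Dd s t S a))) (algebraMap KI F (1 : KI)) := by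
    rw [WeierstrassCurve.baseChange, ← WeierstrassCurve.map_variableChange, hW, V_map]
  rw [hb]
  exact ⟨(hT.an 1 h1).congr (LCW_congr hT.loc (hT.ld 1 h1) _),
    finite_change _ (V_Δ_ne _ hT.loc.ne (hT.ld 1 h1).ne) _ (hT.fin 1 h1)⟩

end QTF
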