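import Pool.Agent.QTF.L1
import Pool.Agent.QTF.E4

/-!
# [QTF-L2] the Euler factors at the odd places

`loc_odd` (good reduction of `y² = x³ - D x`): `Ur w d`: `d = x² (t² + 4c)`, `V_eq` (L1), `TU.g3_loc_good` (TU/G3.lean) with `W = QT.W (D (t² + 4c)²)`, `Δ = 64 D'³ ∉ w`; the number of points over `k`: `W.map φ = QT.W (φ D (φ t ² + 4 φ c)²)`, `tw_odd` (E4), `sk (φ t) (φ c) = chd t c w = sg w d`
(`TU.sg_int`, `TU.sg_sq_mul`; compare the end of the proof of `TK.c3_good`, TK/C3.lean), `IsTr` (first case), `ct` unfolded. The numbers in `g3_loc_good` are `sg · A` and `sg · B` (`sg² = 1`).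
`Od w d` (so `sg = 0`): `d = x² a`, `V_eq`, `TU.g3_fW_add` with `n = 6`, `ϖ = a`, `u = 64 D³`; `c₄ = 48 D a² ∈ w`; `loc_one` (`TK.c5_loc_one`).
`fW_bad_odd`: `D = p^n u` (`Loc.odd`), `Ur w d`, `TU.g3_fW_add` with exponent `3 n ≤ 9`.
-/

set_option autoImplicit false

open NumberField Ideal IsDedekindDomain ArithmeticFunction
open CM27 CMT GE TR TT TK TU
open scoped Classical

namespace QTF

section
variable {F : Type} [Field F] [NumberField F] {i D : 𝓞 F}

omit [NumberField F] in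
theorem l2_two_pow (w : HeightOneSpectrum (𝓞 F)) (h2 : (2 : 𝓞 F) ∉ w.asIdeal) :
    (64 : 𝓞 F) ∉ w.asIdeal := by
  intro h
  have e : (64 : 𝓞 F) = 2 ^ 6 := by norm_num
  rw [e] at h
  exact h2 (w.isPrime.mem_of_pow_mem _ h)

omit [NumberField F] in
theorem l2_sk {w : HeightOneSpectrum (𝓞 F)} (t c : 𝓞 F) {k : Type} [Field k] (φ : 𝓞 F →+* k)
    (hφ : Function.Surjective φ) (hker : ∀ x, φ x = 0 ↔ x ∈ w.asIdeal) :
    sk (φ t) (φ c) = chd t c w := by
  unfold sk chd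
  have h3 : (∃ b : k, b ^ 2 - φ t * b - φ c = 0) ↔ ∃ b : 𝓞 F, b ^ 2 - t * b - c ∈ w.asIdeal := by
    constructor
    · rintro ⟨b, hb⟩
      obtain ⟨b', rfl⟩ := hφ b
      refine ⟨b', ?_⟩
      rw [← hker, map_sub, map_sub, map_mul, map_pow]
      exact hb
    · rintro ⟨b, hb⟩
      refine ⟨φ b, ?_⟩
      rw [← hker, map_sub, map_sub, map_mul, map_pow] at hb
      exact hb
  by_cases h4 : ∃ b : 𝓞 F, b ^ 2 - t * b - c ∈ w.asIdeal
  · rw [if_pos h4, if_pos (h3.2 h4)]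
  · rw [if_neg h4, if_neg (fun h => h4 (h3.1 h))]

theorem l2_card (k : Type) [Field k] (W : WeierstrassCurve k) :
    ((Nat.card W.toAffine.Point : ℕ) : ℂ) = (Nat.card k : ℂ) + 1 - (ct k W : ℂ) := by
  unfold ct
  push_cast
  ring

theorem loc_odd (w : HeightOneSpectrum (𝓞 F)) {p f : ℕ} (hp : p.Prime) (hf : 0 < f)
    (hw : absNorm w.asIdeal = p ^ f) (h2 : (2 : 𝓞 F) ∉ w.asIdeal) (hD : D ∉ w.asIdeal) {d : F}
    (hd : Ur w d ∨ Od w d) {a : ℤ} (ha : IsTr i D w a) {A B : ℂ} (hs : A + B = a)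
    (hm : A * B = (p : ℂ) ^ f) (C : WeierstrassCurve.VariableChange F) :
    PowerSeries.map (Int.castRingHom ℂ) (loc p (fW F (C • V D d) w)) *
      ((1 - PowerSeries.C ((sg w d : ℂ) * A) * PowerSeries.X ^ f) *
        (1 - PowerSeries.C ((sg w d : ℂ) * B) * PowerSeries.X ^ f)) = 1 := by
  have h64 := l2_two_pow w h2
  rcases hd with hd | hd
  · obtain ⟨x, t, c, hx, rfl, htc⟩ := hd
    obtain ⟨C', hC'⟩ := V_eq D (t ^ 2 + 4 * c) hx
    have hsg : sg w (x ^ 2 * ((t ^ 2 + 4 * c : 𝓞 F) : F)) = chd t c w := by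
      rw [sg_sq_mul hx, sg_int htc]
    rw [hsg, hC', ← mul_smul]
    have hcsq := c3_chd_sq t c w
    refine g3_loc_good (QT.W (D * (t ^ 2 + 4 * c) ^ 2)) w hp hf hw ?_ _ _ ?_ ?_ (C * C')
    · rw [QTS.W_Δ]
      intro h
      rcases w.isPrime.mem_or_mem h with h1 | h1
      · exact h64 h1
      · rcases w.isPrime.mem_or_mem (w.isPrime.mem_of_pow_mem _ h1) with h3 | h3
        · exact hD h3
        · exact htc (w.isPrime.mem_of_pow_mem _ h3)
    · linear_combination hm + A * B * hcsq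
    · intro k _ _ φ hφ hker hcard
      have : Fintype k := Fintype.ofFinite k
      have h2k : (2 : k) ≠ 0 := by
        intro h
        apply h2
        rw [← hker, map_ofNat]
        exact h
      have hDk : φ D ≠ 0 := by
        intro h
        exact hD ((hker D).1 h)
      have hdk : (φ t) ^ 2 + 4 * (φ c) ≠ 0 := by
        intro h
        apply htc
        rw [← hker, map_add, map_mul, map_pow, map_ofNat]
        exact h
      have h1 := tw_odd k h2k hDk (φ t) (φ c) hdk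
      rw [l2_sk t c φ hφ hker] at h1
      have h3 : (QT.W (D * (t ^ 2 + 4 * c) ^ 2)).map φ = QT.W (φ D * (φ t ^ 2 + 4 * φ c) ^ 2) := by
        rw [QTS.W_map, map_mul, map_pow, map_add, map_mul, map_pow, map_ofNat]
      have h4 : a = ct k (QT.W (φ D)) := by
        rcases ha with h | h
        · exact h.2.2 k φ hφ hker
        · exact absurd h.1 h2
      rw [← h4] at h1
      have h5 := l2_card k (QT.W (φ D * (φ t ^ 2 + 4 * φ c) ^ 2))
      rw [h3, h5, h1, hcard]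
      push_cast
      rw [← hs]
      ring
  · have hsg := sg_od hd
    obtain ⟨x, α, hx, rfl, hα, hα2⟩ := hd
    obtain ⟨C', hC'⟩ := V_eq D α hx
    rw [hsg, hC', ← mul_smul]
    have hfw : fW F ((C * C') • (QT.W (D * α ^ 2)).map (algebraMap (𝓞 F) F)) w = 1 := by
      refine g3_fW_add (QT.W (D * α ^ 2)) w 6 (by norm_num) (by norm_num) α (64 * D ^ 3) hα hα2
        ?_ ?_ ?_ (C * C')
      · intro h
        rcases w.isPrime.mem_or_mem h with h1 | h1
        · exact h64 h1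
        · exact hD (w.isPrime.mem_of_pow_mem _ h1)
      · rw [QTS.W_Δ]
        ring
      · rw [QTS.W_c₄, pow_two]
        exact Ideal.mul_mem_left _ _ (Ideal.mul_mem_left _ _ (Ideal.mul_mem_left _ _ hα))
    rw [c5_loc_one hp hfw]
    simp

theorem fW_bad_odd (h : Loc F i D) (w : HeightOneSpectrum (𝓞 F)) (h2 : (2 : 𝓞 F) ∉ w.asIdeal)
    (hD : D ∈ w.asIdeal) {d : F} (hd : Ur w d) (C : WeierstrassCurve.VariableChange F) :
    fW F (C • V D d) w = 1 := by
  have h64 := l2_two_pow w h2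
  obtain ⟨ϖ, u, n, hDe, hp1, hp2, hu, hn1, hn3⟩ := h.odd w h2 hD
  obtain ⟨x, t, c, hx, rfl, htc⟩ := hd
  obtain ⟨C', hC'⟩ := V_eq D (t ^ 2 + 4 * c) hx
  rw [hC', ← mul_smul]
  refine g3_fW_add (QT.W (D * (t ^ 2 + 4 * c) ^ 2)) w (3 * n) (by omega) (by omega) ϖ
    (64 * u ^ 3 * (t ^ 2 + 4 * c) ^ 6) hp1 hp2 ?_ ?_ ?_ (C * C')
  · intro h1
    rcases w.isPrime.mem_or_mem h1 with h3 | h3
    · rcases w.isPrime.mem_or_mem h3 with h4 | h4
      · exact h64 h4
      · exact hu (w.isPrime.mem_of_pow_mem _ h4)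
    · exact htc (w.isPrime.mem_of_pow_mem _ h3)
  · rw [QTS.W_Δ, hDe, mul_comm 3 n, pow_mul]
    ring
  · rw [QTS.W_c₄]
    exact Ideal.mul_mem_left _ _ (Ideal.mul_mem_right _ _ hD)

end

end QTF
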