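import Pool.Agent.QTF.L1
import Pool.Agent.QTF.E4
import Pool.Agent.QTF.A2
import Pool.Agent.QTF.A3

/-!
# [QTF-L3] the Euler factors at the places above 2

`A = w.adicCompletionIntegers F`, `W.baseChange (completion) = C' • W'.map` as in `TU.g3_baseChange` (TU/G3.lean); `1 + i ∈ w` (`(1 + i)² = 2 i`), its image in `A` is irreducible (`TU`/`CM27`: `irreducible_completion'` with `Loc.la`), `t² + 4c ∉ w` is a unit of `A` (`isUnit_completion'`).
`Bad2 i D`, `Spec i D m` are preserved by ring homomorphisms.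
`fW_bad_two`: `fW_one`, `pos_lp` (A1), `zero_lp` (A2). `loc_two`: `Ur w d`, `d = x² (t² + 4c)`, `V_eq`, `spec_lp` (A3), `loc_fW` as in the proof of `TU.g3_loc_good`; `ct (residue field) (Wa (m + c/t²)) = sg · a`: `tw_two` (E4), `sk = chd = sg` (as in L2), `IsTr` (second case) with `k` the residue field of the
completion (`residue_completion F w`, `card_residue F w`); `sg² = 1`, `A B = q`.
-/

set_option autoImplicit false

open NumberField Ideal IsDedekindDomain ArithmeticFunction
open CM27 CMT GE TR TT TK TU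
open scoped Classical

namespace QTF

section
variable {F : Type} [Field F] [NumberField F] {i D : 𝓞 F}

theorem l3_mem (h : Loc F i D) (w : HeightOneSpectrum (𝓞 F)) (h2 : (2 : 𝓞 F) ∈ w.asIdeal) :
    1 + i ∈ w.asIdeal := by
  have e : (1 + i) ^ 2 = 2 * i := by
    have := h.hi
    linear_combination this
  exact w.isPrime.mem_of_pow_mem 2 (by rw [e]; exact Ideal.mul_mem_right _ _ h2)

theorem l3_irr (h : Loc F i D) (w : HeightOneSpectrum (𝓞 F)) (h2 : (2 : 𝓞 F) ∈ w.asIdeal) :
    Irreducible (algebraMap (𝓞 F) (w.adicCompletionIntegers F) (1 + i)) :=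
  irreducible_completion' F w _ (l3_mem h w h2) (h.la w (l3_mem h w h2))

theorem l3_map (w : HeightOneSpectrum (𝓞 F)) (E t c : 𝓞 F) :
    (QT.W (E * (t ^ 2 + 4 * c) ^ 2)).map (algebraMap (𝓞 F) (w.adicCompletionIntegers F)) =
      QT.W (algebraMap (𝓞 F) (w.adicCompletionIntegers F) E *
        ((algebraMap (𝓞 F) (w.adicCompletionIntegers F) t) ^ 2 +
          4 * algebraMap (𝓞 F) (w.adicCompletionIntegers F) c) ^ 2) := by
  rw [QTS.W_map]
  simp only [map_mul, map_pow, map_add, map_ofNat]

theorem l3_unit (w : HeightOneSpectrum (𝓞 F)) {t c : 𝓞 F} (htc : t ^ 2 + 4 * c ∉ w.asIdeal) :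
    IsUnit ((algebraMap (𝓞 F) (w.adicCompletionIntegers F) t) ^ 2 +
      4 * algebraMap (𝓞 F) (w.adicCompletionIntegers F) c) := by
  have := isUnit_completion' F w _ htc
  simpa only [map_mul, map_pow, map_add, map_ofNat] using this

theorem fW_bad_two (h : Loc F i D) (hB : Bad2 i D) (w : HeightOneSpectrum (𝓞 F))
    (h2 : (2 : 𝓞 F) ∈ w.asIdeal) {d : F} (hd : Ur w d) (C : WeierstrassCurve.VariableChange F) :
    fW F (C • V D d) w = 1 := by
  obtain ⟨x, t, c, hx, rfl, htc⟩ := hd
  obtain ⟨C', hC'⟩ := V_eq D (t ^ 2 + 4 * c) hx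
  rw [hC', ← mul_smul]
  apply fW_one
  rw [g3_baseChange, l3_map]
  have hirr := l3_irr h w h2
  have hun := l3_unit w htc
  have hi : (algebraMap (𝓞 F) (w.adicCompletionIntegers F) i) ^ 2 = -1 := by
    rw [← map_pow, h.hi, map_neg, map_one]
  have hl : algebraMap (𝓞 F) (w.adicCompletionIntegers F) (1 + i) =
      1 + algebraMap (𝓞 F) (w.adicCompletionIntegers F) i := by
    rw [map_add, map_one]
  rcases hB with ⟨u, n, hDu, hn, hn3, hu⟩ | hB
  · have hu' : (2 : w.adicCompletionIntegers F) ∣
        (algebraMap (𝓞 F) (w.adicCompletionIntegers F) u) ^ 2 - 1 := by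
      have := map_dvd (algebraMap (𝓞 F) (w.adicCompletionIntegers F)) hu
      simpa only [map_ofNat, map_sub, map_pow, map_one] using this
    rw [hDu, map_mul, map_pow]
    exact pos_lp (w.adicCompletionIntegers F) _ _ hi hl hirr _ hu' n hn hn3 _ _ hun _
  · refine zero_lp (w.adicCompletionIntegers F) _ _ hi hl hirr _ ?_ _ _ hun _
    rcases hB with hB | hB | hB | hB
    · left
      have := map_dvd (algebraMap (𝓞 F) (w.adicCompletionIntegers F)) hB
      simpa only [map_ofNat, map_sub] using this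
    · right; left
      have := map_dvd (algebraMap (𝓞 F) (w.adicCompletionIntegers F)) hB
      simpa only [map_ofNat, map_sub, map_add, map_mul] using this
    · right; right; left
      have := map_dvd (algebraMap (𝓞 F) (w.adicCompletionIntegers F)) hB
      simpa only [map_ofNat, map_sub, map_add, map_mul] using this
    · right; right; right
      have := map_dvd (algebraMap (𝓞 F) (w.adicCompletionIntegers F)) hB
      simpa only [map_ofNat, map_sub, map_add, map_mul] using this

theorem loc_two (h : Loc F i D) (w : HeightOneSpectrum (𝓞 F)) {p f : ℕ} (hp : p.Prime) (hf : 0 < f)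
    (hw : absNorm w.asIdeal = p ^ f) (h2 : (2 : 𝓞 F) ∈ w.asIdeal) {d : F} (hd : Ur w d) {a : ℤ}
    (ha : IsTr i D w a) {A B : ℂ} (hs : A + B = a) (hm : A * B = (p : ℂ) ^ f)
    (C : WeierstrassCurve.VariableChange F) :
    PowerSeries.map (Int.castRingHom ℂ) (loc p (fW F (C • V D d) w)) *
      ((1 - PowerSeries.C ((sg w d : ℂ) * A) * PowerSeries.X ^ f) *
        (1 - PowerSeries.C ((sg w d : ℂ) * B) * PowerSeries.X ^ f)) = 1 := by
  obtain ⟨x, t, c, hx, rfl, htc⟩ := hd
  have hsg : sg w (x ^ 2 * ((t ^ 2 + 4 * c : 𝓞 F) : F)) = chd t c w := by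
    rw [sg_sq_mul hx, sg_int htc]
  rw [hsg]
  obtain ⟨C', hC'⟩ := V_eq D (t ^ 2 + 4 * c) hx
  rw [hC', ← mul_smul]
  rcases ha with ⟨h2', -, -⟩ | ⟨-, m, hspec, hpts⟩
  · exact absurd h2 h2'
  have hirr := l3_irr h w h2
  have hun := l3_unit w htc
  have hi : (algebraMap (𝓞 F) (w.adicCompletionIntegers F) i) ^ 2 = -1 := by
    rw [← map_pow, h.hi, map_neg, map_one]
  have hl : algebraMap (𝓞 F) (w.adicCompletionIntegers F) (1 + i) =
      1 + algebraMap (𝓞 F) (w.adicCompletionIntegers F) i := by
    rw [map_add, map_one]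
  have hspec' : Spec (algebraMap (𝓞 F) (w.adicCompletionIntegers F) i)
      (algebraMap (𝓞 F) (w.adicCompletionIntegers F) D)
      (algebraMap (𝓞 F) (w.adicCompletionIntegers F) m) := by
    rcases hspec with hsp | hsp
    · left
      rw [hsp]
      simp only [map_add, map_mul, map_ofNat, map_one]
    · right
      rw [hsp]
      simp only [map_add, map_sub, map_mul, map_ofNat, map_one]
  obtain ⟨hc, hfin⟩ := card_residue F w
  obtain ⟨hsurj, hker⟩ := residue_completion F w
  have hkq : Nat.card (IsLocalRing.ResidueField (w.adicCompletionIntegers F)) = p ^ f := by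
    rw [hc, w1_card, hw]
  have : Fintype (IsLocalRing.ResidueField (w.adicCompletionIntegers F)) := Fintype.ofFinite _
  have hφ : ∀ y : 𝓞 F, (IsLocalRing.residue (w.adicCompletionIntegers F))
      (algebraMap (𝓞 F) (w.adicCompletionIntegers F) y) = 0 ↔ y ∈ w.asIdeal := by
    intro y
    rw [← hker, RingHom.mem_ker, RingHom.comp_apply]
  have h1 := spec_lp (w.adicCompletionIntegers F) (K := w.adicCompletion F) _ _ hi hl hirr
    (algebraMap (𝓞 F) (w.adicCompletionIntegers F) D)
    (algebraMap (𝓞 F) (w.adicCompletionIntegers F) m)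
    (algebraMap (𝓞 F) (w.adicCompletionIntegers F) t)
    (algebraMap (𝓞 F) (w.adicCompletionIntegers F) c) hspec' hun
    ((C * C').map (algebraMap F (w.adicCompletion F)))
  rw [← l3_map, ← g3_baseChange] at h1
  have h3 := loc_fW F ((C * C') • (QT.W (D * (t ^ 2 + 4 * c) ^ 2)).map (algebraMap (𝓞 F) F)) w hp hf
    _ _ hkq h1
  have h2k : (2 : IsLocalRing.ResidueField (w.adicCompletionIntegers F)) = 0 := by
    have := (hφ 2).2 h2
    simpa only [map_ofNat] using this
  have htk : (IsLocalRing.residue (w.adicCompletionIntegers F))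
      (algebraMap (𝓞 F) (w.adicCompletionIntegers F) t) ≠ 0 := by
    intro h0
    have h4 := (hφ t).1 h0
    apply htc
    refine Ideal.add_mem _ (Ideal.pow_mem_of_mem _ h4 2 (by norm_num)) ?_
    have e : (4 : 𝓞 F) * c = 2 * (2 * c) := by ring
    rw [e]
    exact Ideal.mul_mem_right _ _ h2
  have h4 := tw_two (IsLocalRing.ResidueField (w.adicCompletionIntegers F)) h2k
    ((IsLocalRing.residue (w.adicCompletionIntegers F))
      (algebraMap (𝓞 F) (w.adicCompletionIntegers F) m))
    ((IsLocalRing.residue (w.adicCompletionIntegers F))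
      (algebraMap (𝓞 F) (w.adicCompletionIntegers F) t))
    ((IsLocalRing.residue (w.adicCompletionIntegers F))
      (algebraMap (𝓞 F) (w.adicCompletionIntegers F) c)) htk
  have h5 : a = ct (IsLocalRing.ResidueField (w.adicCompletionIntegers F))
      (Wa ((IsLocalRing.residue (w.adicCompletionIntegers F))
        (algebraMap (𝓞 F) (w.adicCompletionIntegers F) m))) :=
    hpts (IsLocalRing.ResidueField (w.adicCompletionIntegers F))
      ((IsLocalRing.residue (w.adicCompletionIntegers F)).comp
        (algebraMap (𝓞 F) (w.adicCompletionIntegers F))) hsurj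
      (fun y => by rw [← RingHom.mem_ker, hker])
  have h6 : sk ((IsLocalRing.residue (w.adicCompletionIntegers F))
      (algebraMap (𝓞 F) (w.adicCompletionIntegers F) t))
      ((IsLocalRing.residue (w.adicCompletionIntegers F))
      (algebraMap (𝓞 F) (w.adicCompletionIntegers F) c)) = chd t c w := by
    unfold sk chd
    have h7 : (∃ b : IsLocalRing.ResidueField (w.adicCompletionIntegers F),
        b ^ 2 - (IsLocalRing.residue (w.adicCompletionIntegers F))
          (algebraMap (𝓞 F) (w.adicCompletionIntegers F) t) * b -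
          (IsLocalRing.residue (w.adicCompletionIntegers F))
          (algebraMap (𝓞 F) (w.adicCompletionIntegers F) c) = 0) ↔
        ∃ b : 𝓞 F, b ^ 2 - t * b - c ∈ w.asIdeal := by
      constructor
      · rintro ⟨b, hb⟩
        obtain ⟨b', rfl⟩ := hsurj b
        refine ⟨b', ?_⟩
        rw [← hφ]
        simpa only [map_sub, map_mul, map_pow, RingHom.comp_apply] using hb
      · rintro ⟨b, hb⟩
        refine ⟨(IsLocalRing.residue (w.adicCompletionIntegers F))
          (algebraMap (𝓞 F) (w.adicCompletionIntegers F) b), ?_⟩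
        rw [← hφ] at hb
        simpa only [map_sub, map_mul, map_pow] using hb
    by_cases h8 : ∃ b : 𝓞 F, b ^ 2 - t * b - c ∈ w.asIdeal
    · rw [if_pos h8, if_pos (h7.2 h8)]
    · rw [if_neg h8, if_neg (fun h => h8 (h7.1 h))]
  rw [h6, ← h5] at h4
  rw [h4, hkq] at h3
  have hcsq := c3_chd_sq t c w
  have h8 : ((1 - PowerSeries.C ((chd t c w : ℂ) * A) * PowerSeries.X ^ f) *
      (1 - PowerSeries.C ((chd t c w : ℂ) * B) * PowerSeries.X ^ f)) =
      1 - PowerSeries.C (((chd t c w * a : ℤ)) : ℂ) * PowerSeries.X ^ f +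
        PowerSeries.C (((p ^ f : ℕ) : ℤ) : ℂ) * (PowerSeries.X ^ f * PowerSeries.X ^ f) := by
    have e1 : (((chd t c w * a : ℤ)) : ℂ) = (chd t c w : ℂ) * A + (chd t c w : ℂ) * B := by
      push_cast
      rw [← hs]
      ring
    have e2 : ((((p ^ f : ℕ) : ℤ)) : ℂ) = ((chd t c w : ℂ) * A) * ((chd t c w : ℂ) * B) := by
      push_cast
      rw [← hm]
      linear_combination -(A * B) * hcsq
    rw [e1, e2]
    simp only [map_add, map_mul]
    ring
  rw [h8]
  exact h3

end

end QTF
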