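import Pool.Agent.QTF.L0
import Pool.Agent.QTF.L2
import Pool.Agent.QTF.L3
import Pool.Agent.QTF.Up

/-!
# [QTF-G] the Euler product of the twists

`pE s A B f = (1 - s A X^f)(1 - s B X^f)`. `loc_V`: `loc_odd` (L2) or `loc_two` (L3). `fW_bad`: `fW_bad_odd`, `fW_bad_two`; at a bad place `Ur w d` by `LD.ur`.
`LCW_ext`: model `TU.LCW_ext` (TU/G5.lean): multiplicative functions, compare `loc p` (`loc_LCW`, `loc_LFunctionW`, `u6_S`); each `w` above `p`: bad: both `1`; otherwise `exists_tr`, `exists_AB` (L0, `q = p^f`), `loc_V` for both.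
`LCW_congr`: the same `d`. `LCW_sq_mul`: `sg_sq_mul`.
-/

set_option autoImplicit false

open NumberField Ideal IsDedekindDomain ArithmeticFunction
open CM27 CMT GE TR TT TK TU
open scoped Classical

namespace QTF

/-- an Euler factor -/
noncomputable def pE (s : ℤ) (A B : ℂ) (f : ℕ) : PowerSeries ℂ :=
  (1 - PowerSeries.C ((s : ℂ) * A) * PowerSeries.X ^ f) *
    (1 - PowerSeries.C ((s : ℂ) * B) * PowerSeries.X ^ f)

theorem pE_zero (A B : ℂ) (f : ℕ) : pE 0 A B f = 1 := by
  simp [pE]

theorem pE_quad {s : ℤ} (hs : s = 1 ∨ s = -1) (A B : ℂ) (f : ℕ) :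
    pE s A B f * pE (-s) A B f = pE 1 (A ^ 2) (B ^ 2) (2 * f) := by
  rcases hs with rfl | rfl
  · simp only [pE, Int.cast_one, one_mul, Int.cast_neg, neg_mul, map_neg, map_pow, pow_mul']
    ring
  · simp only [pE, Int.cast_one, one_mul, Int.cast_neg, neg_mul, map_neg, map_pow, pow_mul', neg_neg]
    ring

section
variable {F : Type} [Field F] [NumberField F] {i D : 𝓞 F}

theorem loc_V (h : Loc F i D) (w : HeightOneSpectrum (𝓞 F)) {p f : ℕ} (hp : p.Prime) (hf : 0 < f)
    (hw : absNorm w.asIdeal = p ^ f) (hb : ¬ Bad i D w) {d : F} (hd : LD F D d) {a : ℤ}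
    (ha : IsTr i D w a) {A B : ℂ} (hs : A + B = a) (hm : A * B = (p : ℂ) ^ f)
    (C : WeierstrassCurve.VariableChange F) :
    PowerSeries.map (Int.castRingHom ℂ) (loc p (fW F (C • V D d) w)) * pE (sg w d) A B f = 1 := by
  by_cases h2 : (2 : 𝓞 F) ∈ w.asIdeal
  · exact loc_two h w hp hf hw h2 (hd.ur w (Or.inl h2)) ha hs hm C
  · exact loc_odd w hp hf hw h2 (fun hD => hb (Or.inl hD)) (ur_or_od h2 hd.ne) ha hs hm C

theorem fW_bad (h : Loc F i D) (w : HeightOneSpectrum (𝓞 F)) (hb : Bad i D w) {d : F}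
    (hd : LD F D d) (C : WeierstrassCurve.VariableChange F) : fW F (C • V D d) w = 1 := by
  by_cases h2 : (2 : 𝓞 F) ∈ w.asIdeal
  · have hB : Bad2 i D := by
      rcases hb with hD | hB
      · rcases h.two with hB | ⟨m, hm⟩
        · exact hB
        · exfalso
          apply w.isPrime.ne_top
          rw [Ideal.eq_top_iff_one]
          rcases hm with hm | hm
          · have h1 : (1 : 𝓞 F) = D - (i + 4 * m) * 2 := by
              rw [hm]
              ring
            rw [h1]
            exact sub_mem hD (Ideal.mul_mem_left _ _ h2)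
          · have h1 : (1 : 𝓞 F) = D - (-i + 4 * m) * 2 := by
              rw [hm]
              ring
            rw [h1]
            exact sub_mem hD (Ideal.mul_mem_left _ _ h2)
      · exact hB.2
    exact fW_bad_two h hB w h2 (hd.ur w (Or.inl h2)) C
  · have hD : D ∈ w.asIdeal := by
      rcases hb with hD | hB
      · exact hD
      · exact absurd hB.1 h2
    exact fW_bad_odd h w h2 hD (hd.ur w (Or.inr hD)) C

theorem LCW_ext (h : Loc F i D) {d d' : F} (hd : LD F D d) (hd' : LD F D d')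
    (hs : ∀ w : HeightOneSpectrum (𝓞 F), sg w d = sg w d') (C C' : WeierstrassCurve.VariableChange F) :
    LCW F (C • V D d) = LCW F (C' • V D d') := by
  rw [ArithmeticFunction.IsMultiplicative.eq_iff_eq_on_prime_powers _
    (isMultiplicative_LCW F (C • V D d)) _ (isMultiplicative_LCW F (C' • V D d'))]
  intro p k hp
  rw [← coeff_loc, ← coeff_loc]
  congr 1
  rw [loc_LCW, loc_LCW,
    loc_LFunctionW F (C • V D d) hp (u6_S F hp) (fun v hv => (u6_mem_S F hp v).2 hv),
    loc_LFunctionW F (C' • V D d') hp (u6_S F hp) (fun v hv => (u6_mem_S F hp v).2 hv),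
    map_prod, map_prod]
  apply Finset.prod_congr rfl
  intro w hv
  by_cases hb : Bad i D w
  · rw [fW_bad h w hb hd C, fW_bad h w hb hd' C']
  · obtain ⟨a, ha⟩ := exists_tr h w hb
    have hN := u6_d_spec hp w hv
    have hf := u6_d_pos hp w hv
    obtain ⟨A, B, h1, h2⟩ := exists_AB a (p ^ u6_d p w)
    rw [Nat.cast_pow] at h2
    have e1 := loc_V h w hp hf hN hb hd ha h1 h2 C
    have e2 := loc_V h w hp hf hN hb hd' ha h1 h2 C'
    rw [hs w] at e1
    exact u6_inv e1 e2

theorem LCW_congr (h : Loc F i D) {d : F} (hd : LD F D d) (C : WeierstrassCurve.VariableChange F) :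
    LCW F (C • V D d) = LCW F (V D d) := by
  have h1 := LCW_ext h hd hd (fun _ => rfl) C 1
  rwa [one_smul] at h1

end

end QTF
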