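import Pool.Agent.QTF.E4

/-!
# [QTF-L0] the trace of Frobenius at the places of good reduction

`exists_tr`: `k = 𝓞_F / w`; the number of points depends on the residue field only up to isomorphism (`k ≃+* k'` compatible with the maps from `𝓞_F`; see `TT`/`TK` for similar arguments: e. g. `Nat.card_congr`; a ring isomorphism `σ : k ≃+* k'` maps the points of `W` to those of `W.map σ`).
In the case `2 ∈ w`: `¬ Bad` gives `¬ Bad2`, so `Loc.two` gives `m`.
`exists_AB`: roots of `X² - a X + N w` in `ℂ` (`IsAlgClosed`, or `Complex.exists_root`).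
`tr_same`: `𝓞_F / w → 𝓞_{F'} / P` is a bijection (`hn`); `φ' : 𝓞_{F'} →+* k` surjective with kernel `P`: `φ = φ' ∘ algebraMap` is surjective with kernel `w` (`w` = comap; `Nat.card (𝓞_F / w) = Nat.card k`: an injective map between finite sets of the same size; `Ideal.absNorm_apply`, `TT.w1_card`).
`tr_quad`: `k' = 𝓞_{F'} / P` is an algebra over `k = 𝓞_F / w` with `q²` elements: `ct_quad_odd`, `ct_quad_two` (E2, E3), `map` of the curves (`m ↦ algebraMap m`, `Spec` is preserved); the uniqueness up to isomorphism as in `exists_tr`.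
-/

set_option autoImplicit false

open NumberField Ideal IsDedekindDomain ArithmeticFunction
open CM27 CMT GE TR TT TK TU
open scoped Classical

namespace QTF

section
variable {F : Type} [Field F] [NumberField F] {i D : 𝓞 F}

/-- isomorphic curves have the same trace -/
theorem ct_iso {k k' : Type} [Field k] [Finite k] [Field k'] [Finite k'] (σ : k ≃+* k')
    (W : WeierstrassCurve k) : ct k' (W.map (σ : k →+* k')) = ct k W := by
  have h1 : Nat.card k' = Nat.card k := (Nat.card_congr σ.toEquiv).symm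
  have e : {xy : k × k // W.toAffine.Nonsingular xy.1 xy.2} ≃
      {xy : k' × k' // (W.map (σ : k →+* k')).toAffine.Nonsingular xy.1 xy.2} :=
    (Equiv.prodCongr σ.toEquiv σ.toEquiv).subtypeEquiv fun p =>
      (WeierstrassCurve.Affine.map_nonsingular W.toAffine (f := (σ : k →+* k'))
        σ.injective p.1 p.2).symm
  have h2 : Nat.card W.toAffine.Point = Nat.card (W.map (σ : k →+* k')).toAffine.Point :=
    Nat.card_congr ((WeierstrassCurve.Affine.nonsingularPointEquiv W.toAffine).trans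
      ((Equiv.optionCongr e).trans (WeierstrassCurve.Affine.nonsingularPointEquiv
        (W.map (σ : k →+* k')).toAffine).symm))
  unfold ct
  rw [h1, h2]

/-- surjective maps with the same kernel -/
theorem l0_iso {R k k' : Type} [CommRing R] [Field k] [Field k'] (φ : R →+* k) (φ' : R →+* k')
    (h : Function.Surjective φ) (h' : Function.Surjective φ') (hk : ∀ x, φ x = 0 ↔ φ' x = 0) :
    ∃ σ : k ≃+* k', ∀ x, σ (φ x) = φ' x := by
  have hker : RingHom.ker φ = RingHom.ker φ' := by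
    ext x
    rw [RingHom.mem_ker, RingHom.mem_ker]
    exact hk x
  refine ⟨((RingHom.quotientKerEquivOfSurjective h).symm.trans (Ideal.quotEquivOfEq hker)).trans
    (RingHom.quotientKerEquivOfSurjective h'), fun x => ?_⟩
  have h1 : (RingHom.quotientKerEquivOfSurjective h).symm (φ x) =
      Ideal.Quotient.mk (RingHom.ker φ) x := by
    rw [RingEquiv.symm_apply_eq]
    rfl
  rw [RingEquiv.trans_apply, RingEquiv.trans_apply, h1]
  rfl

theorem l0_W {R S : Type} [CommRing R] [CommRing S] (f : R →+* S) (D : R) :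
    (QT.W D).map f = QT.W (f D) := by
  simp [QT.W, WeierstrassCurve.map]

theorem l0_Wa {k k' : Type} [Field k] [Field k'] (f : k →+* k') (m : k) :
    (Wa m).map f = Wa (f m) := by
  simp [Wa, WeierstrassCurve.map]

theorem l0_ctW {R k k' : Type} [CommRing R] [Field k] [Finite k] [Field k'] [Finite k']
    (φ : R →+* k) (φ' : R →+* k') (h : Function.Surjective φ) (h' : Function.Surjective φ')
    (hk : ∀ x, φ x = 0 ↔ φ' x = 0) (D : R) : ct k (QT.W (φ D)) = ct k' (QT.W (φ' D)) := by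
  obtain ⟨σ, hσ⟩ := l0_iso φ φ' h h' hk
  rw [← ct_iso σ (QT.W (φ D)), l0_W]
  congr 2
  exact hσ D

theorem l0_ctWa {R k k' : Type} [CommRing R] [Field k] [Finite k] [Field k'] [Finite k']
    (φ : R →+* k) (φ' : R →+* k') (h : Function.Surjective φ) (h' : Function.Surjective φ')
    (hk : ∀ x, φ x = 0 ↔ φ' x = 0) (m : R) : ct k (Wa (φ m)) = ct k' (Wa (φ' m)) := by
  obtain ⟨σ, hσ⟩ := l0_iso φ φ' h h' hk
  rw [← ct_iso σ (Wa (φ m)), l0_Wa]
  congr 2
  exact hσ m

/-- the residue field -/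
theorem l0_res (w : HeightOneSpectrum (𝓞 F)) : ∃ (k : Type) (_ : Field k) (_ : Finite k)
    (φ : 𝓞 F →+* k), Function.Surjective φ ∧ (∀ x, φ x = 0 ↔ x ∈ w.asIdeal) ∧
      Nat.card k = absNorm w.asIdeal := by
  have hM : w.asIdeal.IsMaximal := w.isMaximal
  have hfin : Finite (𝓞 F ⧸ w.asIdeal) := Ideal.finiteQuotientOfFreeOfNeBot _ w.ne_bot
  refine ⟨𝓞 F ⧸ w.asIdeal, Ideal.Quotient.field _, hfin, Ideal.Quotient.mk w.asIdeal,
    Ideal.Quotient.mk_surjective, fun x => ?_, ?_⟩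
  · exact Ideal.Quotient.eq_zero_iff_mem
  · rw [Ideal.absNorm_apply, Submodule.cardQuot_apply]

/-- the cardinality of a residue field -/
theorem l0_card {w : HeightOneSpectrum (𝓞 F)} {k : Type} [Field k] (φ : 𝓞 F →+* k)
    (h : Function.Surjective φ) (hk : ∀ x, φ x = 0 ↔ x ∈ w.asIdeal) :
    Nat.card k = absNorm w.asIdeal := by
  obtain ⟨k', _, _, φ', h', hk', hc⟩ := l0_res w
  obtain ⟨σ, -⟩ := l0_iso φ φ' h h' fun x => (hk x).trans (hk' x).symm
  rw [← hc]
  exact Nat.card_congr σ.toEquiv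

theorem exists_tr (h : Loc F i D) (w : HeightOneSpectrum (𝓞 F)) (hb : ¬ Bad i D w) :
    ∃ a : ℤ, IsTr i D w a := by
  unfold Bad at hb
  push Not at hb
  obtain ⟨hD, hb2⟩ := hb
  obtain ⟨k, _, _, φ, hφ, h0, -⟩ := l0_res w
  by_cases h2 : (2 : 𝓞 F) ∈ w.asIdeal
  · obtain ⟨m, hm⟩ := h.two.resolve_left (hb2 h2)
    refine ⟨ct k (Wa (φ m)), Or.inr ⟨h2, m, hm, ?_⟩⟩
    intro k' _ _ φ' hφ' h0'
    exact l0_ctWa φ φ' hφ hφ' (fun x => (h0 x).trans (h0' x).symm) m
  · refine ⟨ct k (QT.W (φ D)), Or.inl ⟨h2, hD, ?_⟩⟩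
    intro k' _ _ φ' hφ' h0'
    exact l0_ctW φ φ' hφ hφ' (fun x => (h0 x).trans (h0' x).symm) D

theorem exists_AB (a : ℤ) (q : ℕ) : ∃ A B : ℂ, A + B = a ∧ A * B = q := by
  obtain ⟨s, hs⟩ := IsAlgClosed.exists_pow_nat_eq ((a : ℂ) ^ 2 - 4 * q) (n := 2) (by norm_num)
  refine ⟨(a + s) / 2, (a - s) / 2, by ring, ?_⟩
  linear_combination (-1 / 4 : ℂ) * hs

variable {F' : Type} [Field F'] [NumberField F'] [Algebra F F'] {w : HeightOneSpectrum (𝓞 F)}
  {P : HeightOneSpectrum (𝓞 F')} (hP : P.asIdeal.comap (algebraMap (𝓞 F) (𝓞 F')) = w.asIdeal)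
include hP

theorem l0_mem (x : 𝓞 F) : algebraMap (𝓞 F) (𝓞 F') x ∈ P.asIdeal ↔ x ∈ w.asIdeal := by
  rw [← hP, Ideal.mem_comap]

omit [NumberField F] [NumberField F'] hP in
theorem l0_spec {m : 𝓞 F} (hm : Spec i D m) : Spec (algebraMap (𝓞 F) (𝓞 F') i)
    (algebraMap (𝓞 F) (𝓞 F') D) (algebraMap (𝓞 F) (𝓞 F') m) := by
  rcases hm with h | h
  · left
    rw [h]
    simp only [map_add, map_mul, map_one, map_ofNat]
  · right
    rw [h]
    simp only [map_add, map_sub, map_mul, map_one, map_ofNat]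

theorem l0_two : (2 : 𝓞 F') ∈ P.asIdeal ↔ (2 : 𝓞 F) ∈ w.asIdeal := by
  rw [← l0_mem hP, map_ofNat]

/-- the case of the same residue field -/
theorem l0_same (hn : absNorm P.asIdeal = absNorm w.asIdeal) {k : Type} [Field k] [Finite k]
    (φ' : 𝓞 F' →+* k) (h' : Function.Surjective φ') (hk' : ∀ x, φ' x = 0 ↔ x ∈ P.asIdeal) :
    Function.Surjective (φ'.comp (algebraMap (𝓞 F) (𝓞 F'))) ∧
      ∀ x, φ'.comp (algebraMap (𝓞 F) (𝓞 F')) x = 0 ↔ x ∈ w.asIdeal := by
  have h0 : ∀ x, φ'.comp (algebraMap (𝓞 F) (𝓞 F')) x = 0 ↔ x ∈ w.asIdeal := by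
    intro x
    rw [RingHom.comp_apply, hk', l0_mem hP]
  refine ⟨?_, h0⟩
  obtain ⟨k0, _, _, φ, hφ, h1, hc⟩ := l0_res w
  have hc' : Nat.card k = Nat.card k0 := by
    rw [hc, ← hn]
    exact l0_card φ' h' hk'
  -- the induced map
  let f : k0 → k := fun z => φ' (algebraMap (𝓞 F) (𝓞 F') (Function.surjInv hφ z))
  have hf : ∀ x, f (φ x) = φ' (algebraMap (𝓞 F) (𝓞 F') x) := by
    intro x
    have h2 : φ (Function.surjInv hφ (φ x) - x) = 0 := by
      rw [map_sub, Function.surjInv_eq hφ, sub_self]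
    have h3 := (h0 _).2 ((h1 _).1 h2)
    rw [map_sub, sub_eq_zero] at h3
    exact h3
  have hinj : Function.Injective f := by
    intro y z hyz
    obtain ⟨x, rfl⟩ := hφ y
    obtain ⟨x', rfl⟩ := hφ z
    rw [hf, hf] at hyz
    have h3 : φ'.comp (algebraMap (𝓞 F) (𝓞 F')) (x - x') = 0 := by
      rw [map_sub, sub_eq_zero]
      exact hyz
    have h4 := (h1 _).2 ((h0 _).1 h3)
    rw [map_sub, sub_eq_zero] at h4
    exact h4
  have hbij : Function.Bijective f := hinj.bijective_of_nat_card_le hc'.le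
  intro y
  obtain ⟨z, rfl⟩ := hbij.2 y
  obtain ⟨x, rfl⟩ := hφ z
  exact ⟨x, (hf x).symm⟩

theorem tr_same (hn : absNorm P.asIdeal = absNorm w.asIdeal) {a : ℤ} (ha : IsTr i D w a) :
    IsTr (algebraMap (𝓞 F) (𝓞 F') i) (algebraMap (𝓞 F) (𝓞 F') D) P a := by
  rcases ha with ⟨h2, hD, ha⟩ | ⟨h2, m, hm, ha⟩
  · refine Or.inl ⟨fun h => h2 ((l0_two hP).1 h), fun h => hD ((l0_mem hP D).1 h), ?_⟩
    intro k _ _ φ' h' hk'
    obtain ⟨h3, h4⟩ := l0_same hP hn φ' h' hk'
    have h5 := ha k _ h3 h4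
    rw [RingHom.comp_apply] at h5
    exact h5
  · refine Or.inr ⟨(l0_two hP).2 h2, _, l0_spec hm, ?_⟩
    intro k _ _ φ' h' hk'
    obtain ⟨h3, h4⟩ := l0_same hP hn φ' h' hk'
    have h5 := ha k _ h3 h4
    rw [RingHom.comp_apply] at h5
    exact h5

/-- the residue field extension -/
theorem l0_ext {k k' : Type} [Field k] [Field k'] (φ : 𝓞 F →+* k) (hφ : Function.Surjective φ)
    (h0 : ∀ x, φ x = 0 ↔ x ∈ w.asIdeal) (φ' : 𝓞 F' →+* k')
    (hk' : ∀ x, φ' x = 0 ↔ x ∈ P.asIdeal) :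
    ∃ g : k →+* k', ∀ x, g (φ x) = φ' (algebraMap (𝓞 F) (𝓞 F') x) := by
  refine ⟨φ.liftOfSurjective hφ ⟨φ'.comp (algebraMap (𝓞 F) (𝓞 F')), ?_⟩, fun x => ?_⟩
  · intro x hx
    rw [RingHom.mem_ker] at hx ⊢
    rw [RingHom.comp_apply, hk', l0_mem hP]
    exact (h0 x).1 hx
  · exact RingHom.liftOfRightInverse_comp_apply _ _ _ _ x

theorem tr_quad (hn : absNorm P.asIdeal = absNorm w.asIdeal ^ 2) {a : ℤ} (ha : IsTr i D w a) :
    IsTr (algebraMap (𝓞 F) (𝓞 F') i) (algebraMap (𝓞 F) (𝓞 F') D) P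
      (a ^ 2 - 2 * (absNorm w.asIdeal : ℤ)) := by
  obtain ⟨k, _, _, φ, hφ, h1, hc⟩ := l0_res w
  rcases ha with ⟨h2, hD, ha⟩ | ⟨h2, m, hm, ha⟩
  · refine Or.inl ⟨fun h => h2 ((l0_two hP).1 h), fun h => hD ((l0_mem hP D).1 h), ?_⟩
    intro k' _ _ φ' h' hk'
    obtain ⟨g, hg⟩ := l0_ext hP φ hφ h1 φ' hk'
    let := g.toAlgebra
    let := Fintype.ofFinite k
    let := Fintype.ofFinite k'
    have hcc : Fintype.card k' = Fintype.card k ^ 2 := by
      rw [← Nat.card_eq_fintype_card, ← Nat.card_eq_fintype_card, hc, ← hn]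
      exact l0_card φ' h' hk'
    have e2 : (2 : k) ≠ 0 := by
      intro h
      apply h2
      rw [← h1, map_ofNat]
      exact h
    have eD : φ D ≠ 0 := fun h => hD ((h1 D).1 h)
    have h3 := ct_quad_odd k k' hcc e2 eD
    have h4 : algebraMap k k' (φ D) = φ' (algebraMap (𝓞 F) (𝓞 F') D) := hg D
    rw [h4, ← ha k φ hφ h1, ← Nat.card_eq_fintype_card, hc] at h3
    exact h3.symm
  · refine Or.inr ⟨(l0_two hP).2 h2, _, l0_spec hm, ?_⟩
    intro k' _ _ φ' h' hk'
    obtain ⟨g, hg⟩ := l0_ext hP φ hφ h1 φ' hk'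
    let := g.toAlgebra
    let := Fintype.ofFinite k
    let := Fintype.ofFinite k'
    have hcc : Fintype.card k' = Fintype.card k ^ 2 := by
      rw [← Nat.card_eq_fintype_card, ← Nat.card_eq_fintype_card, hc, ← hn]
      exact l0_card φ' h' hk'
    have e2 : (2 : k) = 0 := by
      have h := (h1 2).2 h2
      rwa [map_ofNat] at h
    have h3 := ct_quad_two k k' hcc e2 (φ m)
    have h4 : algebraMap k k' (φ m) = φ' (algebraMap (𝓞 F) (𝓞 F') m) := hg m
    rw [h4, ← ha k φ hφ h1, ← Nat.card_eq_fintype_card, hc] at h3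
    exact h3.symm

end

end QTF
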