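import Pool.Agent.QTF.Defs
import Pool.Agent.QTS.A1

/-!
# [QTF-L1] integral equations for the twists

`V D (x² η) : y² = x³ - D x⁴ η² x` is `C • (y² = x³ - D η² x)` with `C = ⟨x⁻¹, 0, 0, 0⟩` (model `TU.Wd_eq`, TU/G3.lean).
-/

set_option autoImplicit false

open NumberField Ideal IsDedekindDomain ArithmeticFunction
open CM27 CMT GE TR TT TK TU
open scoped Classical

namespace QTF

section
variable {F : Type} [Field F] [NumberField F]

theorem V_eq (D η : 𝓞 F) {x : F} (hx : x ≠ 0) : ∃ C : WeierstrassCurve.VariableChange F,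
    V D (x ^ 2 * (η : F)) = C • (QT.W (D * η ^ 2)).map (algebraMap (𝓞 F) F) := by
  refine ⟨⟨(Units.mk0 x hx)⁻¹, 0, 0, 0⟩, ?_⟩
  rw [QTS.W_map]
  unfold V QT.W
  have hc : (algebraMap (𝓞 F) F) (D * η ^ 2) = (D : F) * (η : F) ^ 2 := by
    rw [map_mul, map_pow]
  rw [hc]
  ext
  · rw [WeierstrassCurve.variableChange_a₁]
    simp only [inv_inv, Units.val_mk0]
    ring
  · rw [WeierstrassCurve.variableChange_a₂]
    simp only [inv_inv, Units.val_mk0]
    ring
  · rw [WeierstrassCurve.variableChange_a₃]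
    simp only [inv_inv, Units.val_mk0]
    ring
  · rw [WeierstrassCurve.variableChange_a₄]
    simp only [inv_inv, Units.val_mk0]
    ring
  · rw [WeierstrassCurve.variableChange_a₆]
    simp only [inv_inv, Units.val_mk0]
    ring

theorem V_sq (D : 𝓞 F) {x : F} (hx : x ≠ 0) (d : F) : ∃ C : WeierstrassCurve.VariableChange F,
    V D (x ^ 2 * d) = C • V D d := by
  refine ⟨⟨(Units.mk0 x hx)⁻¹, 0, 0, 0⟩, ?_⟩
  unfold V QT.W
  ext
  · rw [WeierstrassCurve.variableChange_a₁]
    simp only [inv_inv, Units.val_mk0]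
    ring
  · rw [WeierstrassCurve.variableChange_a₂]
    simp only [inv_inv, Units.val_mk0]
    ring
  · rw [WeierstrassCurve.variableChange_a₃]
    simp only [inv_inv, Units.val_mk0]
    ring
  · rw [WeierstrassCurve.variableChange_a₄]
    simp only [inv_inv, Units.val_mk0]
    ring
  · rw [WeierstrassCurve.variableChange_a₆]
    simp only [inv_inv, Units.val_mk0]
    ring

theorem V_Δ_ne (D : 𝓞 F) (hD : D ≠ 0) {d : F} (hd : d ≠ 0) : (V D d).Δ ≠ 0 := by
  unfold V
  rw [QTS.W_Δ]
  have h1 : (D : F) ≠ 0 := fun h => hD (by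
    apply RingOfIntegers.ext
    rw [h]
    rfl)
  exact mul_ne_zero (by norm_num) (pow_ne_zero 3 (mul_ne_zero h1 (pow_ne_zero 2 hd)))

/-- base change -/
theorem V_map {F' : Type} [Field F'] [NumberField F'] [Algebra F F'] (D : 𝓞 F) (d : F) :
    (V D d).map (algebraMap F F') = V (algebraMap (𝓞 F) (𝓞 F') D) (algebraMap F F' d) := by
  unfold V
  rw [QTS.W_map, map_mul, map_pow]
  rfl

end

end QTF
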