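import Pool.Agent.QTF.T1

/-!
# [QTF-R2] the converse of `good_insert`
-/

set_option autoImplicit false

open scoped Classical

namespace QTF

open PI

section
variable {s t : ℕ} {S : Finset Gi} {a : Gi → ℕ} {q : Gi} (hq : Prime q) (hP : Prim q) (hS : q ∉ S)
include hq hP hS

/-- rows of the new matrix, without assumption on the symbol -/
theorem rows' (h : QT.Adm s t S a) (w : S → ZMod 2) (y : ZMod 2) :
    ∃ z : ↥(insert q S) → ZMod 2, (∀ j : S, z ⟨j, Finset.mem_insert_of_mem j.2⟩ = w j) ∧
      z ⟨q, Finset.mem_insert_self q S⟩ = y ∧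
      (∀ j : S, (QT.LM s t (insert q S) (ap a q)).mulVec z ⟨j, Finset.mem_insert_of_mem j.2⟩ =
        (QT.LM s t S a).mulVec w j) ∧
      (QT.LM s t (insert q S) (ap a q)).mulVec z ⟨q, Finset.mem_insert_self q S⟩ =
        sy (QT.Dd s t S a) q * y + ∑ k : S, (a k : ZMod 2) * sy k q * w k := by
  set zz : Gi → ZMod 2 := fun x => if hx : x ∈ S then w ⟨x, hx⟩ else y with hzz
  have hzS : ∀ j : S, zz j = w j := fun j => by
    rw [hzz]
    simp only [dif_pos j.2]
  have hzq : zz q = y := by
    rw [hzz]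
    simp only [dif_neg hS]
  refine ⟨fun j => zz j, fun j => hzS j, hzq, fun j => ?_, ?_⟩
  · rw [mulVec_eq s t (insert q S) (ap a q) _ zz (fun _ => rfl), mulVec_eq s t S a w zz
      (fun k => (hzS k).symm)]
    have hne : q ≠ (j : Gi) := fun e => hS (e ▸ j.2)
    have he : (insert q S).erase (j : Gi) = insert q (S.erase j) := by
      rw [Finset.erase_insert_of_ne hne]
    have hsub : S.erase (j : Gi) ⊆ S := Finset.erase_subset _ _
    simp only
    rw [he, sum_ap hS _ hsub]
    congr 1
    have h2 : ∀ k : Gi, (ap a q k : ZMod 2) * sy k j * zz k = (ap a q k : ZMod 2) * (sy k j * zz k) :=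
      fun k => mul_assoc _ _ _
    simp only [h2]
    rw [sum_ap hS _ hsub]
    exact Finset.sum_congr rfl fun k _ => by rw [mul_assoc]
  · rw [mulVec_eq s t (insert q S) (ap a q) _ zz (fun _ => rfl)]
    simp only
    rw [Finset.erase_insert hS]
    have h3 : ∑ l ∈ S, (ap a q l : ZMod 2) * sy l q = ∑ l ∈ S, (a l : ZMod 2) * sy l q :=
      Finset.sum_congr rfl fun l hl => by rw [ap_mem hS hl]
    rw [h3, ← sy_Dd h hq hP hS, hzq]
    congr 1
    rw [← Finset.sum_coe_sort S (fun k => (ap a q k : ZMod 2) * sy k q * zz k)]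
    refine Finset.sum_congr rfl fun k _ => ?_
    rw [ap_mem hS k.2, hzS k]

theorem adm_of_insert (h : QT.Adm s t (insert q S) (ap a q)) : QT.Adm s t S a := by
  obtain ⟨h1, h2, h3, h4⟩ := h
  refine ⟨fun p hp => h1 p (Finset.mem_insert_of_mem hp), fun p hp => ?_, h3, h4⟩
  have := h2 p (Finset.mem_insert_of_mem hp)
  rwa [ap_mem hS hp] at this

/-- the symbol is `1` -/
theorem sy_of_insert (h : QT.Good s t (insert q S) (ap a q)) : sy (QT.Dd s t S a) q = 1 := by
  have hadm' : QT.Adm s t (insert q S) (ap a q) := by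
    rcases h with h | h | h
    · exact h.1
    · exact h.1
    · exact h.1
  have hadm := adm_of_insert hq hP hS hadm'
  rcases sy_cases (QT.Dd s t S a) q with h0 | h0
  swap
  · exact h0
  exfalso
  obtain ⟨z, h1, h2, h3, h4⟩ := rows' hq hP hS hadm (0 : S → ZMod 2) 1
  have hz : (QT.LM s t (insert q S) (ap a q)).mulVec z = 0 := by
    funext j
    obtain ⟨j, hj⟩ := j
    rcases Finset.mem_insert.1 hj with e | hj'
    · subst e
      rw [h4, h0]
      simp
    · rw [h3 ⟨j, hj'⟩]
      simp
  have hne : z ≠ 0 := by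
    intro h5
    rw [h5] at h2
    exact zero_ne_one h2
  rcases h with h | h | h
  · exact hne (h.2.2 z hz)
  · rcases h.2.2 z hz with h5 | h5
    · exact hne h5
    · have hS0 : S = ∅ := by
        rw [Finset.eq_empty_iff_forall_notMem]
        intro p hp
        have h6 := h1 ⟨p, hp⟩
        rw [h5] at h6
        exact one_ne_zero h6
      have hb : QT.bD (insert q S) (ap a q) = 0 := by
        rw [bD_insert hS, hS0]
        rfl
      have hg : QT.gD (insert q S) (ap a q) = 0 := by
        rw [gD_insert hS, hS0]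
        rfl
      have h01 : (0 : ZMod 2) ≠ 1 := by decide
      rcases h.2.1 with ⟨-, -, h7⟩ | ⟨-, ⟨-, h7⟩ | ⟨-, h7⟩⟩
      · rw [hb] at h7
        exact h01 h7
      · rw [hb, hg, add_zero] at h7
        exact h01 h7
      · rw [hg] at h7
        exact h01 h7
  · have h7 := h.2.2 0 z (by
      rw [mul_zero, zero_add]
      refine Finset.sum_eq_zero fun j _ => ?_
      obtain ⟨j, hj⟩ := j
      rcases Finset.mem_insert.1 hj with e | hj'
      · subst e
        have h0' : ((2 : ℕ) : ZMod 2) = 0 := by decide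
        rw [ap_self, h0', zero_mul, zero_mul]
      · rw [h1 ⟨j, hj'⟩]
        simp) (fun j => by
      rw [hz]
      simp)
    exact hne h7.2

theorem good_of_insert (h : QT.Good s t (insert q S) (ap a q)) : QT.Good s t S a := by
  have hsy := sy_of_insert hq hP hS h
  have hzy : ∀ x : ZMod 2, 1 * x + x = 0 := by decide
  have ext0 : ∀ (z : ↥(insert q S) → ZMod 2) (w : S → ZMod 2),
      (∀ j : S, z ⟨j, Finset.mem_insert_of_mem j.2⟩ = w j) → ∀ c : ZMod 2, (∀ j, z j = c) → ∀ j, w j = c :=
    fun z w h1 c h2 j => by rw [← h1 j, h2]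
  have key : ∀ (hadm : QT.Adm s t S a) (w : S → ZMod 2), ∃ z : ↥(insert q S) → ZMod 2,
      (∀ j : S, z ⟨j, Finset.mem_insert_of_mem j.2⟩ = w j) ∧
      (∀ j : S, (QT.LM s t (insert q S) (ap a q)).mulVec z ⟨j, Finset.mem_insert_of_mem j.2⟩ =
        (QT.LM s t S a).mulVec w j) ∧
      ((QT.LM s t S a).mulVec w = 0 → (QT.LM s t (insert q S) (ap a q)).mulVec z = 0) := by
    intro hadm w
    obtain ⟨z, h1, h2, h3, h4⟩ := rows' hq hP hS hadm w (∑ k : S, (a k : ZMod 2) * sy k q * w k)
    refine ⟨z, h1, h3, fun hw => ?_⟩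
    funext j
    obtain ⟨j, hj⟩ := j
    rcases Finset.mem_insert.1 hj with e | hj'
    · subst e
      rw [h4, hsy]
      exact hzy _
    · rw [h3 ⟨j, hj'⟩, hw]
      rfl
  rcases h with h | h | h
  · refine Or.inl ⟨adm_of_insert hq hP hS h.1, ?_, fun w hw => ?_⟩
    · have h5 := h.2.1
      rwa [bD_insert hS] at h5
    · obtain ⟨z, h1, -, h3⟩ := key (adm_of_insert hq hP hS h.1) w
      have h6 := h.2.2 z (h3 hw)
      funext j
      exact ext0 z w h1 0 (fun j => by rw [h6]; rfl) j
  · refine Or.inr (Or.inl ⟨adm_of_insert hq hP hS h.1, ?_, fun w hw => ?_⟩)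
    · have h5 := h.2.1
      rwa [bD_insert hS, gD_insert hS] at h5
    · obtain ⟨z, h1, -, h3⟩ := key (adm_of_insert hq hP hS h.1) w
      rcases h.2.2 z (h3 hw) with h6 | h6
      · left
        funext j
        exact ext0 z w h1 0 (fun j => by rw [h6]; rfl) j
      · right
        funext j
        exact ext0 z w h1 1 (fun j => by rw [h6]; rfl) j
  · refine Or.inr (Or.inr ⟨adm_of_insert hq hP hS h.1, h.2.1, fun x w h5 h6 => ?_⟩)
    have hadm := adm_of_insert hq hP hS h.1
    obtain ⟨z, h1, h2, h3, h4⟩ := rows' hq hP hS hadm w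
      (x * sy ii q + ∑ k : S, (a k : ZMod 2) * sy k q * w k)
    have h7 := h.2.2 x z (by
      rw [bD_insert hS]
      have h8 : ∑ j : ↥(insert q S), (ap a q j : ZMod 2) * sy ii j * z j =
          ∑ j : S, (a j : ZMod 2) * sy ii j * w j := by
        set zz : Gi → ZMod 2 := fun x => if hx : x ∈ insert q S then z ⟨x, hx⟩ else 0 with hzz
        have hz : ∀ j : ↥(insert q S), z j = zz j := fun j => by
          rw [hzz]
          simp only [dif_pos j.2]
        have e1 : ∑ j : ↥(insert q S), (ap a q j : ZMod 2) * sy ii j * z j =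
            ∑ j : ↥(insert q S), (fun j : Gi => (ap a q j : ZMod 2) * (sy ii j * zz j)) j :=
          Finset.sum_congr rfl fun j _ => by rw [hz j, mul_assoc]
        rw [e1, Finset.sum_coe_sort (insert q S) (fun j : Gi => (ap a q j : ZMod 2) * (sy ii j * zz j)),
          sum_ap hS S subset_rfl, ← Finset.sum_coe_sort S]
        refine Finset.sum_congr rfl fun j _ => ?_
        rw [← h1 j, hz, mul_assoc]
      rw [h8]
      exact h5) (fun j => by
      obtain ⟨j, hj⟩ := j
      rcases Finset.mem_insert.1 hj with e | hj'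
      · subst e
        simp only
        rw [h4, hsy]
        generalize x * sy ii j = u
        generalize ∑ k : S, (a k : ZMod 2) * sy k j * w k = v
        revert u v
        decide
      · rw [h3 ⟨j, hj'⟩]
        exact h6 ⟨j, hj'⟩)
    refine ⟨h7.1, ?_⟩
    funext j
    exact ext0 z w h1 0 (fun j => by rw [h7.2]; rfl) j

end

end QTF
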