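import Pool.Agent.QTF.R2
import Pool.Agent.QTF.T2

/-!
# [QTF-R2b] the converse of `good_union`
-/

set_option autoImplicit false

open scoped Classical

namespace QTF

open PI

theorem ap_eq {a : Gi → ℕ} {q : Gi} (h : a q = 2) : ap a q = a := by
  funext x
  unfold ap
  split_ifs with hx
  · rw [hx, h]
  · rfl

theorem Dd_union {s t : ℕ} {S T : Finset Gi} {a : Gi → ℕ} (hd : Disjoint S T) (h2 : ∀ q ∈ T, a q = 2) :
    QT.Dd s t (S ∪ T) a = QT.Dd s t S a * (∏ q ∈ T, q) ^ 2 := by
  unfold QT.Dd
  rw [Finset.prod_union hd]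
  have h1 : ∏ q ∈ T, QT.st q ^ a q = (∏ q ∈ T, q) ^ 2 := by
    rw [← Finset.prod_pow]
    refine Finset.prod_congr rfl fun q hq => ?_
    rw [h2 q hq]
    unfold QT.st
    split_ifs
    · rfl
    · rw [neg_sq]
  rw [h1]
  ring

theorem good_of_union {s t : ℕ} {S : Finset Gi} {a : Gi → ℕ} (T : Finset Gi) (hd : Disjoint S T)
    (h2 : ∀ q ∈ T, a q = 2) (h : QT.Good s t (S ∪ T) a) :
    QT.Good s t S a ∧ ∀ q ∈ T, sy (QT.Dd s t S a) q = 1 := by
  induction T using Finset.induction_on with
  | empty =>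
    rw [Finset.union_empty] at h
    exact ⟨h, fun q hq => absurd hq (Finset.notMem_empty q)⟩
  | insert q T hq ih =>
    have hadm : QT.Adm s t (S ∪ insert q T) a := by
      rcases h with h | h | h
      · exact h.1
      · exact h.1
      · exact h.1
    have hpr : ∀ p ∈ insert q T, Prime p ∧ Prim p := fun p hp =>
      hadm.1 p (Finset.mem_union_right _ hp)
    obtain ⟨hqp, hqP⟩ := hpr q (Finset.mem_insert_self _ _)
    have hqS : q ∉ S ∪ T := by
      rw [Finset.mem_union]
      rintro (h3 | h3)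
      · exact (Finset.disjoint_left.1 hd h3) (Finset.mem_insert_self _ _)
      · exact hq h3
    have haq : a q = 2 := h2 q (Finset.mem_insert_self _ _)
    rw [Finset.union_insert] at h
    have h' : QT.Good s t (insert q (S ∪ T)) (ap a q) := by
      rw [ap_eq haq]
      exact h
    have hd' : Disjoint S T := hd.mono_right (Finset.subset_insert _ _)
    have h2' : ∀ p ∈ T, a p = 2 := fun p hp => h2 p (Finset.mem_insert_of_mem hp)
    have hs := sy_of_insert hqp hqP hqS h'
    obtain ⟨g1, g2⟩ := ih hd' h2' (good_of_insert hqp hqP hqS h')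
    refine ⟨g1, fun p hp => ?_⟩
    rcases Finset.mem_insert.1 hp with rfl | hp
    · rw [Dd_union hd' h2', sy_mul_sq hqp hqP] at hs
      · exact hs
      · intro h3
        obtain ⟨r, hr, h4⟩ := (hqp.dvd_finsetProd_iff _).1 h3
        obtain ⟨hrp, hrP⟩ := hpr r (Finset.mem_insert_of_mem hr)
        exact prime_ndvd hrp hrP hqp hqP (fun e => hq (e ▸ hr)) h4
    · exact g2 p hp

end QTF
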