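import Pool.Agent.QTF.R2b
import Pool.Agent.QT.Q13

/-!
# [QTF-R3] a positive proportion of the `D` is good and has given nice primes

`R` a finite set of primary primes. `QT.dens_all` (QT/Q9.lean) with `A = R` and a small `ε`: `∑_{t,s} #{T ∈ sb (X / 2^t) : Good s t (toS R T) (expo R R)} ≥ c X` (the number of the `T` is at least `κ X / 2`: `q9_card_sb` (QT/Q9.lean); compare QT/Q12.lean, Q12a.lean, `ncard_quarA_ge`).
`toS R T = S ∪ R'` with `S = T.image (·.1.1)`, `R' = R.image Subtype.val` disjoint (`toS_disj`), `expo R R = 2` on `R'` (`expo_..` in QT/P0.lean, Q11.lean): `good_of_union` (R2b): `D₀ = Dd s t S (expo R R)` is good and `sy D₀ ρ = 1` for `ρ ∈ R`; `ρ ∤ D₀` (`QT.Dd_dvd`).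
The norm is `2^t N(T) ≤ X` (`QT.Dd_norm` as in `norm_DT`, QT/Q11.lean); `(s, t, T) ↦ D₀` is injective (`Dd_union`: `D₀ (∏ ρ)² = Dd s t (toS R T) (expo R R)`, `QT.DT_inj`). The set on the right is finite (`D.norm ≤ X`).
-/

set_option autoImplicit false

open scoped Classical

namespace QTF

open PI QT

theorem r3_norm (s t : ℕ) (R : Finset OPi) (T : Finset (PR R)) :
    (QT.Dd s t (T.image fun v => v.1.1) (expo R R)).norm.natAbs = 2 ^ t * PP.nS (nR R) T := by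
  rw [Dd_norm]
  congr 1
  rw [Finset.prod_image (fun v _ w _ h => Subtype.ext (Subtype.ext h))]
  unfold PP.nS
  refine Finset.prod_congr rfl fun v _ => ?_
  rw [expo_T (Finset.Subset.refl R), pow_one]
  rfl

theorem r3_mem {R : Finset OPi} {X s t : ℕ} {T : Finset (PR R)}
    (h : QT.Good s t (toS R T) (expo R R)) (hX : 2 ^ t * PP.nS (nR R) T ≤ X) :
    ∃ D₀ : Gi, (∃ (s t : ℕ) (S : Finset Gi) (a : Gi → ℕ), QT.Good s t S a ∧ D₀ = QT.Dd s t S a ∧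
      D₀.norm ≤ X ∧ ∀ ρ ∈ R, ¬ ρ.1 ∣ D₀ ∧ sy D₀ ρ.1 = 1) ∧
      QT.Dd s t (toS R T) (expo R R) = D₀ * (∏ q ∈ R.image Subtype.val, q) ^ 2 := by
  have hd := toS_disj R T
  have h2 : ∀ q ∈ R.image Subtype.val, expo R R q = 2 := by
    intro q hq
    obtain ⟨v, hv, rfl⟩ := Finset.mem_image.1 hq
    exact expo_A R R hv
  obtain ⟨g1, g2⟩ := good_of_union (R.image Subtype.val) hd h2 h
  have hadm : QT.Adm s t (T.image fun v => v.1.1) (expo R R) := by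
    rcases g1 with g | g | g
    · exact g.1
    · exact g.1
    · exact g.1
  refine ⟨QT.Dd s t (T.image fun v => v.1.1) (expo R R), ⟨s, t, _, _, g1, rfl, ?_, ?_⟩, ?_⟩
  · have h3 := r3_norm s t R T
    have h4 := GaussianInt.norm_nonneg (QT.Dd s t (T.image fun v => v.1.1) (expo R R))
    omega
  · intro ρ hρ
    have hρ' : ρ.1 ∈ R.image Subtype.val := Finset.mem_image_of_mem _ hρ
    refine ⟨fun h5 => ?_, g2 _ hρ'⟩
    exact Finset.disjoint_left.1 hd ((Dd_dvd _ _ _ _ hadm ρ.2.1 ρ.2.2).1 h5) hρ'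
  · exact Dd_union hd h2

theorem r3_quarA {Y : ℕ} {D : Gi} (h : D ∈ quarA Y) : D.norm ≤ (Y : ℤ) := h.2.2

theorem r3_count (R : Finset OPi) (X : ℕ) (Tgt : Set Gi) (hfin : Tgt.Finite)
    (hTgt : ∀ D : Gi, (∃ (s t : ℕ) (S : Finset Gi) (a : Gi → ℕ), QT.Good s t S a ∧ D = QT.Dd s t S a ∧
      D.norm ≤ X ∧ ∀ ρ ∈ R, ¬ ρ.1 ∣ D ∧ sy D ρ.1 = 1) → D ∈ Tgt) :
    ∑ t ∈ Finset.range 4, ∑ s ∈ Finset.range 4,
      (((arQT R).sb (X / 2 ^ t)).filter fun T => QT.Good s t (toS R T) (expo R R)).card ≤ Tgt.ncard := by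
  obtain ⟨w, hw⟩ : ∃ w, w = wt R R := ⟨_, rfl⟩
  have hw0 : 0 < w := by
    rw [hw]
    exact wt_pos R R
  obtain ⟨Y, hY⟩ : ∃ Y, Y = X * w := ⟨_, rfl⟩
  obtain ⟨B, hB⟩ : ∃ B : Set Gi, B = {D : Gi | D.norm ≤ (Y : ℤ)} ∩
    (fun D₀ : Gi => D₀ * (∏ q ∈ R.image Subtype.val, q) ^ 2) '' Tgt := ⟨_, rfl⟩
  have hB1 : B ⊆ {D : Gi | D.norm ≤ (Y : ℤ)} := by
    rw [hB]
    exact Set.inter_subset_left
  have hB2 : B.ncard ≤ Tgt.ncard := by
    rw [hB]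
    refine (Set.ncard_le_ncard Set.inter_subset_right (hfin.image _)).trans ?_
    exact Set.ncard_image_le hfin
  obtain ⟨P, hP⟩ : ∃ P : (R : Finset OPi) → Finset OPi → ℕ → ℕ → Finset (PR R) → Prop,
      ∀ R' A s t T, P R' A s t T ↔ (R' = R ∧ A = R' ∧ QT.Good s t (toS R' T) (expo A R')) :=
    ⟨fun R' A s t T => R' = R ∧ A = R' ∧ QT.Good s t (toS R' T) (expo A R'), fun _ _ _ _ _ => Iff.rfl⟩
  have hmem : ∀ (R' A : Finset OPi) (s t : ℕ) (T : Finset (PR R')), A ⊆ R' → s ≤ 3 → t ≤ 3 →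
      P R' A s t T →
      QT.Dd s t (toS R' T) (expo A R') ∈ quarA Y → QT.Dd s t (toS R' T) (expo A R') ∈ B := by
    intro R' A s t T hAR hs ht hPT hq
    obtain ⟨e1, e2, hG⟩ := (hP _ _ _ _ _).1 hPT
    subst e1
    subst e2
    rw [hB]
    refine ⟨r3_quarA hq, ?_⟩
    have h3 := r3_quarA hq
    have h4 := norm_DT s t (Finset.Subset.refl A) T
    have h5 := GaussianInt.norm_nonneg (QT.Dd s t (toS A T) (expo A A))
    have h6 : 2 ^ t * PP.nS (nR A) T * w ≤ X * w := by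
      rw [mul_assoc, hw, ← h4, ← hw, ← hY]
      omega
    obtain ⟨D₀, hD₀, hDe⟩ := r3_mem hG (Nat.le_of_mul_le_mul_right h6 hw0)
    exact ⟨D₀, hTgt D₀ hD₀, hDe.symm⟩
  have key := le_ncard Y {R} P B hB1 hmem
  refine le_trans ?_ (key.trans hB2)
  rw [Finset.sum_singleton]
  have hYw : Y / wt R R = X := by
    rw [← hw, hY, Nat.mul_div_cancel X hw0]
  have h7 := Finset.single_le_sum (f := fun A => ∑ t ∈ Finset.range 4, ∑ s ∈ Finset.range 4,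
    (((arQT R).sb (Y / wt A R / 2 ^ t)).filter fun T => P R A s t T).card) (fun _ _ => Nat.zero_le _)
    (Finset.mem_powerset.2 (Finset.Subset.refl R))
  refine le_trans (le_of_eq ?_) h7
  refine Finset.sum_congr rfl fun t _ => Finset.sum_congr rfl fun s _ => ?_
  rw [hYw]
  refine congrArg Finset.card (Finset.filter_congr fun T _ => ?_)
  rw [hP]
  exact ⟨fun h => ⟨rfl, rfl, h⟩, fun h => h.2.2⟩

theorem dens_fixed (R : Finset OPi) : ∃ c : ℝ, 0 < c ∧ ∃ X0 : ℕ, ∀ X : ℕ, X0 ≤ X →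
    c * X ≤ (({D : Gi | ∃ (s t : ℕ) (S : Finset Gi) (a : Gi → ℕ), QT.Good s t S a ∧ D = QT.Dd s t S a ∧
      D.norm ≤ X ∧ ∀ ρ ∈ R, ¬ ρ.1 ∣ D ∧ sy D ρ.1 = 1} : Set Gi).ncard : ℝ) := by
  obtain ⟨κ, hκ, hsb⟩ := q9_card_sb R
  obtain ⟨X1, h1⟩ := hsb (κ / 2) (half_pos hκ)
  obtain ⟨e, he⟩ : ∃ e : ℝ, e = 41885 / 100000 * (4 / 5) * (1 / 2) ^ R.card := ⟨_, rfl⟩
  have he0 : 0 < e := by
    rw [he]
    positivity
  obtain ⟨X2, h2⟩ := dens_all (Finset.Subset.refl R) (e * κ) (by positivity)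
  refine ⟨e * κ, by positivity, X1 + X2, fun X hX => ?_⟩
  have hx0 : (0 : ℝ) ≤ X := Nat.cast_nonneg X
  have a1 := (abs_le.1 (h1 X (by omega))).1
  have a2 := h2 X (by omega)
  rw [← he] at a2
  have a3 : (((arQT R).sb X).card : ℝ) ≤ ∑ t ∈ Finset.range 4, (((arQT R).sb (X / 2 ^ t)).card : ℝ) := by
    have h5 := Finset.single_le_sum (s := Finset.range 4) (f := fun t => (((arQT R).sb (X / 2 ^ t)).card : ℝ))
      (fun i _ => Nat.cast_nonneg _) (Finset.mem_range.2 (show 0 < 4 by norm_num))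
    simpa using h5
  obtain ⟨Tgt, hTgt⟩ : ∃ Tgt : Set Gi, Tgt = {D : Gi | ∃ (s t : ℕ) (S : Finset Gi) (a : Gi → ℕ),
      QT.Good s t S a ∧ D = QT.Dd s t S a ∧ D.norm ≤ X ∧ ∀ ρ ∈ R, ¬ ρ.1 ∣ D ∧ sy D ρ.1 = 1} := ⟨_, rfl⟩
  rw [← hTgt]
  have hfin : Tgt.Finite := by
    rw [hTgt]
    refine (norm_fin X).subset fun D hD => ?_
    obtain ⟨_, _, _, _, _, _, h3, _⟩ := hD
    have h4 := GaussianInt.norm_nonneg D
    change D.norm.natAbs ≤ X
    omega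
  have key2 := r3_count R X Tgt hfin (fun D hD => by rw [hTgt]; exact hD)
  have key3 : (∑ t ∈ Finset.range 4, ∑ s ∈ Finset.range 4,
      ((((arQT R).sb (X / 2 ^ t)).filter fun T => QT.Good s t (toS R T) (expo R R)).card : ℝ)) ≤ (Tgt.ncard : ℝ) := by
    exact_mod_cast key2
  have a4 : (κ / 2) * X ≤ (((arQT R).sb X).card : ℝ) := by linarith
  have a5 : e * (4 * (κ / 2 * X)) ≤
      e * (4 * ∑ t ∈ Finset.range 4, (((arQT R).sb (X / 2 ^ t)).card : ℝ)) :=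
    mul_le_mul_of_nonneg_left (by linarith) he0.le
  have a6 : e * (4 * (κ / 2 * X)) = 2 * (e * κ * X) := by ring
  linarith

end QTF
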