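import Pool.Agent.QTF.X3
import Pool.Agent.QTF.I1

/-!
# [QTF-X5] nice extensions of degree `2 ^ n`
-/

set_option autoImplicit false

open NumberField Ideal IsDedekindDomain
open scoped Classical

namespace QTF

open PI

theorem sqe_nice {D : Gi} {F : Type} [Field F] [NumberField F] [Algebra KI F] (h : SqE KI (NE (eG D)) F) :
    IsGalois KI F ∧ (∀ σ : F ≃ₐ[KI] F, σ ^ 2 = 1) ∧
      ∀ (v : HeightOneSpectrum (𝓞 KI)) (P : HeightOneSpectrum (𝓞 F)),
        v.asIdeal.map (algebraMap (𝓞 KI) (𝓞 F)) ≤ P.asIdeal ^ 2 → NP (eG D) v := by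
  obtain ⟨n, t, c, s, hN, hs, htop⟩ := h
  refine ⟨TU.gal_of_sqrt hs htop, TU.sq_one_of_sqrt hs htop, fun v P h => ?_⟩
  obtain ⟨i, hi⟩ := TU.unram_of_sqrt hs htop h
  exact (hN i).2 v hi

theorem exists_sqe {s t : ℕ} {S : Finset Gi} {a : Gi → ℕ} (h : QT.Good s t S a) (n : ℕ) :
    ∃ (F : Type) (_ : Field F) (_ : NumberField F) (_ : Algebra KI F),
      SqE KI (NE (eG (QT.Dd s t S a))) F ∧ Module.finrank KI F = 2 ^ n := by
  have hadm : QT.Adm s t S a := by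
    rcases h with h | h | h
    · exact h.1
    · exact h.1
    · exact h.1
  refine sqrt_tower KI _ (x3_inf ((infinite_nice h).mono ?_)) n
  rintro v ⟨h1, h2, h3, h4⟩
  refine ⟨h1, h2, fun hd => ?_, h4⟩
  rcases QT.mem_of_dvd s t S a hadm h1 hd with h5 | ⟨p, hp, h5⟩
  · exact h2.not_la ((h1.dvd_prime_iff_associated la_prime).1 h5).symm.dvd
  · obtain ⟨hp1, hp2⟩ := hadm.1 p hp
    rw [QT.eq_of_dvd h1 h2 hp1 hp2 h5] at h3
    exact h3 hp

end QTF
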